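import Pool.Agent.W78.GR.Basic

/-!
Project GC (helper80): the parity of the number of prime factors of an arbitrary indefinite
quadratic polynomial `a n^2 + b n + c`. Built on project GR (helper78).

Here the Liouville function of the norm is replaced by a more general coefficient function `g`;
it will be the Liouville function of the norm on the residue class `1` modulo `Q`.
-/

set_option autoImplicit false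

namespace Pool.Agent.W80.GC

open Finset Filter
open Pool.Agent.H376R2.MR
open Pool.Agent.W78.GR

variable {t c : ℤ} {η : (Qd t c)ˣ}

/-- admissible coefficient functions -/
structure Cf (η : (Qd t c)ˣ) (g : Qd t c → ℤ) : Prop where
  bd : ∀ z, |g z| ≤ 1
  inv : ∀ (j : ℤ) (z : Qd t c), g (((η ^ j : (Qd t c)ˣ) : Qd t c) * z) = g z

/-- `G_Y(k) = ∑_{z primitive} g(z) w(log(N z/Y))/N z ps k z`, `z` in the fundamental domain -/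
noncomputable def GGg (η : (Qd t c)ˣ) (g : Qd t c → ℤ) (Y : ℝ) (k : ℤ) : ℂ :=
  DPG η (pball η (Real.exp 1 * Y)) (fun z => (g z : ℂ) * (bg Y z : ℂ)) k

/-- `g` is invariant under multiplication by the elements `ϖ m` and by the divisors of `m` -/
def Inv (g : Qd t c → ℤ) (M : ℕ → Prop) (ϖ : ℕ → Qd t c) : Prop :=
  ∀ m, M m → ∀ n : ℕ, n ∣ m → ∀ u z : Qd t c, tp u → tp z → ϖ m * u = (n : Qd t c) * z →
    g u = g z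

/-- MOM0 for `g` -/
def S_MOM0g (η : (Qd t c)ˣ) (g : Qd t c → ℤ) : Prop := ∃ C : ℝ, 0 < C ∧ ∀ (K : ℕ) (Z : ℝ),
    3 ≤ Z → 1 ≤ K → ∑ k ∈ FK K, ‖GGg η g Z k‖ ^ 2 ≤ C * (1 + (K : ℝ) / Z)

/-- MOM for `g` -/
def S_MOMg (η : (Qd t c)ˣ) (g : Qd t c → ℤ) : Prop := ∀ (Ap Bp M : ℕ → Prop) (E : ℕ) (ρ : ℕ → ℤ)
  (ϖ : ℕ → Qd t c), Ele t c Ap Bp M E ρ ϖ → ∃ C : ℝ, 1 ≤ C ∧ ∀ (H r ℓ K : ℕ) (Z : ℝ), 1 ≤ H →
    3 ≤ Z → 1 ≤ K → (K : ℝ) ≤ Z * Real.exp ((r : ℝ) * ℓ / H) →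
    ∑ k ∈ FK K, ‖PE η M ϖ H r k ^ ℓ * GGg η g Z k‖ ^ 2 ≤ C ^ (ℓ + 1) * (ℓ.factorial : ℝ) ^ 8

/-- DEC for `g` -/
def S_DECg (η : (Qd t c)ˣ) (g : Qd t c → ℤ) : Prop := ∀ (Ap Bp M : ℕ → Prop) (E : ℕ) (ρ : ℕ → ℤ)
  (ϖ : ℕ → Qd t c), Ele t c Ap Bp M E ρ ϖ → Inv g M ϖ → ∃ C : ℝ, 0 < C ∧ ∀ H v₀ v₁ : ℕ, 1 ≤ H →
    H ≤ v₀ → 1 ≤ ∑ v ∈ Ico v₀ v₁, mE M H v → ∀ Y : ℝ, Real.exp (4 * (v₁ : ℝ) / H) ≤ Y →
    ∃ (s : Finset (Qd t c)) (f : Qd t c → ℂ), s ⊆ pball η (Real.exp 2 * Y) ∧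
      (∀ k : ℤ, GGg η g Y k = -(1 / ((∑ v ∈ Ico v₀ v₁, mE M H v : ℝ) : ℂ)) *
        ∑ v ∈ Ico v₀ v₁, PE η M ϖ H v k * GGg η g (Y * Real.exp (-((v : ℝ) / H))) k +
        DPG η s f k) ∧
      Y * ∑ z ∈ s, ‖f z‖ ^ 2 ≤ C * (1 / (∑ v ∈ Ico v₀ v₁, mE M H v) + 1 / (H : ℝ) ^ 2)

/-- MR for `g` -/
def S_MRg (η : (Qd t c)ˣ) (g : Qd t c → ℤ) : Prop := ∀ δ : ℝ, 0 < δ → ∃ h : ℝ, 1 ≤ h ∧
  ∃ Y₀ : ℝ, ∀ Y : ℝ, Y₀ ≤ Y → ∑ k ∈ (FK ⌊Y / h⌋₊).erase 0, ‖GGg η g Y k‖ ^ 2 ≤ δ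

/-- the residue class `1` modulo `Q` -/
def cl (Q : ℕ) (z : Qd t c) : Prop := (Q : Qd t c) ∣ z - 1

open scoped Classical in
/-- the coefficient: the Liouville function of the norm on the class `1` modulo `Q` -/
noncomputable def gq (Q : ℕ) (z : Qd t c) : ℤ := if cl Q z then gl z else 0

end Pool.Agent.W80.GC
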