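import Pool.Agent.W80.GC.Defs

/-!
Project GC (helper80): the class `1` modulo `Q`, units in this class, invariance.
-/

set_option autoImplicit false

namespace Pool.Agent.W80.GC

open Finset Filter
open Pool.Agent.H376R2.MR
open Pool.Agent.W78.GR

variable {t c : ℤ} {η : (Qd t c)ˣ} {Q : ℕ}

lemma cl_iff {z : Qd t c} : cl Q z ↔ (Q : ℤ) ∣ z.re - 1 ∧ (Q : ℤ) ∣ z.im := by
  unfold cl
  rw [natCast_dvd, QuadraticAlgebra.re_sub, QuadraticAlgebra.im_sub, QuadraticAlgebra.re_one,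
    QuadraticAlgebra.im_one, sub_zero]

lemma cl_one : cl Q (1 : Qd t c) := by
  unfold cl
  simp

lemma cl_mul_iff {a : Qd t c} (ha : cl Q a) (z : Qd t c) : cl Q (a * z) ↔ cl Q z := by
  unfold cl at *
  have e : a * z - 1 = (a - 1) * z + (z - 1) := by ring
  rw [e]
  exact dvd_add_right (ha.mul_right z)

lemma cl_mul {a z : Qd t c} (ha : cl Q a) (hz : cl Q z) : cl Q (a * z) := (cl_mul_iff ha z).2 hz

lemma cl_star {z : Qd t c} (hz : cl Q z) : cl Q (star z) := by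
  rw [cl_iff] at *
  rw [QuadraticAlgebra.re_star, QuadraticAlgebra.im_star]
  obtain ⟨h1, h2⟩ := hz
  refine ⟨?_, by rwa [dvd_neg]⟩
  have e : z.re + t * z.im - 1 = (z.re - 1) + z.im * t := by ring
  rw [e]
  exact dvd_add h1 (h2.mul_right t)

lemma cl_zpow (h : cl Q (η : Qd t c)) (j : ℤ) : cl Q ((η ^ j : (Qd t c)ˣ) : Qd t c) := by
  have hinv : cl Q ((η⁻¹ : (Qd t c)ˣ) : Qd t c) := by
    rw [← cl_mul_iff h, ← Units.val_mul, mul_inv_cancel, Units.val_one]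
    exact cl_one
  induction j with
  | zero => simpa using cl_one
  | succ n ih =>
    rw [zpow_add_one, Units.val_mul]
    exact cl_mul ih h
  | pred n ih =>
    rw [zpow_sub_one, Units.val_mul]
    exact cl_mul ih hinv

/-- there is a unit in the class -/
theorem unit_cl (U : Un t c η) (hQ : 1 ≤ Q) : ∃ η' : (Qd t c)ˣ, Un t c η' ∧
    cl Q (η' : Qd t c) := by
  have : NeZero Q := ⟨by omega⟩
  obtain ⟨i, j, hij, h⟩ := Finite.exists_ne_map_eq_of_infinite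
    (fun i : ℕ => ((((η ^ i : (Qd t c)ˣ) : Qd t c).re : ZMod Q),
      (((η ^ i : (Qd t c)ˣ) : Qd t c).im : ZMod Q)))
  wlog hlt : i < j generalizing i j
  · exact this j i hij.symm h.symm (by omega)
  obtain ⟨k, rfl⟩ : ∃ k, j = i + k := ⟨j - i, by omega⟩
  have hk : 1 ≤ k := by omega
  simp only [Prod.mk.injEq] at h
  obtain ⟨h1, h2⟩ := h
  rw [ZMod.intCast_eq_intCast_iff_dvd_sub] at h1 h2
  have h3 : (Q : Qd t c) ∣ ((η ^ (i + k) : (Qd t c)ˣ) : Qd t c) - ((η ^ i : (Qd t c)ˣ) : Qd t c) := by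
    rw [natCast_dvd]
    exact ⟨by simpa using h1, by simpa using h2⟩
  have h4 : (Q : Qd t c) ∣ ((η ^ k : (Qd t c)ˣ) : Qd t c) - 1 := by
    have e : ((η ^ (i + k) : (Qd t c)ˣ) : Qd t c) - ((η ^ i : (Qd t c)ˣ) : Qd t c) =
        ((η ^ i : (Qd t c)ˣ) : Qd t c) * (((η ^ k : (Qd t c)ˣ) : Qd t c) - 1) := by
      rw [pow_add, Units.val_mul]; ring
    rw [e] at h3
    exact (Units.dvd_mul_left).1 h3
  have hs : ∀ n : ℕ, s1 ((η ^ n : (Qd t c)ˣ) : Qd t c) = s1 (η : Qd t c) ^ n := by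
    intro n
    induction n with
    | zero => simp [s1_one]
    | succ n ih => rw [pow_succ, Units.val_mul, s1_mul U.disc, ih, pow_succ]
  refine ⟨η ^ k, ?_, h4⟩
  refine { disc := U.disc, nsq := U.nsq, pos := ?_, big := ?_ }
  · have := U.tp_zpow (k : ℤ)
    rwa [zpow_natCast] at this
  · rw [hs]
    have h5 := U.s1_gt
    calc (t : ℝ) ^ 2 - 4 * c + 1 < s1 (η : Qd t c) := U.big
      _ = s1 (η : Qd t c) ^ 1 := (pow_one _).symm
      _ ≤ s1 (η : Qd t c) ^ k := pow_le_pow_right₀ h5.le hk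

lemma gq_le (z : Qd t c) : |gq Q z| ≤ 1 := by
  unfold gq
  split_ifs
  · rcases gl_eq z with h | h <;> rw [h] <;> norm_num
  · norm_num

theorem cf_gq (h : cl Q (η : Qd t c)) : Cf η (gq Q : Qd t c → ℤ) := by
  refine ⟨gq_le, ?_⟩
  intro j z
  unfold gq
  have h1 : cl Q (((η ^ j : (Qd t c)ˣ) : Qd t c) * z) ↔ cl Q z := cl_mul_iff (cl_zpow h j) z
  have h2 : gl (((η ^ j : (Qd t c)ˣ) : Qd t c) * z) = gl z := by
    unfold gl
    rw [Un.nm_zpow_mul]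
  by_cases hz : cl Q z
  · rw [if_pos (h1.2 hz), if_pos hz, h2]
  · rw [if_neg (fun h' => hz (h1.1 h')), if_neg hz]

lemma cl_nat {n : ℕ} (h : (Q : ℤ) ∣ (n : ℤ) - 1) : cl Q (n : Qd t c) := by
  rw [cl_iff, QuadraticAlgebra.re_natCast, QuadraticAlgebra.im_natCast]
  exact ⟨h, dvd_zero _⟩

theorem inv_gq (hd : 4 * c < t ^ 2) (hns : ¬ IsSquare (t ^ 2 - 4 * c)) {Ap Bp M : ℕ → Prop}
    {E : ℕ} {ρ : ℕ → ℤ} {ϖ : ℕ → Qd t c} (hE : Ele t c Ap Bp M E ρ ϖ)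
    (hcl : ∀ m, M m → cl Q (ϖ m)) (hp1 : ∀ p, Ap p ∨ Bp p → (Q : ℤ) ∣ (p : ℤ) - 1) :
    Inv (gq Q : Qd t c → ℤ) M ϖ := by
  intro m hm n hn u z hu hz he
  obtain ⟨p, q, hp, hq, hpq, -, -⟩ := hE.fac m hm
  have hpp := (hE.prA p hp).1
  have hqp := (hE.prB q hq).1
  have hm0 : 0 < m := by rw [hpq]; exact Nat.mul_pos hpp.pos hqp.pos
  have hn0 : 0 < n := Nat.pos_of_dvd_of_pos hn hm0
  have hϖ : nm (ϖ m) = m := (hE.elt m hm).1
  have hϖt : tp (ϖ m) := (hE.elt m hm).2.2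
  have hl : gl (ϖ m) = 1 := by
    unfold gl
    rw [hϖ, hpq, lam_mul hpp.ne_zero hqp.ne_zero, lam_prime hpp, lam_prime hqp]
    norm_num
  have hgl : gl u = gl z := by
    have h4 : gl (ϖ m * u) = gl u := by
      rw [gl_mul hns (tp_ne_zero hϖt) (tp_ne_zero hu), hl, one_mul]
    rw [← h4, he]
    unfold gl
    rw [nm_mul, nm_natCast, lam_sq_mul hn0.ne' (nm_pos hd hz).ne']
  -- `n` is in the class
  have hnQ : (Q : ℤ) ∣ (n : ℤ) - 1 := by
    rw [hpq] at hn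
    obtain ⟨a, b, ha, hb, rfl⟩ := (Nat.dvd_mul).1 hn
    have h1 : (Q : ℤ) ∣ (a : ℤ) - 1 := by
      rcases (Nat.dvd_prime hpp).1 ha with h | h
      · rw [h]; simp
      · rw [h]; exact hp1 p (Or.inl hp)
    have h2 : (Q : ℤ) ∣ (b : ℤ) - 1 := by
      rcases (Nat.dvd_prime hqp).1 hb with h | h
      · rw [h]; simp
      · rw [h]; exact hp1 q (Or.inr hq)
    have e : (((a * b : ℕ) : ℤ)) - 1 = ((a : ℤ) - 1) * b + ((b : ℤ) - 1) := by push_cast; ring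
    rw [e]
    exact dvd_add (h1.mul_right _) h2
  have h1 : cl Q u ↔ cl Q z := by
    rw [← cl_mul_iff (hcl m hm) u, he, cl_mul_iff (cl_nat hnQ)]
  unfold gq
  rw [hgl]
  by_cases h : cl Q u
  · rw [if_pos h, if_pos (h1.1 h)]
  · rw [if_neg h, if_neg (fun h' => h (h1.2 h'))]

end Pool.Agent.W80.GC
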