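import Pool.Agent.W80.GC.Scp
import Pool.Agent.W80.GB.A0

/-!
Project GC (helper80): the main frequency for the class `1` modulo `Q`.
-/

set_option autoImplicit false

namespace Pool.Agent.W80.GC

open Finset Filter
open Pool.Agent.H376R2.MR
open Pool.Agent.W78.GR
open Pool.Agent.W78.GA (bg_nonneg bg_le)
open Pool.Agent.W80.GB (cop_pairs)

variable {t c : ℤ} {η : (Qd t c)ˣ} {Q : ℕ}

theorem a0c (U : Un t c η) (hQ : 1 ≤ Q) : S_A0c η Q := by
  classical
  have hsd := sd_pos U.disc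
  set sd : ℝ := Real.sqrt ((t : ℝ) ^ 2 - 4 * c) with hsdd
  set κ : ℝ := |(t : ℝ)| + |(c : ℝ)| + sd + 1 with hκ
  have hκ1 : 1 ≤ κ := by
    have := abs_nonneg (t : ℝ); have := abs_nonneg (c : ℝ); rw [hκ]; linarith
  have hκ0 : 0 < κ := by linarith
  set δ : ℝ := 1 / (100 * κ) with hδ
  have hδ0 : 0 < δ := by positivity
  have hκδ : κ * δ = 0.01 := by rw [hδ]; field_simp; norm_num
  have hδ1 : δ ≤ 0.01 := by nlinarith
  have haR : (1 : ℝ) ≤ Q := by exact_mod_cast hQ
  have ha0 : (0 : ℝ) < Q := by linarith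
  refine ⟨δ ^ 2 / (20 * Q ^ 2), by positivity, (90001 * Q / δ) ^ 2, fun Y hY => ?_⟩
  set R : ℝ := Real.sqrt Y with hR
  have hY0 : 0 < Y := lt_of_lt_of_le (by positivity) hY
  have hR2 : R ^ 2 = Y := Real.sq_sqrt hY0.le
  have hRbig : 90001 * Q / δ ≤ R := Real.le_sqrt_of_sq_le hY
  have hR0 : 0 < R := Real.sqrt_pos.2 hY0
  have hRa : 90001 ≤ δ * R / Q := by
    rw [le_div_iff₀ ha0]
    rw [div_le_iff₀ hδ0] at hRbig
    linarith
  have hδR : 1 ≤ δ * R := by
    rw [le_div_iff₀ ha0] at hRa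
    linarith
  set M : ℤ := ⌈R / Q⌉ with hM
  set L : ℕ := ⌊δ * R / Q⌋₊ with hL
  have hM1 : R / Q ≤ M := Int.le_ceil _
  have hM2 : (M : ℝ) < R / Q + 1 := Int.ceil_lt_add_one _
  have hL1 : (L : ℝ) ≤ δ * R / Q := Nat.floor_le (by positivity)
  have hL2 : δ * R / Q - 1 < L := Nat.sub_one_lt_floor _
  have hL90 : 90000 ≤ L := by
    have : (90000 : ℝ) < L := by linarith
    exact_mod_cast this.le
  have hcop := cop_pairs Q L M hL90
  set S := (Ico M (M + L) ×ˢ Icc 1 L).filter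
      (fun p : ℤ × ℕ => Int.gcd (1 + Q * p.1) (Q * p.2) = 1) with hS
  set F : ℤ × ℕ → Qd t c := fun p => ⟨1 + Q * p.1, Q * p.2⟩ with hF
  have hinj : Set.InjOn F S := by
    rintro ⟨x, y⟩ _ ⟨x', y'⟩ _ h
    have h1 := congrArg QuadraticAlgebra.re h
    have h2 := congrArg QuadraticAlgebra.im h
    simp only [hF] at h1 h2
    have haz : (Q : ℤ) ≠ 0 := by exact_mod_cast (by omega : Q ≠ 0)
    have h3 : x = x' := by
      apply mul_left_cancel₀ haz; linarith
    have h4 : (y : ℤ) = y' := mul_left_cancel₀ haz h2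
    rw [h3]
    congr 1
    exact_mod_cast h4
  have key : ∀ p ∈ S, F p ∈ pball η (Real.exp 1 * Y) ∧ 0.4 / Y ≤ (cq Q (F p) : ℝ) * bg Y (F p) := by
    rintro ⟨x₁, y₁⟩ hp
    rw [hS, mem_filter, mem_product, mem_Ico, mem_Icc] at hp
    obtain ⟨⟨⟨hx1, hx2⟩, hy1, hy2⟩, hg⟩ := hp
    simp only at hx1 hx2 hy1 hy2 hg
    have hprim : prim (F (x₁, y₁)) := hg
    set x : ℝ := 1 + Q * (x₁ : ℝ) with hx
    set y : ℝ := Q * (y₁ : ℝ) with hy
    have hre : ((F (x₁, y₁)).re : ℝ) = x := by simp only [hF]; push_cast; rw [hx]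
    have him : ((F (x₁, y₁)).im : ℝ) = y := by simp only [hF]; push_cast; rw [hy]
    have hx1R : (M : ℝ) ≤ x₁ := by exact_mod_cast hx1
    have hx2R : (x₁ : ℝ) + 1 ≤ M + L := by exact_mod_cast hx2
    have hy2R : (y₁ : ℝ) ≤ L := by exact_mod_cast hy2
    have hxl : R ≤ x := by
      have h1 : R / Q ≤ x₁ := hM1.trans hx1R
      rw [div_le_iff₀ ha0] at h1
      rw [hx]; linarith
    have hxu : x ≤ (1 + 2 * δ) * R := by
      have h1 : (x₁ : ℝ) ≤ R / Q + δ * R / Q := by linarith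
      have h2 : Q * (x₁ : ℝ) ≤ Q * (R / Q + δ * R / Q) := mul_le_mul_of_nonneg_left h1 ha0.le
      have h3 : Q * (R / Q + δ * R / Q) = R + δ * R := by field_simp
      rw [hx]; linarith
    have hy0 : 0 ≤ y := by positivity
    have hyu : y ≤ δ * R := by
      have h1 : (y₁ : ℝ) ≤ δ * R / Q := hy2R.trans hL1
      rw [le_div_iff₀ ha0] at h1
      rw [hy]; linarith
    have hx0 : 0 ≤ x := by linarith
    have hxu' : x ≤ 1.02 * R := by
      have : (1 + 2 * δ) * R ≤ 1.02 * R := mul_le_mul_of_nonneg_right (by linarith) hR0.le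
      linarith
    have hyx : y ≤ R := by
      have : δ * R ≤ 1 * R := mul_le_mul_of_nonneg_right (by linarith) hR0.le
      linarith
    -- the embeddings
    have hκy : (|(t : ℝ)| + sd) * y ≤ 0.01 * R := by
      calc (|(t : ℝ)| + sd) * y ≤ κ * (δ * R) := by
            apply mul_le_mul _ hyu hy0 hκ0.le
            rw [hκ]
            have := abs_nonneg (c : ℝ)
            linarith
        _ = 0.01 * R := by rw [← mul_assoc, hκδ]
    have hty : |(t : ℝ) * y| ≤ |(t : ℝ)| * y := by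
      rw [abs_mul, abs_of_nonneg hy0]
    have hty' := abs_le.1 hty
    have hsdy : 0 ≤ sd * y := by positivity
    have es1 : s1 (F (x₁, y₁)) = x + t * y / 2 + y * sd / 2 := by
      unfold s1; rw [hre, him]
    have es2 : s2 (F (x₁, y₁)) = x + t * y / 2 - y * sd / 2 := by
      unfold s2; rw [hre, him]
    have hs1l : 0.99 * R ≤ s1 (F (x₁, y₁)) := by
      rw [es1]; linarith [hty'.1]
    have hs1u : s1 (F (x₁, y₁)) ≤ 1.03 * R := by
      rw [es1]; linarith [hty'.2]
    have hs2l : 0.99 * R ≤ s2 (F (x₁, y₁)) := by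
      rw [es2]; linarith [hty'.1]
    have htp : tp (F (x₁, y₁)) := ⟨by linarith, by linarith⟩
    have hfd : fd η (F (x₁, y₁)) := by
      rw [U.fd_iff htp]
      constructor
      · rw [es1, es2]; linarith
      · have h1 := U.s1_gt
        have h2 := U.big
        have h3 := U.five_le
        have h4 : (6 : ℝ) ≤ s1 (η : Qd t c) := by linarith
        have h5 : (36 : ℝ) ≤ s1 (η : Qd t c) ^ 2 := by nlinarith
        calc s1 (F (x₁, y₁)) ≤ 1.03 * R := hs1u
          _ < 36 * (0.99 * R) := by linarith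
          _ ≤ s1 (η : Qd t c) ^ 2 * s2 (F (x₁, y₁)) := by
              apply mul_le_mul h5 hs2l (by positivity) (by positivity)
    have hnm : (nm (F (x₁, y₁)) : ℝ) = x ^ 2 + t * x * y + c * y ^ 2 := by
      rw [nm_tp U.disc htp, s1_mul_s2 U.disc, hre, him]
    have b1 : |(t : ℝ) * x * y| ≤ |(t : ℝ)| * (1.02 * δ * R ^ 2) := by
      rw [abs_mul, abs_mul, abs_of_nonneg hx0, abs_of_nonneg hy0, mul_assoc]
      apply mul_le_mul_of_nonneg_left _ (abs_nonneg _)
      calc x * y ≤ (1.02 * R) * (δ * R) := mul_le_mul hxu' hyu hy0 (by positivity)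
        _ = 1.02 * δ * R ^ 2 := by ring
    have b2 : |(c : ℝ) * y ^ 2| ≤ |(c : ℝ)| * (1.02 * δ * R ^ 2) := by
      rw [abs_mul, abs_of_nonneg (sq_nonneg y)]
      apply mul_le_mul_of_nonneg_left _ (abs_nonneg _)
      calc y ^ 2 = y * y := by ring
        _ ≤ (δ * R) * (1.02 * R) := mul_le_mul hyu (by linarith) hy0 (by positivity)
        _ = 1.02 * δ * R ^ 2 := by ring
    have b3 : |(t : ℝ) * x * y + c * y ^ 2| ≤ 0.02 * Y := by
      refine (abs_add_le _ _).trans ?_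
      have h1 : |(t : ℝ)| * (1.02 * δ * R ^ 2) + |(c : ℝ)| * (1.02 * δ * R ^ 2) ≤
          κ * (1.02 * δ * R ^ 2) := by
        have h0 : 0 ≤ 1.02 * δ * R ^ 2 := by positivity
        have h00 : 0 ≤ sd * (1.02 * δ * R ^ 2) := by positivity
        have e : κ * (1.02 * δ * R ^ 2) = |(t : ℝ)| * (1.02 * δ * R ^ 2) + |(c : ℝ)| * (1.02 * δ * R ^ 2) +
            sd * (1.02 * δ * R ^ 2) + 1.02 * δ * R ^ 2 := by rw [hκ]; ring
        linarith
      have h2 : κ * (1.02 * δ * R ^ 2) = 1.02 * (κ * δ) * R ^ 2 := by ring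
      rw [h2, hκδ, hR2] at h1
      rw [hR2] at b1 b2
      linarith
    have b3' := abs_le.1 b3
    have b4 : Y ≤ x ^ 2 := by rw [← hR2]; exact pow_le_pow_left₀ hR0.le hxl 2
    have b5 : x ^ 2 ≤ 1.0404 * Y := by
      have := pow_le_pow_left₀ hx0 hxu' 2
      rw [mul_pow, hR2] at this
      linarith
    have n1 : 0.98 * Y ≤ (nm (F (x₁, y₁)) : ℝ) := by rw [hnm]; linarith
    have n2 : (nm (F (x₁, y₁)) : ℝ) ≤ 1.0604 * Y := by rw [hnm]; linarith
    have hn0 : (0 : ℝ) < nm (F (x₁, y₁)) := by linarith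
    refine ⟨U.mem_pball.2 ⟨hfd, hprim, ?_⟩, ?_⟩
    · have he : (2 : ℝ) ≤ Real.exp 1 := by
        have := Real.add_one_le_exp (1 : ℝ); linarith
      have h1 := mul_le_mul_of_nonneg_right he hY0.le
      linarith
    · have hcop' : cl Q (F (x₁, y₁)) := by
        rw [cl_iff]
        simp only [hF]
        exact ⟨⟨x₁, by ring⟩, ⟨y₁, rfl⟩⟩
      have hca1 : (cq Q (F (x₁, y₁)) : ℝ) = 1 := by
        unfold cq; rw [if_pos hcop']; norm_num
      rw [hca1, one_mul]
      unfold Pool.Agent.W78.GA.bg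
      have hw : (0.5 : ℝ) ≤ w (Real.log (nm (F (x₁, y₁))) - Real.log Y) := by
        rw [← Real.log_div hn0.ne' hY0.ne']
        have hq0 : 0 < (nm (F (x₁, y₁)) : ℝ) / Y := by positivity
        have l1 := Real.log_le_sub_one_of_pos hq0
        have l2 := Real.one_sub_inv_le_log_of_pos hq0
        have l3 : (nm (F (x₁, y₁)) : ℝ) / Y ≤ 1.0604 := by rw [div_le_iff₀ hY0]; exact n2
        have l4 : ((nm (F (x₁, y₁)) : ℝ) / Y)⁻¹ ≤ 1.1 := by
          rw [inv_div, div_le_iff₀ hn0]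
          linarith
        have l5 : |Real.log ((nm (F (x₁, y₁)) : ℝ) / Y)| ≤ 0.5 := by
          rw [abs_le]; constructor <;> linarith
        unfold w
        refine le_trans ?_ (le_max_right _ _)
        linarith
      calc 0.4 / Y ≤ 0.5 / (nm (F (x₁, y₁)) : ℝ) := by
            rw [div_le_div_iff₀ hY0 hn0]; linarith
        _ ≤ _ := div_le_div_of_nonneg_right hw hn0.le
  calc δ ^ 2 / (20 * Q ^ 2) ≤ (S.card : ℝ) * (0.4 / Y) := by
        have h1 : δ * R / (2 * Q) ≤ L := by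
          have : δ * R / (2 * Q) = (δ * R / Q) / 2 := by field_simp
          rw [this]; linarith
        have h2 : (δ * R / (2 * Q)) ^ 2 ≤ (L : ℝ) ^ 2 := pow_le_pow_left₀ (by positivity) h1 2
        have h3 : (δ * R / (2 * Q)) ^ 2 = δ ^ 2 * Y / (4 * Q ^ 2) := by
          rw [div_pow, mul_pow, hR2]; ring
        rw [h3] at h2
        have h4 : δ ^ 2 * Y / (4 * Q ^ 2) / 2 ≤ (S.card : ℝ) := by linarith
        have h5 : δ ^ 2 * Y / (4 * Q ^ 2) / 2 * (0.4 / Y) = δ ^ 2 / (20 * Q ^ 2) := by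
          field_simp
          norm_num
        rw [← h5]
        exact mul_le_mul_of_nonneg_right h4 (by positivity)
    _ = ∑ p ∈ S, 0.4 / Y := by rw [sum_const, nsmul_eq_mul]
    _ ≤ ∑ p ∈ S, (cq Q (F p) : ℝ) * bg Y (F p) := sum_le_sum fun p hp => (key p hp).2
    _ = ∑ z ∈ S.image F, (cq Q z : ℝ) * bg Y z := by rw [sum_image hinj]
    _ ≤ ∑ z ∈ pball η (Real.exp 1 * Y), (cq Q z : ℝ) * bg Y z := by
        apply sum_le_sum_of_subset_of_nonneg
        · intro z hz
          rw [mem_image] at hz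
          obtain ⟨p, hp, rfl⟩ := hz
          exact (key p hp).1
        · intro z _ _
          apply mul_nonneg _ (bg_nonneg _ _)
          unfold cq; split_ifs <;> simp

end Pool.Agent.W80.GC
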