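import Pool.Agent.W80.GC.Cnt
import Pool.Agent.W80.GB.Alg

/-!
Project GC (helper80): from pairs of elements to values of `a n^2 + b n + c` at negative integers.
-/

set_option autoImplicit false

namespace Pool.Agent.W80.GC

open Finset Filter
open Pool.Agent.H376R2.MR
open Pool.Agent.W78.GR
open Pool.Agent.W80.GB (lz lz_mul lz_eq alg_core)

/-- the data attached to a pair -/
structure PD (a : ℕ) (b c₀ : ℤ) (T P : ℕ) (X : ℝ) (v u : Qd b (a * c₀)) (m m' : ℤ)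
    (k e g q B B' : ℕ) : Prop where
  hk : k ∈ Icc 1 T
  he : e ∈ Icc 1 T
  hg : g ∈ Icc 1 (T ^ 2)
  hq : q ∈ Icc 1 P
  d1 : (B : ℤ) ∣ k * (a * m ^ 2 + b * m + c₀)
  d2 : (B' : ℤ) ∣ k * (a * m' ^ 2 + b * m' + c₀)
  w1 : star v * u = ⟨e * (B + a * k * m), e * k⟩
  w2 : star v * u = ⟨e * (B' - b * k - a * k * m'), e * k⟩
  n1 : nm v * g * q = e ^ 2 * B
  n2 : nm u = g * q * B'
  f1 : 0 < a * m ^ 2 + b * m + c₀
  f2 : 0 < a * m' ^ 2 + b * m' + c₀
  l : lz (a * m ^ 2 + b * m + c₀) * lz (a * m' ^ 2 + b * m' + c₀) = -1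
  m0 : m < 0
  m0' : m' < 0
  b1 : |(m : ℝ)| ≤ (P + 2) * X
  b2 : |(m' : ℝ)| ≤ (P + 2) * X

theorem pair_data {a : ℕ} (ha : 1 ≤ a) {b c₀ : ℤ} (hd : 4 * (a * c₀) < b ^ 2)
    {Q T P₀ P A₀ : ℕ} (hQ1 : 1 ≤ Q)
    (hQ : 4 * (b ^ 2 - 4 * (a * c₀)) ∣ (Q : ℤ)) (haQ : a ∣ Q)
    (hA₀ : a * T.factorial ∣ A₀) (hA₀0 : A₀ ≠ 0) {X c₁ : ℝ} (hX : 1 ≤ X) (hc₁ : 0 < c₁)
    (hTP : T ≤ P₀) (hP₀ : 8 * (T : ℝ) ^ 2 ≤ c₁ * P₀)
    (hX1 : ((b ^ 2 - 4 * (a * c₀) : ℤ) : ℝ) * T ≤ X) (hX2 : |(b : ℝ)| * T ≤ X)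
    (hX3 : |(b : ℝ)| * T ^ 2 ≤ c₁ * X)
    {v u : Qd b (a * c₀)} (hv : tp v) (hu : tp u) (hcv : cl Q v) (hcu : cl Q u)
    (hsv : spl v) (hsu : spl u) (hv1 : c₁ * X ≤ nm v) (hv2 : (nm v : ℝ) ≤ X)
    (hu1 : c₁ * X ≤ nm u) (hu2 : (nm u : ℝ) ≤ X)
    (hd1 : 1 ≤ dt v u) (hd2 : dt v u ≤ T) (hgl : gl v ≠ gl u) (hR : Rich A₀ P₀ P u) :
    ∃ (m m' : ℤ) (k e g q B B' : ℕ), PD a b c₀ T P X v u m m' k e g q B B' := by
  have hn1 := nm_pos hd hv
  have hn2 := nm_pos hd hu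
  have haz : (0 : ℤ) < a := by exact_mod_cast ha
  have hX0 : 0 < X := by linarith
  set Δ : ℤ := b ^ 2 - 4 * (a * c₀) with hΔ
  have hΔ0 : 0 < Δ := by rw [hΔ]; linarith
  set s := ip v u with hs
  set κ := dt v u with hκ
  have hip : (nm v : ℤ) * nm u = s ^ 2 + b * s * κ + a * c₀ * κ ^ 2 := ip_dt v u hd hv hu
  have hw : star v * u = ⟨s, κ⟩ := star_mul_eq v u
  have hwt : tp (star v * u) := tp_mul hd (tp_star hv) hu
  have hwc : cl Q (star v * u) := cl_mul (cl_star hcv) hcu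
  rw [hw, cl_iff] at hwc
  obtain ⟨hc1, hc2⟩ := hwc
  simp only at hc1 hc2
  -- the content
  have he0 : 0 < Int.gcd s κ := by
    rw [Nat.pos_iff_ne_zero, ne_eq, Int.gcd_eq_zero_iff]
    rintro ⟨-, h⟩
    omega
  obtain ⟨s₁, k₁, hsk, h1, h2⟩ := Int.exists_gcd_one he0
  set e : ℕ := Int.gcd s κ with he
  have hez : (0 : ℤ) < e := by exact_mod_cast he0
  have hk₁ : 0 < k₁ := by
    by_contra hcon
    push Not at hcon
    have : k₁ * e ≤ 0 := mul_nonpos_of_nonpos_of_nonneg hcon hez.le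
    omega
  lift k₁ to ℕ using hk₁.le with k hkk
  have hk0 : 1 ≤ k := by exact_mod_cast hk₁
  have hkz : (0 : ℤ) < k := hk₁
  have hkT : k ≤ T := by
    have h3 : (k : ℤ) ≤ k * e := le_mul_of_one_le_right hkz.le (by linarith)
    have : (k : ℤ) ≤ T := by linarith
    exact_mod_cast this
  have heT : e ≤ T := by
    have h3 : (e : ℤ) ≤ k * e := le_mul_of_one_le_left hez.le (by linarith)
    have : (e : ℤ) ≤ T := by linarith
    exact_mod_cast this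
  set N : ℤ := s₁ ^ 2 + b * s₁ * k + a * c₀ * k ^ 2 with hN
  have heN : (e : ℤ) ^ 2 * N = nm v * nm u := by
    rw [hip, h1, h2, hN]; ring
  have hN0 : 0 < N := by
    by_contra hcon
    push Not at hcon
    have h3 : (e : ℤ) ^ 2 * N ≤ 0 := mul_nonpos_of_nonneg_of_nonpos (by positivity) hcon
    have h4 : (0 : ℤ) < nm v * nm u := by positivity
    linarith
  -- the class
  have heQ : IsCoprime (e : ℤ) (Q : ℤ) := by
    obtain ⟨y, hy⟩ := hc1
    exact ⟨s₁, -y, by linarith⟩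
  have hQk : (Q : ℤ) ∣ k := by
    rw [h2] at hc2
    exact heQ.symm.dvd_of_dvd_mul_right hc2
  have hak' : (a : ℤ) ∣ k := (Int.natCast_dvd_natCast.2 haQ).trans hQk
  -- coprimality
  have hsk' : IsCoprime s₁ (k : ℤ) := Int.isCoprime_iff_gcd_eq_one.2 hsk
  have hsa : IsCoprime s₁ (a : ℤ) := hsk'.of_isCoprime_of_dvd_right hak'
  have hNk : IsCoprime N (k : ℤ) := by
    have h3 : IsCoprime (s₁ ^ 2) (k : ℤ) := hsk'.pow_left
    have h4 : N = s₁ ^ 2 + k * (b * s₁ + a * c₀ * k) := by rw [hN]; ring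
    rw [h4]
    exact (IsCoprime.add_mul_left_left_iff).2 h3
  have hNa : IsCoprime N (a : ℤ) := hNk.of_isCoprime_of_dvd_right hak'
  have hNA : IsCoprime N ((a : ℤ) * k) := IsCoprime.mul_right hNa hNk
  have hsA : IsCoprime s₁ ((a : ℤ) * k) := IsCoprime.mul_right hsa hsk'
  -- the factorisation of `N`
  obtain ⟨g, β', h, hg0, hβh, hgβ, hgh⟩ : ∃ g β' h : ℕ, 0 < g ∧ Nat.Coprime β' h ∧
      nm u = β' * g ∧ e ^ 2 = h * g := by
    have hg0 : 0 < Nat.gcd (nm u) (e ^ 2) := Nat.gcd_pos_of_pos_left _ hn2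
    obtain ⟨x, y, hxy, h3, h4⟩ := Nat.exists_coprime (nm u) (e ^ 2)
    exact ⟨Nat.gcd (nm u) (e ^ 2), x, y, hg0, hxy, h3, h4⟩
  have hgT : g ≤ T ^ 2 := by
    have h3 : g ∣ e ^ 2 := Dvd.intro_left _ hgh.symm
    have h4 := Nat.le_of_dvd (by positivity) h3
    exact h4.trans (Nat.pow_le_pow_left heT 2)
  have hhN : (h : ℤ) * N = nm v * β' := by
    have h3 : ((e ^ 2 : ℕ) : ℤ) = (h : ℤ) * g := by rw [hgh]; push_cast; ring
    have h4 : ((nm u : ℕ) : ℤ) = (β' : ℤ) * g := by rw [hgβ]; push_cast; ring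
    rw [h4] at heN
    push_cast at h3
    rw [h3] at heN
    have hg0' : (g : ℤ) ≠ 0 := by exact_mod_cast hg0.ne'
    apply mul_right_cancel₀ hg0'
    linear_combination heN
  have hβN : (β' : ℤ) ∣ N := by
    have h3 : (β' : ℤ) ∣ (h : ℤ) * N := ⟨nm v, by rw [hhN]; ring⟩
    exact (Nat.isCoprime_iff_coprime.2 hβh).dvd_of_dvd_mul_left h3
  obtain ⟨β₀, hβ₀⟩ := hβN
  have hβ'0 : 0 < β' := by
    rcases Nat.eq_zero_or_pos β' with h3 | h3
    · rw [h3] at hgβ; simp at hgβ; omega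
    · exact h3
  have hβ'z : (0 : ℤ) < β' := by exact_mod_cast hβ'0
  have hβ00 : 0 < β₀ := by
    by_contra hcon
    push Not at hcon
    have : (β' : ℤ) * β₀ ≤ 0 := mul_nonpos_of_nonneg_of_nonpos hβ'z.le hcon
    linarith
  lift β₀ to ℕ using hβ00.le with β hββ
  have hβ0 : 0 < β := by exact_mod_cast hβ00
  have hhβ : h * β = nm v := by
    have h3 : (h : ℤ) * β = nm v := by
      apply mul_left_cancel₀ hβ'z.ne'
      rw [hβ₀] at hhN
      linear_combination hhN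
    exact_mod_cast h3
  -- the auxiliary prime
  have hβA : IsCoprime (β : ℤ) ((a : ℤ) * k) := by
    rw [hβ₀] at hNA
    exact hNA.of_mul_left_right
  have hβA0 := hβA
  obtain ⟨v₁, v₂, hv₁⟩ := hβA
  have hr0 : IsCoprime (s₁ * v₁) ((a * k : ℕ) : ℤ) := by
    push_cast
    apply IsCoprime.mul_left hsA
    exact ⟨β, v₂, by rw [← hv₁]; ring⟩
  have hak0n : a * k ≠ 0 := (Nat.mul_pos (by omega) (by omega)).ne'
  obtain ⟨r, hrp, hrA, hr1⟩ := exists_prime_class hak0n hr0 A₀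
  have hrcop : Nat.Coprime r A₀ := by
    rw [Nat.Prime.coprime_iff_not_dvd hrp]
    intro h3
    have := Nat.le_of_dvd (Nat.pos_of_ne_zero hA₀0) h3
    omega
  have hJβ : jacobiSym Δ β = 1 := by
    apply jac_spl β hβ0.ne'
    intro p hp hpβ
    apply hsv p hp
    rw [← hhβ]
    exact hpβ.mul_left h
  have hJe : jacobiSym Δ e = 1 := by
    apply jac_spl e he0.ne'
    intro p hp hpe
    have h3 : (p : ℤ) ∣ ((nm v * nm u : ℕ) : ℤ) := by
      push_cast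
      rw [← heN]
      exact (dvd_pow (Int.natCast_dvd_natCast.2 hpe) two_ne_zero).mul_right N
    have h4 : p ∣ nm v * nm u := by exact_mod_cast h3
    rcases hp.dvd_mul.1 h4 with h5 | h5
    · exact hsv p hp h5
    · exact hsu p hp h5
  have hJr : jacobiSym Δ r = 1 := by
    have h3 : (Q : ℤ) ∣ ((r * (e * β) : ℕ) : ℤ) - 1 := by
      have h4 : (Q : ℤ) ∣ (r : ℤ) - s₁ * v₁ := by
        refine Dvd.dvd.trans ?_ hr1
        push_cast
        exact hQk.mul_left a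
      have h5 : (Q : ℤ) ∣ v₁ * β - 1 := by
        have h6 : v₁ * (β : ℤ) - 1 = -(v₂ * (a * k)) := by linarith
        rw [h6, dvd_neg]
        exact (hQk.mul_left a).mul_left v₂
      have h6 : ((r * (e * β) : ℕ) : ℤ) - 1 = ((r : ℤ) - s₁ * v₁) * (e * β) +
          (s₁ * e) * (v₁ * β - 1) + (s - 1) := by
        push_cast
        rw [h1]
        ring
      rw [h6]
      exact dvd_add (dvd_add (h4.mul_right _) (h5.mul_left _)) hc1
    have h4 := jac_one hQ h3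
    haveI : NeZero r := ⟨hrp.ne_zero⟩
    haveI : NeZero e := ⟨he0.ne'⟩
    haveI : NeZero β := ⟨hβ0.ne'⟩
    haveI : NeZero (e * β) := ⟨Nat.mul_ne_zero he0.ne' hβ0.ne'⟩
    rw [jacobiSym.mul_right, jacobiSym.mul_right, hJβ, hJe, mul_one, mul_one] at h4
    exact h4
  obtain ⟨q, hq, hq0, hqP, hqu, hqr⟩ := hR r hrcop hJr
  have hkA₀ : ((a : ℤ) * k) ∣ A₀ := by
    have h3 : k ∣ T.factorial := Nat.dvd_factorial (by omega) hkT
    have h4 : a * k ∣ A₀ := (Nat.mul_dvd_mul_left a h3).trans hA₀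
    exact_mod_cast h4
  have hqT : T < q := lt_of_le_of_lt hTP hq0
  have hqβ : q ∣ β' := by
    rw [hgβ] at hqu
    rcases hq.dvd_mul.1 hqu with h3 | h3
    · exact h3
    · exfalso
      have h4 : q ∣ e ^ 2 := h3.trans (Dvd.intro_left _ hgh.symm)
      have h5 := hq.dvd_of_dvd_pow h4
      have h6 := Nat.le_of_dvd he0 h5
      omega
  obtain ⟨β₁, hβ₁⟩ := hqβ
  have hβ₁0 : 0 < β₁ := by
    rcases Nat.eq_zero_or_pos β₁ with h3 | h3
    · rw [h3] at hβ₁; simp at hβ₁; omega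
    · exact h3
  -- `B` and `B'`
  have hBB : ((β * q : ℕ) : ℤ) * (β₁ : ℤ) = N := by
    rw [hβ₀, hβ₁]; push_cast; ring
  have hBs : ((a : ℤ) * k) ∣ s₁ - ((β * q : ℕ) : ℤ) := by
    obtain ⟨y, hy⟩ := hkA₀.trans hqr
    obtain ⟨y', hy'⟩ := hr1
    push_cast at hy'
    have h3 : (q : ℤ) = r + a * k * y := by linarith
    have h4 : (r : ℤ) = s₁ * v₁ + a * k * y' := by linarith
    refine ⟨s₁ * v₂ - β * y' - β * y, ?_⟩
    push_cast
    rw [h3, h4]
    linear_combination (-s₁) * hv₁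
  obtain ⟨m, hm⟩ := hBs
  have hBA : IsCoprime ((β * q : ℕ) : ℤ) ((a : ℤ) * k) := by
    rw [← hBB] at hNA
    exact hNA.of_mul_left_left
  have hak0 : (a : ℤ) * k ≠ 0 := by positivity
  obtain ⟨m', hm', hf1, hf2⟩ := alg_core (b := b) (c₀ := c₀) hak0 hBB hN
    (by linarith : ((β * q : ℕ) : ℤ) = s₁ - a * k * m) hBA
  have hw' : star v * u = ⟨e * s₁, e * k⟩ := by
    rw [hw, h1, h2]
    congr 1 <;> ring
  -- sizes
  set B : ℕ := β * q with hB
  have hB0 : 0 < B := Nat.mul_pos hβ0 hq.pos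
  set σ : ℤ := 2 * s₁ + b * k with hσ
  have hσe : (0 : ℝ) < e * σ := by
    have h3 := s1_add_s2 (star v * u)
    rw [hw'] at h3
    simp only at h3
    push_cast at h3
    have h4 := hwt
    rw [hw'] at h4
    have h5 : (e : ℝ) * σ = 2 * (e * s₁) + b * (e * k) := by
      rw [hσ]; push_cast; ring
    rw [h5, ← h3]
    exact add_pos h4.1 h4.2
  have heR : (1 : ℝ) ≤ e := by exact_mod_cast he0
  have heR0 : (0 : ℝ) < e := by linarith
  have heTR : (e : ℝ) ≤ T := by exact_mod_cast heT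
  have hkTR : (k : ℝ) ≤ T := by exact_mod_cast hkT
  have hTR : (1 : ℝ) ≤ T := heR.trans heTR
  have hσ0 : (0 : ℝ) < σ := (mul_pos_iff_of_pos_left heR0).1 hσe
  have hsqI : (e * σ) ^ 2 = 4 * ((nm v : ℤ) * nm u) + Δ * κ ^ 2 := by
    rw [hip, hσ, h1, h2, hΔ]; ring
  have hsq : ((e : ℝ) * σ) ^ 2 = 4 * ((nm v : ℝ) * nm u) + Δ * κ ^ 2 := by exact_mod_cast hsqI
  have hκT : (κ : ℝ) ≤ T := by exact_mod_cast hd2
  have hκ1 : (1 : ℝ) ≤ κ := by exact_mod_cast hd1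
  have hΔR : (0 : ℝ) < Δ := by exact_mod_cast hΔ0
  have hσup : (e : ℝ) * σ ≤ 3 * X := by
    apply le_of_sq_le_sq _ (by positivity) |>.trans le_rfl
    rw [hsq]
    have h3 : (nm v : ℝ) * nm u ≤ X * X := mul_le_mul hv2 hu2 (Nat.cast_nonneg _) hX0.le
    have h4 : (Δ : ℝ) * κ ^ 2 ≤ X * X := by
      have h5 : (Δ : ℝ) * κ ^ 2 ≤ (Δ * T) * (Δ * T) := by
        have h6 : (κ : ℝ) ^ 2 ≤ T ^ 2 := pow_le_pow_left₀ (by linarith) hκT 2
        have h7 : (1 : ℝ) ≤ Δ := by exact_mod_cast hΔ0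
        calc (Δ : ℝ) * κ ^ 2 ≤ Δ * T ^ 2 := mul_le_mul_of_nonneg_left h6 hΔR.le
          _ = 1 * (Δ * T ^ 2) := by ring
          _ ≤ Δ * (Δ * T ^ 2) := mul_le_mul_of_nonneg_right h7 (by positivity)
          _ = _ := by ring
      refine h5.trans (mul_le_mul hX1 hX1 (by positivity) hX0.le)
    nlinarith
  have hσup' : (σ : ℝ) ≤ 3 * X := (le_mul_of_one_le_left hσ0.le heR).trans hσup
  have hσlow : 2 * (c₁ * X) ≤ (e : ℝ) * σ := by
    apply le_of_sq_le_sq _ hσe.le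
    rw [hsq]
    have h3 : (c₁ * X) * (c₁ * X) ≤ (nm v : ℝ) * nm u :=
      mul_le_mul hv1 hu1 (by positivity) (Nat.cast_nonneg _)
    have h4 : 0 ≤ (Δ : ℝ) * κ ^ 2 := by positivity
    nlinarith
  have hσlow' : 2 * (c₁ * X) ≤ (T : ℝ) * σ :=
    hσlow.trans (mul_le_mul_of_nonneg_right heTR hσ0.le)
  have hbT : |(b : ℝ)| * T ≤ σ / 2 := by
    have h3 : (T : ℝ) * (|(b : ℝ)| * T) ≤ T * (σ / 2) := by
      have h4 : |(b : ℝ)| * T ^ 2 = T * (|(b : ℝ)| * T) := by ring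
      rw [h4] at hX3
      linarith
    exact le_of_mul_le_mul_left h3 (by linarith)
  have hbk : |(b : ℝ) * k| ≤ |(b : ℝ)| * T := by
    rw [abs_mul, abs_of_nonneg (Nat.cast_nonneg k : (0 : ℝ) ≤ k)]
    exact mul_le_mul_of_nonneg_left hkTR (abs_nonneg _)
  have hbk' := abs_le.1 hbk
  have hσR : (σ : ℝ) = 2 * s₁ + b * k := by rw [hσ]; push_cast; ring
  have hs1u : (s₁ : ℝ) ≤ 2 * X := by linarith [hbk'.1]
  have hs1l : 0 ≤ (s₁ : ℝ) := by linarith [hbk'.2]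
  -- the size of `B`
  have hβe : (c₁ * X) ≤ (β : ℝ) * T ^ 2 := by
    have h3 : nm v ≤ e ^ 2 * β := by
      rw [← hhβ]
      apply Nat.mul_le_mul_right
      rw [hgh]
      exact Nat.le_mul_of_pos_right _ hg0
    have h4 : (nm v : ℝ) ≤ (e : ℝ) ^ 2 * β := by exact_mod_cast h3
    have h5 : (e : ℝ) ^ 2 * β ≤ T ^ 2 * β := by gcongr
    linarith
  have hBX : 8 * X < (B : ℝ) := by
    have h3 : (P₀ : ℝ) < q := by exact_mod_cast hq0
    have hβR : (0 : ℝ) < β := by exact_mod_cast hβ0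
    have h4 : (c₁ * X) * (8 * (T : ℝ) ^ 2) < (β * T ^ 2) * (c₁ * q) := by
      have h5 : 8 * (T : ℝ) ^ 2 < c₁ * q :=
        lt_of_le_of_lt hP₀ (mul_lt_mul_of_pos_left h3 hc₁)
      calc (c₁ * X) * (8 * (T : ℝ) ^ 2) ≤ (β * T ^ 2) * (8 * (T : ℝ) ^ 2) :=
            mul_le_mul_of_nonneg_right hβe (by positivity)
        _ < (β * T ^ 2) * (c₁ * q) := mul_lt_mul_of_pos_left h5 (by positivity)
    have h5 : 8 * X * (c₁ * T ^ 2) < (B : ℝ) * (c₁ * T ^ 2) := by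
      rw [hB]; push_cast
      linarith
    exact lt_of_mul_lt_mul_right h5 (by positivity)
  have hBBR : (B : ℝ) * β₁ = N := by exact_mod_cast hBB
  have h4N : 4 * (N : ℝ) ≤ σ ^ 2 := by
    have h3 : 4 * N = σ ^ 2 - Δ * k ^ 2 := by rw [hN, hσ, hΔ]; ring
    have h4 : 4 * (N : ℝ) = σ ^ 2 - Δ * k ^ 2 := by exact_mod_cast h3
    have h5 : 0 ≤ (Δ : ℝ) * k ^ 2 := by positivity
    linarith
  have hβ₁R : (0 : ℝ) < β₁ := by exact_mod_cast hβ₁0
  have hB'σ : (β₁ : ℝ) < σ / 8 := by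
    have h3 : 4 * (8 * X * β₁) < 3 * X * σ := by
      calc 4 * (8 * X * β₁) < 4 * ((B : ℝ) * β₁) := by
            have := mul_lt_mul_of_pos_right hBX hβ₁R
            linarith
        _ = 4 * N := by rw [hBBR]
        _ ≤ σ ^ 2 := h4N
        _ = σ * σ := by ring
        _ ≤ 3 * X * σ := mul_le_mul_of_nonneg_right hσup' hσ0.le
    have h4 : X * (32 * β₁) < X * (3 * σ) := by linarith
    have h5 := lt_of_mul_lt_mul_left h4 hX0.le
    linarith
  have hakR : (1 : ℝ) ≤ (a : ℝ) * k := by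
    have h3 : (1 : ℝ) ≤ a := by exact_mod_cast ha
    have h4 : (1 : ℝ) ≤ k := by exact_mod_cast hk0
    nlinarith
  have hmR : (a : ℝ) * k * m = s₁ - B := by exact_mod_cast hm.symm
  have hm'R : (a : ℝ) * k * m' = β₁ - s₁ - b * k := by
    have : (a : ℤ) * k * m' = β₁ - s₁ - b * k := by rw [hm']; ring
    exact_mod_cast this
  have hm0 : (m : ℝ) < 0 := by
    by_contra hcon
    push Not at hcon
    have : 0 ≤ (a : ℝ) * k * m := by positivity
    linarith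
  have hm0' : (m' : ℝ) < 0 := by
    by_contra hcon
    push Not at hcon
    have : 0 ≤ (a : ℝ) * k * m' := by positivity
    linarith [hbk'.1]
  have hmm : (0 : ℝ) < m' - m := by
    by_contra hcon
    push Not at hcon
    have h3 : (a : ℝ) * k * (m' - m) ≤ 0 := mul_nonpos_of_nonneg_of_nonpos (by linarith) hcon
    have h4 : (a : ℝ) * k * (m' - m) = β₁ + B - σ := by
      rw [mul_sub, hmR, hm'R, hσR]; ring
    linarith
  have hmz : m < 0 := by exact_mod_cast hm0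
  have hmz' : m' < 0 := by exact_mod_cast hm0'
  have hmmz : 0 < m' - m := by
    have : ((0 : ℤ) : ℝ) < ((m' - m : ℤ) : ℝ) := by push_cast; exact hmm
    exact_mod_cast this
  have hBz : (0 : ℤ) < (B : ℤ) := by exact_mod_cast hB0
  have hBz' : (0 : ℤ) < (β₁ : ℤ) := by exact_mod_cast hβ₁0
  have hf10 : 0 < a * m ^ 2 + b * m + c₀ := by
    have h3 : 0 < (k : ℤ) * (a * m ^ 2 + b * m + c₀) := by
      rw [hf1]; exact mul_pos hmmz hBz
    exact (mul_pos_iff_of_pos_left hkz).1 h3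
  have hf20 : 0 < a * m' ^ 2 + b * m' + c₀ := by
    have h3 : 0 < (k : ℤ) * (a * m' ^ 2 + b * m' + c₀) := by
      rw [hf2]; exact mul_pos hmmz hBz'
    exact (mul_pos_iff_of_pos_left hkz).1 h3
  have hlz : lz (a * m ^ 2 + b * m + c₀) * lz (a * m' ^ 2 + b * m' + c₀) = -1 := by
    have l1 := congrArg lz hf1
    have l2 := congrArg lz hf2
    rw [lz_mul hkz.ne' hf10.ne', lz_mul hmmz.ne' hBz.ne'] at l1
    rw [lz_mul hkz.ne' hf20.ne', lz_mul hmmz.ne' hBz'.ne'] at l2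
    have l3 : lz (B : ℤ) * lz (β₁ : ℤ) = -1 := by
      rw [← lz_mul hBz.ne' hBz'.ne', hBB]
      have l4 := congrArg lz heN
      rw [lz_mul (by positivity) hN0.ne', lz_mul (by positivity) (by positivity)] at l4
      have l5 : lz ((e : ℤ) ^ 2) = 1 := by
        rw [pow_two, lz_mul hez.ne' hez.ne']
        rcases lz_eq e with h | h <;> rw [h] <;> norm_num
      rw [l5, one_mul] at l4
      rw [l4]
      have l6 : lz (nm v : ℤ) = gl v := by unfold lz gl; rw [Int.natAbs_natCast]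
      have l7 : lz (nm u : ℤ) = gl u := by unfold lz gl; rw [Int.natAbs_natCast]
      rw [l6, l7]
      rcases gl_eq v with h | h <;> rcases gl_eq u with h' | h' <;>
        rw [h, h'] at hgl ⊢ <;> simp at hgl ⊢
    have l8 : lz (k : ℤ) * lz k = 1 := by
      rcases lz_eq k with h | h <;> rw [h] <;> norm_num
    have l9 : lz (m' - m) * lz (m' - m) = 1 := by
      rcases lz_eq (m' - m) with h | h <;> rw [h] <;> norm_num
    calc lz (a * m ^ 2 + b * m + c₀) * lz (a * m' ^ 2 + b * m' + c₀)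
        = (lz (k : ℤ) * lz k) * (lz (a * m ^ 2 + b * m + c₀) *
            lz (a * m' ^ 2 + b * m' + c₀)) := by
          rw [l8, one_mul]
      _ = (lz (k : ℤ) * lz (a * m ^ 2 + b * m + c₀)) *
            (lz k * lz (a * m' ^ 2 + b * m' + c₀)) := by ring
      _ = (lz (m' - m) * lz (m' - m)) * (lz (B : ℤ) * lz (β₁ : ℤ)) := by rw [l1, l2]; ring
      _ = -1 := by rw [l9, l3]; norm_num
  have hBP : (B : ℝ) ≤ P * X := by
    have h3 : (β : ℝ) ≤ X := by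
      refine le_trans ?_ hv2
      rw [← hhβ]
      have h0 : 0 < h := by
        rcases Nat.eq_zero_or_pos h with h5 | h5
        · rw [h5] at hhβ; simp at hhβ; omega
        · exact h5
      exact_mod_cast Nat.le_mul_of_pos_left _ h0
    have h5 : (q : ℝ) ≤ P := by exact_mod_cast hqP
    rw [hB]; push_cast
    calc (β : ℝ) * q ≤ X * P := mul_le_mul h3 h5 (Nat.cast_nonneg _) hX0.le
      _ = P * X := by ring
  have hPR : (0 : ℝ) ≤ P := Nat.cast_nonneg _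
  have hPX : 0 ≤ (P : ℝ) * X := by positivity
  refine ⟨m, m', k, e, g, q, B, β₁, ?_⟩
  refine ⟨mem_Icc.2 ⟨hk0, hkT⟩, mem_Icc.2 ⟨he0, heT⟩, mem_Icc.2 ⟨hg0, hgT⟩,
    mem_Icc.2 ⟨hq.one_le, hqP⟩, ⟨m' - m, by rw [hf1]; ring⟩, ⟨m' - m, by rw [hf2]; ring⟩,
    ?_, ?_, ?_, ?_, hf10, hf20, hlz, hmz, hmz', ?_, ?_⟩
  · rw [hw']
    congr 1
    rw [← hm]; ring
  · rw [hw']
    congr 1
    rw [hm']; ring
  · rw [hB, ← hhβ, hgh]; ring
  · rw [hgβ, hβ₁]; ring
  · have h4 : |(m : ℝ)| ≤ |(a : ℝ) * k * m| := by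
      rw [abs_mul, abs_of_nonneg (by positivity : (0 : ℝ) ≤ (a : ℝ) * k)]
      exact le_mul_of_one_le_left (abs_nonneg _) hakR
    have h5 : |(a : ℝ) * k * m| ≤ (P + 2) * X := by
      rw [hmR, abs_le]
      constructor <;> linarith
    exact h4.trans h5
  · have h4 : |(m' : ℝ)| ≤ |(a : ℝ) * k * m'| := by
      rw [abs_mul, abs_of_nonneg (by positivity : (0 : ℝ) ≤ (a : ℝ) * k)]
      exact le_mul_of_one_le_left (abs_nonneg _) hakR
    have h5 : |(a : ℝ) * k * m'| ≤ (P + 2) * X := by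
      rw [hm'R, abs_le]
      constructor <;> linarith [hbk'.1, hbk'.2]
    exact h4.trans h5

end Pool.Agent.W80.GC
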