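import Pool.Agent.W80.GC.Mult
import Pool.Agent.W80.GC.A0

/-!
Project GC (helper80): many rich pairs.
-/

set_option autoImplicit false

namespace Pool.Agent.W80.GC

open Finset Filter
open Pool.Agent.H376R2.MR
open Pool.Agent.W78.GR

variable {t c : ℤ} {η : (Qd t c)ˣ} {Q : ℕ}

lemma nonrich_card (U : Un t c η) {T : ℕ} {X c₁ : ℝ} (hc : 0 < c₁) (hX : 0 < X)
    (V : Finset (Qd t c)) (S : Finset (Qd t c × Qd t c))
    (hS : ∀ e ∈ S, Pr η Q T (c₁ * X) X e) (hV : ∀ e ∈ S, e.1 ∈ V) :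
    S.card ≤ ((2 * ⌈s1 (η : Qd t c) ^ 2 / Real.sqrt c₁⌉₊ + 1) * (2 * T + 1)) * V.card := by
  classical
  refine card_le_mul_card_image_of_maps_to hV _ ?_
  intro z _
  have h := card_le_mul_card_image_of_maps_to (f := fun e : Qd t c × Qd t c => dt z e.2)
    (s := S.filter (fun e => e.1 = z)) (t := Icc (-(T : ℤ)) T)
    (fun e he => by
      rw [mem_filter] at he
      have h1 := (hS e he.1).dt1
      rw [he.2] at h1
      exact mem_Icc.2 (abs_le.1 h1)) (2 * ⌈s1 (η : Qd t c) ^ 2 / Real.sqrt c₁⌉₊ + 1) (by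
      intro k _
      have hinj : Set.InjOn (fun e : Qd t c × Qd t c => e.2)
          ((S.filter (fun e => e.1 = z)).filter (fun e => dt z e.2 = k)) := by
        intro e he e' he' hee
        simp only [coe_filter, mem_filter, Set.mem_ofPred_eq] at he he'
        exact Prod.ext (he.1.2.trans he'.1.2.symm) hee
      rw [← card_image_of_injOn hinj]
      rcases ((S.filter (fun e => e.1 = z)).filter (fun e => dt z e.2 = k)).eq_empty_or_nonempty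
        with hE | ⟨e₀, he₀⟩
      · rw [hE]; simp
      rw [mem_filter, mem_filter] at he₀
      have h0 := hS e₀ he₀.1.1
      have hz0 : e₀.1 = z := he₀.1.2
      have k1 := h0.fd1
      have k2 := h0.pr1
      have k3 := h0.n1
      rw [hz0] at k1 k2 k3
      apply line_card U hc hX k1 k2 k3 k
      intro y hy
      rw [mem_image] at hy
      obtain ⟨e, he, rfl⟩ := hy
      rw [mem_filter, mem_filter] at he
      have h1 := hS e he.1.1
      have e1 : e.1 = z := he.1.2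
      refine ⟨h1.tp2, h1.n2', ?_, he.2⟩
      rw [← e1]; exact h1.an)
  rw [Int.card_Icc] at h
  have e : ((T : ℤ) + 1 - -(T : ℤ)).toNat = 2 * T + 1 := by omega
  rw [e] at h
  exact h

/-- many rich pairs -/
theorem rich_pairs (U : Un t c η) (hQ1 : 1 ≤ Q) (hη : cl Q (η : Qd t c))
    (hQ : 4 * (t ^ 2 - 4 * c) ∣ (Q : ℤ)) : ∃ (T : ℕ) (c₁ ε : ℝ), 1 ≤ T ∧ 0 < c₁ ∧ 0 < ε ∧
    ∀ A₀ : ℕ, 0 < A₀ → 4 * (t ^ 2 - 4 * c) ∣ (A₀ : ℤ) → ∀ P₀ : ℕ, ∃ (P : ℕ) (X₀ : ℝ),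
    ∀ X : ℝ, X₀ ≤ X → ∃ S : Finset (Qd t c × Qd t c), ε * X ≤ (S.card : ℝ) ∧
      ∀ e ∈ S, Pr η Q T (c₁ * X) X e ∧ Rich A₀ P₀ P e.1 := by
  classical
  have h2Q : 2 ∣ Q := by
    have h1 : (4 : ℤ) ∣ Q := (Dvd.intro _ rfl).trans hQ
    have h2 : (2 : ℤ) ∣ Q := (by norm_num : (2 : ℤ) ∣ 4).trans h1
    exact_mod_cast h2
  have hdQ : (t ^ 2 - 4 * c) ∣ (Q : ℤ) := (Dvd.intro_left 4 rfl).trans hQ
  obtain ⟨T, c₁, ε, hc₁, hε, X₀, h⟩ := scp_of U hQ1 hη h2Q hdQ (a0c U hQ1)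
    (u0c U.disc U.nsq hQ1 hQ)
  refine ⟨T + 1, c₁, ε / 2, by omega, hc₁, by positivity, fun A₀ hA₀0 hA₀ P₀ => ?_⟩
  set L : ℕ := ⌈s1 (η : Qd t c) ^ 2 / Real.sqrt c₁⌉₊ with hL
  set δ : ℝ := ε / (2 * ((2 * L + 1) * (2 * T + 1))) with hδ
  have hδ0 : 0 < δ := by positivity
  obtain ⟨P, X₁, hP⟩ := rich_all U (lat_all U) hA₀ hA₀0 P₀ hδ0
  refine ⟨P, max 1 (max X₀ X₁), fun X hX => ?_⟩
  have hX1 : 1 ≤ X := (le_max_left _ _).trans hX
  have hX2 : X₀ ≤ X := ((le_max_left _ _).trans (le_max_right _ _)).trans hX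
  have hX3 : X₁ ≤ X := ((le_max_right _ _).trans (le_max_right _ _)).trans hX
  obtain ⟨S, hScard, hS⟩ := h X hX2
  have h2 := hP X hX3
  have h3 := nonrich_card U hc₁ (by linarith : 0 < X)
    ((ball η X).filter (fun z => ¬ Rich A₀ P₀ P z))
    (S.filter (fun e => ¬ Rich A₀ P₀ P e.1)) (fun e he => hS e (mem_filter.1 he).1) (by
      intro e he
      rw [mem_filter] at he ⊢
      have h4 := hS e he.1
      exact ⟨U.mem_ball.2 ⟨h4.fd1, h4.n1'⟩, he.2⟩)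
  have h4 := Finset.card_filter_add_card_filter_not (s := S) (fun e => Rich A₀ P₀ P e.1)
  have h4' : ((S.filter (fun e => Rich A₀ P₀ P e.1)).card : ℝ) +
      ((S.filter (fun e => ¬ Rich A₀ P₀ P e.1)).card : ℝ) = (S.card : ℝ) := by exact_mod_cast h4
  have h5 : ((S.filter (fun e => ¬ Rich A₀ P₀ P e.1)).card : ℝ) ≤
      ((2 * (L : ℝ) + 1) * (2 * T + 1)) *
        ((ball η X).filter (fun z => ¬ Rich A₀ P₀ P z)).card := by
    exact_mod_cast h3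
  have h6 : ((2 * (L : ℝ) + 1) * (2 * T + 1)) *
      ((ball η X).filter (fun z => ¬ Rich A₀ P₀ P z)).card ≤
      ((2 * (L : ℝ) + 1) * (2 * T + 1)) * (δ * X) :=
    mul_le_mul_of_nonneg_left h2 (by positivity)
  have h7 : ((2 * (L : ℝ) + 1) * (2 * T + 1)) * (δ * X) = ε / 2 * X := by
    rw [hδ]; field_simp
  refine ⟨S.filter (fun e => Rich A₀ P₀ P e.1), by linarith, fun e he => ?_⟩
  rw [mem_filter] at he
  have h8 := hS e he.1
  refine ⟨?_, he.2⟩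
  have h9 : |dt e.1 e.2| ≤ ((T + 1 : ℕ) : ℤ) := by
    have := h8.dt1
    push_cast
    linarith
  exact ⟨h8.fd1, h8.pr1, h8.cl1, h8.tp2, h8.cl2, h8.sp1, h8.sp2, h8.n1, h8.n1', h8.n2, h8.n2',
    h8.dt0, h9, h8.ne, h8.an⟩

end Pool.Agent.W80.GC
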