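import Pool.Agent.W352.GR.Ele
import Pool.Agent.W80.GC.Defs

/-!
Project GC (helper80): a system of elements which are `1` modulo `Q`. Port of W352/GR/Ele.
-/

set_option autoImplicit false

namespace Pool.Agent.W80.GC

open Finset
open Pool.Agent.W78.GR
open Pool.Agent.W573.GA (thue lat_star root_conj lat_of_mul rho_unique rho_exists block rich_of)
open Pool.Agent.H970R2.X (P1 rich_ap)
open Pool.Agent.W352.GR (root_exists nn nm_nn zp_exists nn_mul nn_star nn_neg mul_star_nn lat_neg)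

variable {t c : ℤ}

lemma s1_ne (hd : 4 * c < t ^ 2) (hns : ¬ IsSquare (t ^ 2 - 4 * c)) {z : Qd t c} (hz : z ≠ 0) :
    s1 z ≠ 0 := by
  intro h
  have h1 := abs_s1_mul_s2 hd z
  rw [h, zero_mul, abs_zero] at h1
  have h2 : nm z = 0 := by exact_mod_cast h1.symm
  exact hz ((nm_eq_zero hns).1 h2)

/-- the element, with positive first embedding -/
lemma zp_exists' (hd : 4 * c < t ^ 2) (hns : ¬ IsSquare (t ^ 2 - 4 * c)) {p : ℕ} (hp : p.Prime)
    {r : ℤ} (hr : (p : ℤ) ∣ r ^ 2 - t * r + c) : ∃ (z : Qd t c) (a : ℕ) (s : Bool), lat p r z ∧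
      nn z = (if s then 1 else -1) * (p * a) ∧ 1 ≤ a ∧ a ≤ 1 + t.natAbs + c.natAbs ∧
      0 < s1 z := by
  obtain ⟨z, a, s, h1, h2, h3, h4⟩ := zp_exists hns hp hr
  have hz0 : z ≠ 0 := by
    rintro rfl
    have e : nn (0 : Qd t c) = 0 := by
      unfold nn
      simp
    rw [e] at h2
    have h5 : ((p : ℤ) * a) ≠ 0 := by
      have : (p : ℤ) ≠ 0 := by exact_mod_cast hp.ne_zero
      have : (a : ℤ) ≠ 0 := by
        intro h0
        have : a = 0 := by exact_mod_cast h0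
        omega
      positivity
    split_ifs at h2
    · rw [one_mul] at h2; exact h5 h2.symm
    · exact h5 (by linarith)
  rcases lt_or_gt_of_ne (s1_ne hd hns hz0) with h | h
  · refine ⟨-z, a, s, lat_neg h1, by rw [nn_neg]; exact h2, h3, h4, ?_⟩
    rw [s1_neg]
    linarith
  · exact ⟨z, a, s, h1, h2, h3, h4, h⟩

/-- the product element -/
lemma prod_elem (hd : 4 * c < t ^ 2) {Q p q a : ℕ} (hp : 1 ≤ p) (hq : 1 ≤ q) (ha : 1 ≤ a)
    (hqQ : (Q : ℤ) ∣ (q : ℤ) - 1)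
    (hpa : Nat.Coprime p a)
    (hqa : Nat.Coprime q a) {r s : ℤ} (hr : (p : ℤ) ∣ r ^ 2 - t * r + c)
    (hs : (q : ℤ) ∣ s ^ 2 - t * s + c) {z u : Qd t c} (hz : lat p r z) (hu : lat q s u)
    {b : Bool} (hnz : nn z = (if b then 1 else -1) * (p * a))
    (hnu : nn u = (if b then 1 else -1) * (q * a)) (h1 : ((a * Q : ℕ) : ℤ) ∣ z.re - u.re)
    (h2 : ((a * Q : ℕ) : ℤ) ∣ z.im - u.im) (hz1 : 0 < s1 z) (hu1 : 0 < s1 u) :
    ∃ v : Qd t c, nm v = p * q ∧ lat p r v ∧ lat q (t - s) v ∧ tp v ∧ cl Q v := by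
  have hda : ((a * Q : ℕ) : Qd t c) ∣ z - u := natCast_dvd.2 ⟨by simpa using h1, by simpa using h2⟩
  obtain ⟨w', hw'⟩ := hda
  set w : Qd t c := (Q : Qd t c) * w' with hwdef
  have hw : z - u = (a : Qd t c) * w := by
    rw [hw', hwdef]; push_cast; ring
  set σ : ℤ := if b then 1 else -1 with hσ
  have hσ2 : σ * σ = 1 := by
    rw [hσ]; split_ifs <;> norm_num
  have key : z * star u = (a : Qd t c) * (w * star u + ((σ * q : ℤ) : Qd t c)) := by
    have e1 : u * star u = ((σ * (q * a) : ℤ) : Qd t c) := by rw [mul_star_nn, hnu]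
    have e2 : z = (a : Qd t c) * w + u := by rw [← hw]; ring
    rw [e2]
    have e3 : ((a : Qd t c) * w + u) * star u = (a : Qd t c) * (w * star u) + u * star u := by ring
    rw [e3, e1]
    push_cast
    ring
  set v' : Qd t c := w * star u + ((σ * q : ℤ) : Qd t c) with hv
  have hnv : nn v' = p * q := by
    have e1 : nn (z * star u) = nn ((a : Qd t c) * v') := by rw [key]
    have e0 : nn (a : Qd t c) = (a : ℤ) ^ 2 := by
      unfold nn
      rw [QuadraticAlgebra.re_natCast, QuadraticAlgebra.im_natCast]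
      ring
    rw [nn_mul, nn_mul, nn_star, e0, hnz, hnu] at e1
    have ha0 : (a : ℤ) ^ 2 ≠ 0 := by
      have : (0 : ℤ) < a := by exact_mod_cast ha
      positivity
    have e2 : (a : ℤ) ^ 2 * nn v' = (a : ℤ) ^ 2 * (p * q) := by
      rw [← e1]
      linear_combination (p * a * (q * a) : ℤ) * hσ2
    exact mul_left_cancel₀ ha0 e2
  have l1 : lat p r v' := by
    apply lat_of_mul hpa
    rw [← key]
    exact lat_mul_left hr _ hz
  have l2 : lat q (t - s) v' := by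
    apply lat_of_mul hqa
    rw [← key, mul_comm]
    exact lat_mul_left (root_conj hs) _ (lat_star hu)
  -- the sign
  have hq0 : (0 : ℝ) < q := by exact_mod_cast hq
  have hp0 : (0 : ℝ) < p := by exact_mod_cast hp
  have ha0 : (0 : ℝ) < a := by exact_mod_cast ha
  have su : s1 u * s2 u = (σ : ℝ) * (q * a) := by
    rw [s1_mul_s2 hd]
    have := hnu
    unfold nn at this
    exact_mod_cast this
  have sz : s1 z * s2 z = (σ : ℝ) * (p * a) := by
    rw [s1_mul_s2 hd]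
    have := hnz
    unfold nn at this
    exact_mod_cast this
  have hσR : (σ : ℝ) * σ = 1 := by exact_mod_cast hσ2
  have hs2u : 0 < (σ : ℝ) * s2 u := by
    have h3 : s1 u * ((σ : ℝ) * s2 u) = q * a := by
      calc s1 u * ((σ : ℝ) * s2 u) = σ * (s1 u * s2 u) := by ring
        _ = (σ * σ) * (q * a) := by rw [su]; ring
        _ = _ := by rw [hσR, one_mul]
    by_contra hcon
    push Not at hcon
    have := mul_nonpos_of_nonneg_of_nonpos hu1.le hcon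
    have h4 : (0 : ℝ) < q * a := by positivity
    linarith
  have hs2z : 0 < (σ : ℝ) * s2 z := by
    have h3 : s1 z * ((σ : ℝ) * s2 z) = p * a := by
      calc s1 z * ((σ : ℝ) * s2 z) = σ * (s1 z * s2 z) := by ring
        _ = (σ * σ) * (p * a) := by rw [sz]; ring
        _ = _ := by rw [hσR, one_mul]
    by_contra hcon
    push Not at hcon
    have := mul_nonpos_of_nonneg_of_nonpos hz1.le hcon
    have h4 : (0 : ℝ) < p * a := by positivity
    linarith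
  have k1 : (a : ℝ) * s1 v' = s1 z * s2 u := by
    have := congrArg s1 key
    rw [s1_mul hd, s1_mul hd, s1_star, s1_natCast] at this
    exact this.symm
  have k2 : (a : ℝ) * s2 v' = s2 z * s1 u := by
    have := congrArg s2 key
    rw [s2_mul hd, s2_mul hd, s2_star, s2_natCast] at this
    exact this.symm
  have t1 : 0 < (σ : ℝ) * s1 v' := by
    have h3 : (a : ℝ) * ((σ : ℝ) * s1 v') = s1 z * ((σ : ℝ) * s2 u) := by
      calc (a : ℝ) * ((σ : ℝ) * s1 v') = σ * (a * s1 v') := by ring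
        _ = _ := by rw [k1]; ring
    have h4 : 0 < (a : ℝ) * ((σ : ℝ) * s1 v') := by rw [h3]; positivity
    exact (mul_pos_iff_of_pos_left ha0).1 h4
  have t2 : 0 < (σ : ℝ) * s2 v' := by
    have h3 : (a : ℝ) * ((σ : ℝ) * s2 v') = s1 u * ((σ : ℝ) * s2 z) := by
      calc (a : ℝ) * ((σ : ℝ) * s2 v') = σ * (a * s2 v') := by ring
        _ = _ := by rw [k2]; ring
    have h4 : 0 < (a : ℝ) * ((σ : ℝ) * s2 v') := by rw [h3]; positivity
    exact (mul_pos_iff_of_pos_left ha0).1 h4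
  have hcl : (Q : Qd t c) ∣ (σ : Qd t c) * v' - 1 := by
    obtain ⟨y, hy⟩ := hqQ
    refine ⟨(σ : Qd t c) * (w' * star u) + (y : Qd t c), ?_⟩
    have hσq : (σ : Qd t c) * σ = 1 := by
      have : ((σ * σ : ℤ) : Qd t c) = 1 := by rw [hσ2, Int.cast_one]
      rwa [Int.cast_mul] at this
    have hqy : ((q : ℕ) : Qd t c) = 1 + (Q : Qd t c) * (y : Qd t c) := by
      have : ((q : ℤ) : Qd t c) = ((1 + Q * y : ℤ) : Qd t c) := by
        congr 1
        linarith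
      rw [Int.cast_natCast] at this
      rw [this]; push_cast; ring
    rw [hv, hwdef]
    push_cast
    rw [hqy]
    linear_combination (1 + (Q : Qd t c) * (y : Qd t c)) * hσq
  have hnm : nm v' = p * q := by
    rw [nm_nn, hnv]
    exact_mod_cast Int.natAbs_natCast (p * q)
  rcases (by rw [hσ]; split_ifs <;> tauto : σ = 1 ∨ σ = -1) with h | h
  · rw [h] at t1 t2 hcl
    refine ⟨v', hnm, l1, l2, ⟨by simpa using t1, by simpa using t2⟩, ?_⟩
    unfold cl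
    simpa using hcl
  · rw [h] at t1 t2 hcl
    refine ⟨-v', by rw [nm_neg, hnm], lat_neg l1, lat_neg l2, ⟨?_, ?_⟩, ?_⟩
    · rw [s1_neg]; simpa using t1
    · rw [s2_neg]; simpa using t2
    · unfold cl
      simpa using hcl

theorem ele (hd : 4 * c < t ^ 2) (hns : ¬ IsSquare (t ^ 2 - 4 * c)) {Q : ℕ} (hQ : 1 ≤ Q) :
    ∃ (Ap Bp M : ℕ → Prop) (E : ℕ) (ρ : ℕ → ℤ) (ϖ : ℕ → Qd t c), Ele t c Ap Bp M E ρ ϖ ∧
      (∀ m, M m → cl Q (ϖ m)) ∧ (∀ p, Ap p ∨ Bp p → (Q : ℤ) ∣ (p : ℤ) - 1) := by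
  classical
  set Dn := (t ^ 2 - 4 * c).natAbs with hDn
  set B₀ := 1 + t.natAbs + c.natAbs with hB₀
  have hDn1 : 1 ≤ Dn := by
    rw [hDn]
    have : t ^ 2 - 4 * c ≠ 0 := by omega
    exact Int.natAbs_pos.2 this
  have hDQ : 1 < 4 * Dn * Q := by nlinarith
  obtain ⟨cc, hcc, -, hR⟩ := rich_ap (4 * Dn * Q) (by omega)
  obtain ⟨v₀, hv₀⟩ := hR 1 le_rfl
  have hP0 : ∀ p : ℕ, P1 (4 * Dn * Q) p → p % (4 * Dn * Q) = 1 := by
    intro p hp
    unfold P1 at hp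
    rw [hp]
    exact Nat.mod_eq_of_lt hDQ
  have hP1 : ∀ p : ℕ, P1 (4 * Dn * Q) p → p % (4 * Dn) = 1 := by
    intro p hp
    have h1 : p % (4 * Dn * Q) % (4 * Dn) = p % (4 * Dn) := Nat.mod_mod_of_dvd _ (dvd_mul_right _ _)
    rw [← h1, hP0 p hp]
    exact Nat.mod_eq_of_lt (by omega)
  have hPQ : ∀ p : ℕ, P1 (4 * Dn * Q) p → (Q : ℤ) ∣ (p : ℤ) - 1 := by
    intro p hp
    have h1 : ((4 * Dn * Q : ℕ) : ℤ) ∣ (p : ℤ) - 1 := by
      have h2 : 1 ≡ p [MOD (4 * Dn * Q)] := by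
        unfold Nat.ModEq
        rw [hP0 p hp, Nat.mod_eq_of_lt hDQ]
      exact_mod_cast (Nat.modEq_iff_dvd.1 h2)
    exact (Int.natCast_dvd_natCast.2 (dvd_mul_left Q (4 * Dn))).trans h1
  have hdata : ∀ p : ℕ, ∃ (r : ℤ) (z : Qd t c) (a : ℕ) (b : Bool), p.Prime → P1 (4 * Dn * Q) p →
      ((p : ℤ) ∣ r ^ 2 - t * r + c ∧ lat p r z ∧ nn z = (if b then 1 else -1) * (p * a) ∧
        1 ≤ a ∧ a ≤ B₀ ∧ 0 < s1 z) := by
    intro p
    by_cases hp : p.Prime ∧ P1 (4 * Dn * Q) p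
    · obtain ⟨r, hr⟩ := root_exists hp.1 (hP1 p hp.2)
      obtain ⟨z, a, b, h1, h2, h3, h4, h5⟩ := zp_exists' hd hns hp.1 hr
      exact ⟨r, z, a, b, fun _ _ => ⟨hr, h1, h2, h3, h4, h5⟩⟩
    · exact ⟨0, 0, 0, true, fun h1 h2 => absurd ⟨h1, h2⟩ hp⟩
  choose r z a sb hrza using hdata
  obtain ⟨w, hw, j₀, hblock⟩ := block (P1 (4 * Dn * Q)) cc hcc v₀ hv₀ (max B₀ (4 * Dn))
    (fun p => (sb p, a p, ((z p).re % ((a p * Q : ℕ) : ℤ)).toNat,
      ((z p).im % ((a p * Q : ℕ) : ℤ)).toNat))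
    ((univ : Finset Bool) ×ˢ range (B₀ + 1) ×ˢ range (B₀ * Q + 1) ×ˢ range (B₀ * Q + 1)) (by
      intro p hp hp1 _
      obtain ⟨-, -, -, h1, h2, -⟩ := hrza p hp hp1
      have haQ : 0 < a p * Q := Nat.mul_pos h1 hQ
      have haQ' : a p * Q ≤ B₀ * Q := Nat.mul_le_mul_right Q h2
      have ha0 : (0 : ℤ) < ((a p * Q : ℕ) : ℤ) := by exact_mod_cast haQ
      have hh : ∀ x : ℤ, (x % ((a p * Q : ℕ) : ℤ)).toNat < B₀ * Q + 1 := by
        intro x
        have h3 := Int.emod_lt_of_pos x ha0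
        have h4 := Int.emod_nonneg x ha0.ne'
        omega
      rw [mem_product, mem_product, mem_product, mem_range, mem_range, mem_range]
      exact ⟨mem_univ _, Nat.lt_succ_of_le h2, hh _, hh _⟩)
  choose! A B hAB hdisj htype hAw hBw using hblock
  -- facts on the primes in the blocks
  have hfacts : ∀ j, j₀ ≤ j → ∀ p : ℕ, p ∈ A j ∨ p ∈ B j → p.Prime ∧ 5 ≤ p ∧
      ¬ (p : ℤ) ∣ t ^ 2 - 4 * c ∧ Nat.Coprime p (a p) ∧ 1 ≤ a p ∧
      (p : ℤ) ∣ r p ^ 2 - t * r p + c ∧ lat p (r p) (z p) ∧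
      nn (z p) = (if sb p then 1 else -1) * (p * a p) ∧ 0 < s1 (z p) ∧
      (Q : ℤ) ∣ (p : ℤ) - 1 := by
    intro j hj p hp
    obtain ⟨h1, h2, h3, -, -⟩ := hAB j hj p hp
    obtain ⟨g1, g2, g3, g4, g5, g6⟩ := hrza p h1 h2
    have h4 : 4 * Dn < p := lt_of_le_of_lt (le_max_right _ _) h3
    have h5 : B₀ < p := lt_of_le_of_lt (le_max_left _ _) h3
    refine ⟨h1, by omega, ?_, ?_, g4, g1, g2, g3, g6, hPQ p h2⟩
    · intro h
      have h6 : p ∣ Dn := by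
        rw [hDn]
        exact Int.natCast_dvd.1 h
      have := Nat.le_of_dvd (by omega) h6
      omega
    · rw [Nat.Prime.coprime_iff_not_dvd h1]
      intro h
      have := Nat.le_of_dvd (by omega) h
      omega
  have hjeq : ∀ j k : ℕ, j₀ ≤ j → j₀ ≤ k → ∀ p : ℕ, (p ∈ A j ∨ p ∈ B j) → (p ∈ A k ∨ p ∈ B k) →
      j = k := by
    intro j k hj hk p hp hp'
    obtain ⟨-, -, -, h1, h2⟩ := hAB j hj p hp
    obtain ⟨-, -, -, h3, h4⟩ := hAB k hk p hp'
    have h5 : (2 : ℝ) ^ j < 2 ^ (k + 1) := by linarith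
    have h6 : (2 : ℝ) ^ k < 2 ^ (j + 1) := by linarith
    have h7 : j < k + 1 := (pow_lt_pow_iff_right₀ (by norm_num : (1:ℝ) < 2)).1 h5
    have h8 : k < j + 1 := (pow_lt_pow_iff_right₀ (by norm_num : (1:ℝ) < 2)).1 h6
    omega
  set Ap : ℕ → Prop := fun p => ∃ j, j₀ ≤ j ∧ p ∈ A j with hAp
  set Bp : ℕ → Prop := fun p => ∃ j, j₀ ≤ j ∧ p ∈ B j with hBp
  set M : ℕ → Prop := fun m => ∃ j, j₀ ≤ j ∧ ∃ p ∈ A j, ∃ q ∈ B j, m = p * q with hM
  have hdisjAB : ∀ p, Ap p → ¬ Bp p := by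
    rintro p ⟨j, hj, hp⟩ ⟨k, hk, hp'⟩
    have := hjeq j k hj hk p (Or.inl hp) (Or.inr hp')
    subst this
    exact Finset.disjoint_left.1 (hdisj j hj) hp hp'
  set ρ₀ : ℕ → ℤ := fun p => if Ap p then r p else t - r p with hρ₀
  have hQr : ∀ p : ℕ, (Ap p ∨ Bp p) → p.Prime ∧ (p : ℤ) ∣ ρ₀ p ^ 2 - t * ρ₀ p + c ∧
      ¬ (p : ℤ) ∣ t ^ 2 - 4 * c := by
    intro p hp
    have key : ∃ j, j₀ ≤ j ∧ (p ∈ A j ∨ p ∈ B j) := by
      rcases hp with ⟨j, hj, h⟩ | ⟨j, hj, h⟩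
      · exact ⟨j, hj, Or.inl h⟩
      · exact ⟨j, hj, Or.inr h⟩
    obtain ⟨j, hj, h⟩ := key
    obtain ⟨h1, -, h3, -, -, h6, -, -, -, -⟩ := hfacts j hj p h
    refine ⟨h1, ?_, h3⟩
    simp only [hρ₀]
    split_ifs
    · exact h6
    · exact root_conj h6
  have hex := rho_exists ρ₀ (fun p => Ap p ∨ Bp p) hQr
  set ρ : ℕ → ℤ := fun d => if h : Sm Ap Bp d then (hex d h.1 h.2).choose else 0 with hρ
  have hρ1 : ∀ d, Sm Ap Bp d → (d : ℤ) ∣ ρ d ^ 2 - t * ρ d + c ∧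
      ∀ p : ℕ, p.Prime → p ∣ d → (p : ℤ) ∣ ρ d - ρ₀ p := by
    intro d h
    have e : ρ d = (hex d h.1 h.2).choose := by simp only [hρ]; rw [dif_pos h]
    rw [e]
    exact (hex d h.1 h.2).choose_spec
  have hvex : ∀ m, ∃ v : Qd t c, M m → (nm v = m ∧ lat m (ρ m) v ∧ tp v) ∧ cl Q v := by
    intro m
    by_cases hm : M m
    swap
    · exact ⟨0, fun h => absurd h hm⟩
    obtain ⟨j, hj, p, hp, q, hq, rfl⟩ := hm
    obtain ⟨p1, p2, p3, p4, p5, p6, p7, p8, p9, p10⟩ := hfacts j hj p (Or.inl hp)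
    obtain ⟨q1, q2, q3, q4, q5, q6, q7, q8, q9, q10⟩ := hfacts j hj q (Or.inr hq)
    have hty := htype j hj p hp q hq
    simp only [Prod.mk.injEq] at hty
    obtain ⟨t0, t1, t2, t3⟩ := hty
    have ha0 : (0 : ℤ) < ((a p * Q : ℕ) : ℤ) := by exact_mod_cast Nat.mul_pos p5 hQ
    rw [← t1] at t2 t3 q4 q8
    rw [← t0] at q8
    have d1 : ((a p * Q : ℕ) : ℤ) ∣ (z p).re - (z q).re := by
      have h1 := Int.emod_nonneg (z p).re ha0.ne'
      have h2 := Int.emod_nonneg (z q).re ha0.ne'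
      have h3 : (z p).re % ((a p * Q : ℕ) : ℤ) = (z q).re % ((a p * Q : ℕ) : ℤ) := by omega
      exact Int.ModEq.dvd (show (z q).re ≡ (z p).re [ZMOD ((a p * Q : ℕ) : ℤ)] from h3.symm)
    have d2 : ((a p * Q : ℕ) : ℤ) ∣ (z p).im - (z q).im := by
      have h1 := Int.emod_nonneg (z p).im ha0.ne'
      have h2 := Int.emod_nonneg (z q).im ha0.ne'
      have h3 : (z p).im % ((a p * Q : ℕ) : ℤ) = (z q).im % ((a p * Q : ℕ) : ℤ) := by omega
      exact Int.ModEq.dvd (show (z q).im ≡ (z p).im [ZMOD ((a p * Q : ℕ) : ℤ)] from h3.symm)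
    obtain ⟨v, hv1, hv2, hv3, hv4, hv5⟩ := prod_elem hd p1.one_lt.le q1.one_lt.le p5 q10 p4 q4 p6 q6
      p7 q7 p8 q8 d1 d2 p9 q9
    refine ⟨v, fun _ => ⟨⟨hv1, ?_, hv4⟩, hv5⟩⟩
    have hAq : Ap p := ⟨j, hj, hp⟩
    have hBq : Bp q := ⟨j, hj, hq⟩
    have hSm : Sm Ap Bp (p * q) := by
      refine ⟨Nat.mul_ne_zero p1.ne_zero q1.ne_zero, ?_⟩
      intro l hl hld
      rcases (Nat.Prime.dvd_mul hl).1 hld with h | h
      · rw [(Nat.prime_dvd_prime_iff_eq hl p1).1 h]; exact Or.inl hAq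
      · rw [(Nat.prime_dvd_prime_iff_eq hl q1).1 h]; exact Or.inr hBq
    obtain ⟨-, hr2⟩ := hρ1 _ hSm
    have e1 := hr2 p p1 (dvd_mul_right p q)
    have e2 := hr2 q q1 (dvd_mul_left q p)
    have e3 : ρ₀ p = r p := by simp only [hρ₀]; rw [if_pos hAq]
    have e4 : ρ₀ q = t - r q := by
      simp only [hρ₀]; rw [if_neg (fun h => hdisjAB q h hBq)]
    rw [e3] at e1
    rw [e4] at e2
    have f1 : (p : ℤ) ∣ v.re + ρ (p * q) * v.im := by
      have : v.re + ρ (p * q) * v.im = (v.re + r p * v.im) + (ρ (p * q) - r p) * v.im := by ring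
      rw [this]
      exact dvd_add hv2 (e1.mul_right _)
    have f2 : (q : ℤ) ∣ v.re + ρ (p * q) * v.im := by
      have : v.re + ρ (p * q) * v.im = (v.re + (t - r q) * v.im) +
        (ρ (p * q) - (t - r q)) * v.im := by ring
      rw [this]
      exact dvd_add hv3 (e2.mul_right _)
    have hne : p ≠ q := by
      rintro rfl
      exact hdisjAB p hAq hBq
    have hcop : IsCoprime (p : ℤ) (q : ℤ) := by
      rw [Nat.isCoprime_iff_coprime]
      exact (Nat.coprime_primes p1 q1).2 hne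
    show ((p * q : ℕ) : ℤ) ∣ v.re + ρ (p * q) * v.im
    push_cast
    exact hcop.mul_dvd f1 f2
  choose ϖ hϖ using hvex
  refine ⟨Ap, Bp, M, 2, ρ, ϖ, ?_, fun m hm => (hϖ m hm).2, ?_⟩
  swap
  · rintro p (⟨j, hj, hp⟩ | ⟨j, hj, hp⟩)
    · exact (hfacts j hj p (Or.inl hp)).2.2.2.2.2.2.2.2.2
    · exact (hfacts j hj p (Or.inr hp)).2.2.2.2.2.2.2.2.2
  refine
    { pos := by norm_num
      prA := ?_
      prB := ?_
      disj := hdisjAB
      fac := ?_
      root := fun d hd => (hρ1 d hd).1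
      compat := ?_
      elt := fun m hm => (hϖ m hm).1
      rich := ?_ }
  · rintro p ⟨j, hj, hp⟩
    obtain ⟨h1, h2, h3, -⟩ := hfacts j hj p (Or.inl hp)
    exact ⟨h1, h2, h3⟩
  · rintro p ⟨j, hj, hp⟩
    obtain ⟨h1, h2, h3, -⟩ := hfacts j hj p (Or.inr hp)
    exact ⟨h1, h2, h3⟩
  · rintro m ⟨j, hj, p, hp, q, hq, rfl⟩
    refine ⟨p, q, ⟨j, hj, hp⟩, ⟨j, hj, hq⟩, rfl, ?_, ?_⟩
    · obtain ⟨h1, -, -, h4, h5⟩ := hAB j hj p (Or.inl hp)
      obtain ⟨g1, -, -, g4, g5⟩ := hAB j hj q (Or.inr hq)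
      have hp0 : (0 : ℝ) < p := by exact_mod_cast h1.pos
      have hq0 : (0 : ℝ) < q := by exact_mod_cast g1.pos
      have : Real.log p ≤ Real.log ((q : ℝ) ^ 2) := by
        rw [Real.log_pow]
        push_cast
        rw [pow_succ] at h5
        linarith
      have := (Real.log_le_log_iff hp0 (by positivity)).1 this
      exact_mod_cast this
    · obtain ⟨h1, -, -, h4, h5⟩ := hAB j hj p (Or.inl hp)
      obtain ⟨g1, -, -, g4, g5⟩ := hAB j hj q (Or.inr hq)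
      have hp0 : (0 : ℝ) < p := by exact_mod_cast h1.pos
      have hq0 : (0 : ℝ) < q := by exact_mod_cast g1.pos
      have : Real.log q ≤ Real.log ((p : ℝ) ^ 2) := by
        rw [Real.log_pow]
        push_cast
        rw [pow_succ] at g5
        linarith
      have := (Real.log_le_log_iff hq0 (by positivity)).1 this
      exact_mod_cast this
  · intro d e he hde
    have hd : Sm Ap Bp d := by
      refine ⟨fun h => he.1 (by rw [h] at hde; exact Nat.eq_zero_of_zero_dvd hde), ?_⟩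
      intro p hp hpd
      exact he.2 p hp (hpd.trans hde)
    obtain ⟨h1, h2⟩ := hρ1 d hd
    obtain ⟨h3, h4⟩ := hρ1 e he
    refine rho_unique ρ₀ (fun p hp hpd => (hQr p (hd.2 p hp hpd)).2) ?_ h1 ?_ h2
    · exact (Int.natCast_dvd_natCast.2 hde).trans h3
    · intro p hp hpd
      exact h4 p hp (hpd.trans hde)
  · refine rich_of M A B j₀ w hw ?_ hdisj hAw hBw ?_
    · intro j hj p hp
      obtain ⟨h1, -, -, h4, h5⟩ := hAB j hj p hp
      exact ⟨h1, h4, h5⟩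
    · intro j hj p hp q hq
      exact ⟨j, hj, p, hp, q, hq, rfl⟩

end Pool.Agent.W80.GC
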