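import Pool.Agent.W80.GC.Alg

/-!
Project GC (helper80): many values of both signs.
-/

set_option autoImplicit false

namespace Pool.Agent.W80.GC

open Finset Filter
open Pool.Agent.H376R2.MR
open Pool.Agent.W78.GR
open Pool.Agent.W80.GB (lz lz_mul lz_eq)

/-- orientation of a pair -/
def ori {t c : ℤ} (o : Bool) (p : Qd t c × Qd t c) : Qd t c × Qd t c :=
  match o with
  | true => (p.2, p.1)
  | false => (star p.2, star p.1)

lemma nm_ori1 {t c : ℤ} (o : Bool) (p : Qd t c × Qd t c) : nm (ori o p).1 = nm p.2 := by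
  cases o
  · exact nm_star _
  · rfl

lemma nm_ori2 {t c : ℤ} (o : Bool) (p : Qd t c × Qd t c) : nm (ori o p).2 = nm p.1 := by
  cases o
  · exact nm_star _
  · rfl

lemma ori_star {t c : ℤ} {o : Bool} {p p' : Qd t c × Qd t c}
    (h : star (ori o p).1 * (ori o p).2 = star (ori o p').1 * (ori o p').2) :
    star p.1 * p.2 = star p'.1 * p'.2 := by
  cases o
  · simp only [ori, star_star] at h
    rw [mul_comm (star p.1), mul_comm (star p'.1)]
    exact h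
  · simp only [ori] at h
    have h1 := congrArg star h
    rw [star_mul, star_mul, star_star, star_star] at h1
    exact h1

/-- the value at `-n` -/
def Fn (a : ℕ) (b c₀ : ℤ) (n : ℕ) : ℤ := a * (n : ℤ) ^ 2 - b * n + c₀

/-- the property of a pair -/
def FF (a : ℕ) (b c₀ : ℤ) (p : Qd b (a * c₀) × Qd b (a * c₀)) (n : ℕ)
    (δ : ((ℕ × ℕ) × (ℕ × ℕ)) × (ℕ × (Bool × Bool))) : Prop :=
  (δ.2.2.1 = true ∧ star (ori δ.2.2.2 p).1 * (ori δ.2.2.2 p).2 =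
      ⟨δ.1.1.2 * (δ.2.1 - a * δ.1.1.1 * n), δ.1.1.2 * δ.1.1.1⟩ ∧
    nm p.2 * δ.1.2.1 * δ.1.2.2 = δ.1.1.2 ^ 2 * δ.2.1) ∨
  (δ.2.2.1 = false ∧ star (ori δ.2.2.2 p).1 * (ori δ.2.2.2 p).2 =
    ⟨δ.1.1.2 * (δ.2.1 - b * δ.1.1.1 + a * δ.1.1.1 * n), δ.1.1.2 * δ.1.1.1⟩ ∧
    nm p.1 = δ.1.2.1 * δ.1.2.2 * δ.2.1)

/-- the range of the data -/
def DD (a : ℕ) (b c₀ : ℤ) (T P : ℕ) (n : ℕ) :
    Finset (((ℕ × ℕ) × (ℕ × ℕ)) × (ℕ × (Bool × Bool))) :=
  ((Icc 1 T ×ˢ Icc 1 T) ×ˢ (Icc 1 (T ^ 2) ×ˢ Icc 1 P)) ×ˢ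
    ((T.factorial * Fn a b c₀ n).natAbs.divisors ×ˢ Finset.univ)

lemma card_DD (a : ℕ) (b c₀ : ℤ) (T P : ℕ) (n : ℕ) : (DD a b c₀ T P n).card =
    4 * T ^ 4 * P * (T.factorial * Fn a b c₀ n).natAbs.divisors.card := by
  unfold DD
  rw [card_product, card_product, card_product, card_product, card_product]
  simp only [Nat.card_Icc, Nat.add_sub_cancel, Finset.card_univ, Fintype.card_prod,
    Fintype.card_bool]
  ring

/-- the data of a pair -/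
theorem pair_ex {a : ℕ} (ha : 1 ≤ a) {b c₀ : ℤ} {η : (Qd b (a * c₀))ˣ}
    (U : Un b (a * c₀) η) (s : ℤ) (hs : s = 1 ∨ s = -1)
    {Q T P₀ P A₀ : ℕ} (hQ1 : 1 ≤ Q)
    (hQ : 4 * (b ^ 2 - 4 * (a * c₀)) ∣ (Q : ℤ)) (haQ : a ∣ Q)
    (hA₀ : a * T.factorial ∣ A₀) (hA₀0 : A₀ ≠ 0) {X c₁ : ℝ} (hX : 1 ≤ X) (hc₁ : 0 < c₁)
    (hTP : T ≤ P₀) (hP₀ : 8 * (T : ℝ) ^ 2 ≤ c₁ * P₀)
    (hX1 : ((b ^ 2 - 4 * (a * c₀) : ℤ) : ℝ) * T ≤ X) (hX2 : |(b : ℝ)| * T ≤ X)
    (hX3 : |(b : ℝ)| * T ^ 2 ≤ c₁ * X) {p : Qd b (a * c₀) × Qd b (a * c₀)}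
    (hp : Pr η Q T (c₁ * X) X p) (hR : Rich A₀ P₀ P p.1) :
    ∃ x : ℕ × (((ℕ × ℕ) × (ℕ × ℕ)) × (ℕ × (Bool × Bool))),
      x.1 ∈ (Icc 1 ⌊((P : ℝ) + 2) * X⌋₊).filter
        (fun n : ℕ => 0 < Fn a b c₀ n ∧ lz (Fn a b c₀ n) = s) ∧
      x.2 ∈ DD a b c₀ T P x.1 ∧ FF a b c₀ p x.1 x.2 := by
  classical
  -- the orientation
  obtain ⟨o, ho⟩ : ∃ o : Bool, 1 ≤ dt (ori o p).1 (ori o p).2 ∧
      dt (ori o p).1 (ori o p).2 ≤ T := by
    have h1 := hp.dt0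
    have h2 := abs_le.1 hp.dt1
    rcases lt_or_gt_of_ne h1 with h | h
    · refine ⟨true, ?_⟩
      have e : dt (ori true p).1 (ori true p).2 = - dt p.1 p.2 := by
        simp only [ori]; unfold dt; ring
      rw [e]
      constructor <;> omega
    · refine ⟨false, ?_⟩
      have e : dt (ori false p).1 (ori false p).2 = dt p.1 p.2 := by
        simp only [ori]; unfold dt
        simp only [QuadraticAlgebra.re_star, QuadraticAlgebra.im_star]
        ring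
      rw [e]
      constructor <;> omega
  have hn1 := nm_ori1 o p
  have hn2 := nm_ori2 o p
  have tv : tp (ori o p).1 ∧ tp (ori o p).2 ∧ cl Q (ori o p).1 ∧ cl Q (ori o p).2 := by
    cases o
    · exact ⟨tp_star hp.tp2, tp_star hp.fd1.1, cl_star hp.cl2, cl_star hp.cl1⟩
    · exact ⟨hp.tp2, hp.fd1.1, hp.cl2, hp.cl1⟩
  have sv : spl (ori o p).1 := by
    intro r hr hd
    rw [hn1] at hd
    exact hp.sp2 r hr hd
  have su : spl (ori o p).2 := by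
    intro r hr hd
    rw [hn2] at hd
    exact hp.sp1 r hr hd
  have hgl : gl (ori o p).1 ≠ gl (ori o p).2 := by
    unfold gl
    rw [hn1, hn2]
    exact fun h => hp.ne h.symm
  have hRu : Rich A₀ P₀ P (ori o p).2 := by
    intro r h1 h2
    rw [hn2]
    exact hR r h1 h2
  obtain ⟨m, m', k, e, g, q, B, B', H⟩ := pair_data ha U.disc hQ1 hQ haQ hA₀ hA₀0 hX hc₁ hTP hP₀
    hX1 hX2 hX3 tv.1 tv.2.1 tv.2.2.1 tv.2.2.2 sv su (by rw [hn1]; exact hp.n2)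
    (by rw [hn1]; exact hp.n2') (by rw [hn2]; exact hp.n1) (by rw [hn2]; exact hp.n1')
    ho.1 ho.2 hgl hRu
  have hX0 : 0 < X := by linarith
  -- passing to natural numbers
  have key : ∀ (x : ℤ), x < 0 → |(x : ℝ)| ≤ ((P : ℝ) + 2) * X → 0 < a * x ^ 2 + b * x + c₀ →
      ∃ n : ℕ, x = -(n : ℤ) ∧ n ∈ Icc 1 ⌊((P : ℝ) + 2) * X⌋₊ ∧
        a * x ^ 2 + b * x + c₀ = Fn a b c₀ n := by
    intro x hx hxb _
    refine ⟨x.natAbs, ?_, ?_, ?_⟩
    · omega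
    · rw [mem_Icc]
      refine ⟨by omega, ?_⟩
      apply Nat.le_floor
      rw [Nat.cast_natAbs, Int.cast_abs]
      exact hxb
    · unfold Fn
      have h1 : ((x.natAbs : ℕ) : ℤ) = -x := by omega
      rw [h1]; ring
  have hdiv : ∀ (B n : ℕ), (B : ℤ) ∣ k * Fn a b c₀ n → 0 < Fn a b c₀ n →
      B ∈ (T.factorial * Fn a b c₀ n).natAbs.divisors := by
    intro B n hB hf
    have hk := H.hk
    rw [mem_Icc] at hk
    rw [Nat.mem_divisors]
    constructor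
    · have h1 : (B : ℤ) ∣ T.factorial * Fn a b c₀ n := by
        refine hB.trans (mul_dvd_mul_right ?_ _)
        exact_mod_cast Nat.dvd_factorial (by omega) hk.2
      exact Int.natCast_dvd.1 h1
    · rw [Int.natAbs_ne_zero]
      apply mul_ne_zero _ hf.ne'
      exact_mod_cast (Nat.factorial_pos T).ne'
  have hcase : lz (a * m ^ 2 + b * m + c₀) = s ∨ lz (a * m' ^ 2 + b * m' + c₀) = s := by
    have := H.l
    rcases lz_eq (a * m ^ 2 + b * m + c₀) with l1 | l1 <;>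
    rcases lz_eq (a * m' ^ 2 + b * m' + c₀) with l2 | l2 <;>
    rcases hs with hs | hs <;> rw [l1, l2] at this ⊢ <;> rw [hs] <;> simp_all
  rcases hcase with hc | hc
  · obtain ⟨n, hn1', hn2', hn3'⟩ := key m H.m0 H.b1 H.f1
    refine ⟨(n, (((k, e), (g, q)), (B, (true, o)))), ?_, ?_, ?_⟩
    · rw [mem_filter]
      refine ⟨hn2', ?_, ?_⟩
      · rw [← hn3']; exact H.f1
      · rw [← hn3']; exact hc
    · unfold DD
      simp only [mem_product]
      refine ⟨⟨⟨H.hk, H.he⟩, H.hg, H.hq⟩, hdiv B n ?_ ?_, mem_univ _⟩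
      · rw [← hn3']; exact H.d1
      · rw [← hn3']; exact H.f1
    · left
      refine ⟨rfl, ?_, ?_⟩
      · simp only
        rw [H.w1, hn1']
        congr 1
        ring
      · simp only
        rw [← hn1]
        exact H.n1
  · obtain ⟨n, hn1', hn2', hn3'⟩ := key m' H.m0' H.b2 H.f2
    refine ⟨(n, (((k, e), (g, q)), (B', (false, o)))), ?_, ?_, ?_⟩
    · rw [mem_filter]
      refine ⟨hn2', ?_, ?_⟩
      · rw [← hn3']; exact H.f2
      · rw [← hn3']; exact hc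
    · unfold DD
      simp only [mem_product]
      refine ⟨⟨⟨H.hk, H.he⟩, H.hg, H.hq⟩, hdiv B' n ?_ ?_, mem_univ _⟩
      · rw [← hn3']; exact H.d2
      · rw [← hn3']; exact H.f2
    · right
      refine ⟨rfl, ?_, ?_⟩
      · simp only
        rw [H.w2, hn1']
        congr 1
        ring
      · simp only
        rw [← hn2]
        exact H.n2

theorem count {a : ℕ} (ha : 1 ≤ a) {b c₀ : ℤ} (hd : 4 * (a * c₀) < b ^ 2)
    (hns : ¬ IsSquare (b ^ 2 - 4 * (a * c₀))) (s : ℤ) (hs : s = 1 ∨ s = -1) :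
    ∃ (T : ℕ) (C κ : ℝ), 1 ≤ C ∧ 0 < κ ∧ ∃ X₀ : ℝ, ∀ X : ℝ, X₀ ≤ X →
    κ * X ≤ ∑ n ∈ (Icc 1 ⌊C * X⌋₊).filter
        (fun n : ℕ => 0 < Fn a b c₀ n ∧ lz (Fn a b c₀ n) = s),
      (((T.factorial * Fn a b c₀ n).natAbs.divisors.card : ℕ) : ℝ) := by
  classical
  obtain ⟨η₀, U₀⟩ := Pool.Agent.W376.GR.unit hd hns
  set Δ : ℤ := b ^ 2 - 4 * (a * c₀) with hΔ
  have hΔ0 : 0 < Δ := by rw [hΔ]; linarith
  have hΔn : 0 < Δ.natAbs := Int.natAbs_pos.2 hΔ0.ne'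
  have hΔc : ((Δ.natAbs : ℕ) : ℤ) = Δ := by rw [Int.natCast_natAbs, abs_of_pos hΔ0]
  set Q : ℕ := 4 * Δ.natAbs * a with hQdef
  have hQ1 : 1 ≤ Q := by
    have : 0 < 4 * Δ.natAbs * a := Nat.mul_pos (by omega) (by omega)
    omega
  have hQ : 4 * Δ ∣ (Q : ℤ) := by
    rw [hQdef]
    refine ⟨a, ?_⟩
    rw [Nat.cast_mul, Nat.cast_mul, hΔc]
    push_cast
    ring
  have haQ : a ∣ Q := Dvd.intro_left _ rfl
  obtain ⟨η, U, hη⟩ := unit_cl U₀ hQ1
  obtain ⟨T, c₁, ε, hT, hc₁, hε, h⟩ := rich_pairs U hQ1 hη hQ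
  have hTR : (1 : ℝ) ≤ T := by exact_mod_cast hT
  set A₀ : ℕ := 4 * Δ.natAbs * (a * T.factorial) with hA₀
  have hA₀0 : 0 < A₀ := by
    have := Nat.factorial_pos T
    rw [hA₀]
    exact Nat.mul_pos (by omega) (Nat.mul_pos (by omega) this)
  have hA₀d : 4 * Δ ∣ (A₀ : ℤ) := by
    rw [hA₀]
    refine ⟨a * T.factorial, ?_⟩
    rw [Nat.cast_mul, Nat.cast_mul, hΔc]
    push_cast
    ring
  set P₀ : ℕ := max T ⌈8 * (T : ℝ) ^ 2 / c₁⌉₊ with hP₀
  have hTP : T ≤ P₀ := le_max_left _ _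
  have hP₀' : 8 * (T : ℝ) ^ 2 ≤ c₁ * P₀ := by
    have h1 : 8 * (T : ℝ) ^ 2 / c₁ ≤ P₀ := by
      exact (Nat.le_ceil _).trans (Nat.cast_le.2 (le_max_right _ _))
    rw [div_le_iff₀ hc₁] at h1
    linarith
  obtain ⟨P, X₀, h⟩ := h A₀ hA₀0 hA₀d P₀
  set C : ℝ := (P : ℝ) + 2 with hC
  have hC1 : 1 ≤ C := by
    have h1 : (0 : ℝ) ≤ P := Nat.cast_nonneg _
    rw [hC]; linarith
  set W : ℕ := 2 * (2 * (⌈s1 (η : Qd b (a * c₀))⌉₊ * T) + 1) with hW
  set κ' : ℝ := (W : ℝ) * (4 * T ^ 4 * (P + 1)) with hκ'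
  have hW0 : (0 : ℝ) < W := by
    have : 0 < W := by rw [hW]; omega
    exact_mod_cast this
  have hκ'0 : 0 < κ' := by positivity
  refine ⟨T, C, ε / κ', hC1, by positivity,
    max (max 1 X₀) (max ((Δ : ℝ) * T) (max (|(b : ℝ)| * T) (|(b : ℝ)| * T ^ 2 / c₁))),
    fun X hX => ?_⟩
  have hX1 : 1 ≤ X := ((le_max_left _ _).trans (le_max_left _ _)).trans hX
  have hX2 : X₀ ≤ X := ((le_max_right _ _).trans (le_max_left _ _)).trans hX
  have hX3 : (Δ : ℝ) * T ≤ X := ((le_max_left _ _).trans (le_max_right _ _)).trans hX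
  have hX4 : |(b : ℝ)| * T ≤ X :=
    (((le_max_left _ _).trans (le_max_right _ _)).trans (le_max_right _ _)).trans hX
  have hX5 : |(b : ℝ)| * T ^ 2 ≤ c₁ * X := by
    have h1 : |(b : ℝ)| * T ^ 2 / c₁ ≤ X :=
      (((le_max_right _ _).trans (le_max_right _ _)).trans (le_max_right _ _)).trans hX
    rw [div_le_iff₀ hc₁] at h1
    linarith
  obtain ⟨S, hScard, hS⟩ := h X hX2
  set G := (Icc 1 ⌊C * X⌋₊).filter (fun n : ℕ => 0 < Fn a b c₀ n ∧ lz (Fn a b c₀ n) = s) with hG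
  have hex : ∀ p ∈ S, ∃ x : ℕ × (((ℕ × ℕ) × (ℕ × ℕ)) × (ℕ × (Bool × Bool))), x.1 ∈ G ∧
      x.2 ∈ DD a b c₀ T P x.1 ∧ FF a b c₀ p x.1 x.2 := by
    intro p hp
    exact pair_ex ha U s hs hQ1 hQ haQ (Dvd.intro_left _ rfl) hA₀0.ne' hX1 hc₁ hTP hP₀'
      hX3 hX4 hX5 (hS p hp).1 (hS p hp).2
  choose! φ hφ1 hφ2 hφ3 using hex
  -- the fibres
  have hfib : ∀ n ∈ G, ∀ δ ∈ DD a b c₀ T P n,
      (S.filter (fun p => φ p = (n, δ))).card ≤ W := by
    intro n _ δ hδ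
    unfold DD at hδ
    simp only [mem_product] at hδ
    obtain ⟨⟨⟨hk, he⟩, hg, hq⟩, -, -⟩ := hδ
    rw [mem_Icc] at hk he hg hq
    have hF : ∀ p ∈ S.filter (fun p => φ p = (n, δ)), FF a b c₀ p n δ := by
      intro p hp
      rw [mem_filter] at hp
      have := hφ3 p hp.1
      rw [hp.2] at this
      exact this
    rcases (S.filter (fun p => φ p = (n, δ))).eq_empty_or_nonempty with hE | ⟨p₀, hp₀⟩
    · rw [hE]; simp
    have hPr₀ := (hS p₀ (mem_filter.1 hp₀).1).1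
    have h0 := hF p₀ hp₀
    apply fib U (nm p₀.1) (star p₀.1 * p₀.2)
    · rw [star_mul_eq]; exact hPr₀.dt0
    · rw [star_mul_eq]; exact hPr₀.dt1
    intro p hp
    have h1 := hF p hp
    have hPr := (hS p (mem_filter.1 hp).1).1
    unfold FF at h1 h0
    rcases Bool.eq_false_or_eq_true δ.2.2.1 with hb | hb
    · rw [hb] at h1 h0
      simp only [true_and, Bool.true_eq_false, false_and, or_false] at h1 h0
      have hw : star (ori δ.2.2.2 p).1 * (ori δ.2.2.2 p).2 =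
          star (ori δ.2.2.2 p₀).1 * (ori δ.2.2.2 p₀).2 := h1.1.trans h0.1.symm
      refine ⟨hPr.fd1, ?_, ori_star hw⟩
      have h2 := h1.2.trans h0.2.symm
      have hg0 : 0 < δ.1.2.1 * δ.1.2.2 := Nat.mul_pos hg.1 hq.1
      have h3 : nm p.2 = nm p₀.2 := by
        apply Nat.eq_of_mul_eq_mul_right hg0
        linarith
      have h4 := congrArg nm (ori_star hw)
      rw [nm_mul, nm_mul, nm_star, nm_star, h3] at h4
      exact Nat.eq_of_mul_eq_mul_right (nm_pos U.disc hPr₀.tp2) h4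
    · rw [hb] at h1 h0
      simp only [true_and, Bool.false_eq_true, false_and, false_or] at h1 h0
      have hw : star (ori δ.2.2.2 p).1 * (ori δ.2.2.2 p).2 =
          star (ori δ.2.2.2 p₀).1 * (ori δ.2.2.2 p₀).2 := h1.1.trans h0.1.symm
      exact ⟨hPr.fd1, h1.2.trans h0.2.symm, ori_star hw⟩
  -- summation
  have hsum : S.card ≤ ∑ n ∈ G, W * (DD a b c₀ T P n).card := by
    have h1 := Finset.card_eq_sum_card_fiberwise (f := fun p => (φ p).1) (s := S) (t := G)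
      (fun p hp => hφ1 p hp)
    rw [h1]
    apply sum_le_sum
    intro n hn
    apply card_le_mul_card_image_of_maps_to (f := fun p => (φ p).2)
    · intro p hp
      rw [mem_filter] at hp
      have := hφ2 p hp.1
      rwa [hp.2] at this
    · intro δ hδ
      refine le_trans (card_le_card ?_) (hfib n hn δ hδ)
      intro p hp
      rw [mem_filter, mem_filter] at hp
      rw [mem_filter]
      exact ⟨hp.1.1, Prod.ext hp.1.2 hp.2⟩
  have hsum2 : (S.card : ℝ) ≤ κ' * ∑ n ∈ G,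
      (((T.factorial * Fn a b c₀ n).natAbs.divisors.card : ℕ) : ℝ) := by
    have h1 : (S.card : ℝ) ≤ ((∑ n ∈ G, W * (DD a b c₀ T P n).card : ℕ) : ℝ) := by
      exact_mod_cast hsum
    refine h1.trans ?_
    push_cast
    rw [mul_sum]
    apply sum_le_sum
    intro n _
    have h2 : ((DD a b c₀ T P n).card : ℝ) = 4 * T ^ 4 * P *
        ((T.factorial * Fn a b c₀ n).natAbs.divisors.card : ℝ) := by
      exact_mod_cast card_DD a b c₀ T P n
    have h3 : (0 : ℝ) ≤ ((T.factorial * Fn a b c₀ n).natAbs.divisors.card : ℝ) :=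
      Nat.cast_nonneg _
    rw [h2]
    calc (W : ℝ) * (4 * T ^ 4 * P * ((T.factorial * Fn a b c₀ n).natAbs.divisors.card : ℝ))
        ≤ (W : ℝ) * (4 * T ^ 4 * (P + 1) *
          ((T.factorial * Fn a b c₀ n).natAbs.divisors.card : ℝ)) := by
          gcongr; linarith
      _ = _ := by rw [hκ']; ring
  rw [div_mul_eq_mul_div, div_le_iff₀ hκ'0]
  linarith

end Pool.Agent.W80.GC
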