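import Pool.Agent.W78.GR.All
import Pool.Agent.W80.GC.Mom
import Pool.Agent.W80.GC.Dec
import Pool.Agent.W80.GC.MR
import Pool.Agent.W80.GC.Ele
import Pool.Agent.W80.GC.Cls

/-!
Project GC (helper80): the Matomaki-Radziwill theorem for the angles of the primitive elements
in the residue class `1` modulo `Q` of a real quadratic order.
-/

set_option autoImplicit false

namespace Pool.Agent.W80.GC

open Pool.Agent.W78.GR

variable {t c : ℤ} {η : (Qd t c)ˣ} {Q : ℕ}

theorem lat_all (U : Un t c η) : S_LAT t c η := Pool.Agent.W398.GR.lat U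

theorem lati_all (U : Un t c η) : S_LATI t c η :=
  Pool.Agent.W880.GR.lati_of U (lat_all U) (Pool.Agent.W880.GR.red U.disc U.nsq)

/-- the Matomaki-Radziwill theorem for the coefficient `gq Q` -/
theorem mr_all (U : Un t c η) (hQ : 1 ≤ Q) (hη : cl Q (η : Qd t c)) :
    S_MRg η (gq Q : Qd t c → ℤ) := by
  have hlat := lat_all U
  have hlati := lati_all U
  have hred : S_RED t c := Pool.Agent.W880.GR.red U.disc U.nsq
  have hls : S_LS t c η := Pool.Agent.W586.GR.ls U
  have hang1 : S_ANG1 t c η := Pool.Agent.W134.GR.ang1 U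
  have hang : S_ANG t c η := Pool.Agent.W398.GR.ang_of hang1 (Pool.Agent.W398.GR.ang2 U)
  have hangi : S_ANGI t c η := Pool.Agent.W880.GR.angi_of U hang hred
  have hmach : S_MACH := Pool.Agent.W586.GA.mach_of Pool.Agent.W240.GA.leva
    Pool.Agent.W240.GA.levb Pool.Agent.W397.GA.s_cnt Pool.Agent.W586.GA.upart
  obtain ⟨Ap, Bp, M, E, ρ, ϖ, hE, hcl, hp1⟩ := ele U.disc U.nsq hQ
  have hcf : Cf η (gq Q : Qd t c → ℤ) := cf_gq hη
  exact mr_of hcf U hmach hE (inv_gq U.disc U.nsq hE hcl hp1)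
    (dec_of hcf U hlati (Pool.Agent.W248.GR.tk_of U hlat hlati))
    (mom0_of hcf U hls hlat) (Pool.Agent.W571.GR.momp_of U hls) (mom_of hcf U hls hlati)
    (Pool.Agent.W402.GR.sparse_of U hang hlat) hls
    (Pool.Agent.W586.GR.celle_of U
      (Pool.Agent.W402.GR.sele_of U hangi hlat (Pool.Agent.W586.GR.selb U.disc U.nsq))) hlat

end Pool.Agent.W80.GC
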