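import Pool.Agent.W80.GC.Fin

/-!
Project GC (helper80): the count of the values of given sign.
-/

set_option autoImplicit false

namespace Pool.Agent.W80.GC

open Finset Filter
open Pool.Agent.H376R2.MR
open Pool.Agent.W78.GR
open Pool.Agent.W80.GB (lz lz_mul lz_eq)

theorem many {a : ℕ} (ha : 1 ≤ a) {b c₀ : ℤ} (hd : 4 * (a * c₀) < b ^ 2)
    (hns : ¬ IsSquare (b ^ 2 - 4 * (a * c₀))) (s : ℤ) (hs : s = 1 ∨ s = -1)
    (ε : ℝ) (hε : 0 < ε) : ∃ N₀ : ℕ, ∀ N : ℕ, N₀ ≤ N →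
    (N : ℝ) ^ (1 - ε) ≤
      (((Icc 1 N).filter (fun n : ℕ => 0 < Fn a b c₀ n ∧ lz (Fn a b c₀ n) = s)).card : ℝ) := by
  classical
  obtain ⟨T, C, κ, hC1, hκ, X₀, h⟩ := count ha hd hns s hs
  obtain ⟨C₂, hC₂, hdiv⟩ := Pool.Agent.H510R2.divisor_bound (ε / 4) (by positivity)
  set M₁ : ℝ := T.factorial * ((a : ℝ) + |(b : ℝ)| + |(c₀ : ℝ)|) with hM₁
  have hM₁0 : 0 ≤ M₁ := by positivity
  set C₃ : ℝ := C₂ * (M₁ + 1) ^ (ε / 4) with hC₃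
  have hC₃0 : 0 < C₃ := by positivity
  have hC0 : 0 < C := by linarith
  set γ : ℝ := κ / (C * C₃) with hγ
  have hγ0 : 0 < γ := by positivity
  have hev : ∀ᶠ N : ℕ in atTop, 1 / γ ≤ (N : ℝ) ^ (ε / 2) :=
    ((tendsto_rpow_atTop (by positivity : 0 < ε / 2)).comp
      tendsto_natCast_atTop_atTop).eventually_ge_atTop _
  obtain ⟨N₁, hN₁⟩ := eventually_atTop.1 hev
  refine ⟨max (max 1 N₁) ⌈C * X₀⌉₊, fun N hN => ?_⟩
  have hN1 : 1 ≤ N := ((le_max_left _ _).trans (le_max_left _ _)).trans hN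
  have hN2 : N₁ ≤ N := ((le_max_right _ _).trans (le_max_left _ _)).trans hN
  have hN3 : C * X₀ ≤ N := (Nat.le_ceil _).trans (by exact_mod_cast (le_max_right _ _).trans hN)
  have hNR : (1 : ℝ) ≤ N := by exact_mod_cast hN1
  have hN0 : (0 : ℝ) < N := by linarith
  have hX : X₀ ≤ N / C := by rw [le_div_iff₀ hC0]; linarith
  have h1 := h (N / C) hX
  have hCN : C * ((N : ℝ) / C) = N := by field_simp
  rw [hCN, Nat.floor_natCast] at h1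
  set G := (Icc 1 N).filter (fun n : ℕ => 0 < Fn a b c₀ n ∧ lz (Fn a b c₀ n) = s) with hG
  have hτ : ∀ n ∈ G, (((T.factorial * Fn a b c₀ n).natAbs.divisors.card : ℕ) : ℝ) ≤
      C₃ * (N : ℝ) ^ (ε / 2) := by
    intro n hn
    rw [hG, mem_filter, mem_Icc] at hn
    have hne : (T.factorial : ℤ) * Fn a b c₀ n ≠ 0 :=
      mul_ne_zero (by exact_mod_cast (Nat.factorial_pos T).ne') hn.2.1.ne'
    have h2 := hdiv _ (Nat.one_le_iff_ne_zero.2 (Int.natAbs_ne_zero.2 hne))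
    have hn0 : (0 : ℝ) ≤ n := Nat.cast_nonneg _
    have hnN : (n : ℝ) ≤ N := by exact_mod_cast hn.1.2
    have h3 : (((T.factorial : ℤ) * Fn a b c₀ n).natAbs : ℝ) ≤ (M₁ + 1) * (N : ℝ) ^ 2 := by
      rw [Nat.cast_natAbs, Int.cast_abs]
      unfold Fn
      push_cast
      have h4 : |(a : ℝ) * (n : ℝ) ^ 2 - b * n + c₀| ≤
          ((a : ℝ) + |(b : ℝ)| + |(c₀ : ℝ)|) * (N : ℝ) ^ 2 := by
        have g0 : (n : ℝ) ^ 2 ≤ (N : ℝ) ^ 2 := pow_le_pow_left₀ hn0 hnN 2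
        have g1 : |(a : ℝ) * (n : ℝ) ^ 2| ≤ a * (N : ℝ) ^ 2 := by
          rw [abs_of_nonneg (by positivity)]
          exact mul_le_mul_of_nonneg_left g0 (Nat.cast_nonneg _)
        have g2 : |(b : ℝ) * n| ≤ |(b : ℝ)| * (N : ℝ) ^ 2 := by
          rw [abs_mul, abs_of_nonneg hn0]
          apply mul_le_mul_of_nonneg_left _ (abs_nonneg _)
          calc (n : ℝ) ≤ N := hnN
            _ = N * 1 := by ring
            _ ≤ N * N := mul_le_mul_of_nonneg_left hNR hN0.le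
            _ = (N : ℝ) ^ 2 := by ring
        have g3 : |(c₀ : ℝ)| ≤ |(c₀ : ℝ)| * (N : ℝ) ^ 2 :=
          le_mul_of_one_le_right (abs_nonneg _) (one_le_pow₀ hNR)
        calc |(a : ℝ) * (n : ℝ) ^ 2 - b * n + c₀| ≤ |(a : ℝ) * (n : ℝ) ^ 2 - b * n| + |(c₀ : ℝ)| :=
              abs_add_le _ _
          _ ≤ |(a : ℝ) * (n : ℝ) ^ 2| + |(b : ℝ) * n| + |(c₀ : ℝ)| := by
              have := abs_sub ((a : ℝ) * (n : ℝ) ^ 2) (b * n)
              linarith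
          _ ≤ _ := by linarith
      rw [abs_mul, abs_of_nonneg (Nat.cast_nonneg _ : (0 : ℝ) ≤ (T.factorial : ℝ))]
      have h5 := mul_le_mul_of_nonneg_left h4
        (Nat.cast_nonneg T.factorial : (0 : ℝ) ≤ (T.factorial : ℝ))
      have h6 : 0 ≤ (N : ℝ) ^ 2 := by positivity
      calc _ ≤ (T.factorial : ℝ) * (((a : ℝ) + |(b : ℝ)| + |(c₀ : ℝ)|) * (N : ℝ) ^ 2) := h5
        _ = M₁ * (N : ℝ) ^ 2 := by rw [hM₁]; ring
        _ ≤ (M₁ + 1) * (N : ℝ) ^ 2 := by linarith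
    refine h2.trans ?_
    have h4 : (((T.factorial : ℤ) * Fn a b c₀ n).natAbs : ℝ) ^ (ε / 4) ≤
        ((M₁ + 1) * (N : ℝ) ^ 2) ^ (ε / 4) :=
      Real.rpow_le_rpow (Nat.cast_nonneg _) h3 (by positivity)
    have h5 : ((M₁ + 1) * (N : ℝ) ^ 2) ^ (ε / 4) = (M₁ + 1) ^ (ε / 4) * (N : ℝ) ^ (ε / 2) := by
      rw [Real.mul_rpow (by positivity) (by positivity)]
      congr 1
      rw [← Real.rpow_natCast, ← Real.rpow_mul hN0.le]
      congr 1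
      push_cast
      ring
    rw [h5] at h4
    calc C₂ * (((T.factorial : ℤ) * Fn a b c₀ n).natAbs : ℝ) ^ (ε / 4)
        ≤ C₂ * ((M₁ + 1) ^ (ε / 4) * (N : ℝ) ^ (ε / 2)) := mul_le_mul_of_nonneg_left h4 hC₂.le
      _ = C₃ * (N : ℝ) ^ (ε / 2) := by rw [hC₃]; ring
  have h2 : κ * (N / C) ≤ (G.card : ℝ) * (C₃ * (N : ℝ) ^ (ε / 2)) := by
    refine h1.trans ((sum_le_sum hτ).trans (le_of_eq ?_))
    rw [sum_const, nsmul_eq_mul]
  have hNe0 : 0 < (N : ℝ) ^ (ε / 2) := by positivity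
  have h3 : γ * (N : ℝ) ≤ (G.card : ℝ) * (N : ℝ) ^ (ε / 2) := by
    have e1 : γ * (N : ℝ) = κ * (N / C) / C₃ := by rw [hγ]; field_simp
    rw [e1, div_le_iff₀ hC₃0]
    linarith
  have h4 : 1 ≤ γ * (N : ℝ) ^ (ε / 2) := by
    have := hN₁ N hN2
    rw [div_le_iff₀ hγ0] at this
    linarith
  have h5 : (N : ℝ) ^ (1 - ε) * ((N : ℝ) ^ (ε / 2) * (N : ℝ) ^ (ε / 2)) = N := by
    rw [← Real.rpow_add hN0, ← Real.rpow_add hN0]
    have : 1 - ε + (ε / 2 + ε / 2) = 1 := by ring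
    rw [this, Real.rpow_one]
  have hNp : 0 < (N : ℝ) ^ (1 - ε) := by positivity
  have h6 : (N : ℝ) ^ (1 - ε) * (N : ℝ) ^ (ε / 2) ≤ (G.card : ℝ) * (N : ℝ) ^ (ε / 2) := by
    refine le_trans ?_ h3
    have h7 : (N : ℝ) ^ (1 - ε) * (N : ℝ) ^ (ε / 2) * 1 ≤
        (N : ℝ) ^ (1 - ε) * (N : ℝ) ^ (ε / 2) * (γ * (N : ℝ) ^ (ε / 2)) :=
      mul_le_mul_of_nonneg_left h4 (by positivity)
    calc (N : ℝ) ^ (1 - ε) * (N : ℝ) ^ (ε / 2) = (N : ℝ) ^ (1 - ε) * (N : ℝ) ^ (ε / 2) * 1 := by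
          ring
      _ ≤ _ := h7
      _ = γ * ((N : ℝ) ^ (1 - ε) * ((N : ℝ) ^ (ε / 2) * (N : ℝ) ^ (ε / 2))) := by ring
      _ = γ * N := by rw [h5]
  exact le_of_mul_le_mul_right h6 hNe0

end Pool.Agent.W80.GC
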