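import Pool.Agent.W80.GC.Rich
import Pool.Agent.W80.GB.Mult

/-!
Project GC (helper80): multiplicities.
-/

set_option autoImplicit false

namespace Pool.Agent.W80.GC

open Finset Filter
open Pool.Agent.H376R2.MR
open Pool.Agent.W78.GR
open Pool.Agent.W54.GR (sd_two)
open Pool.Agent.W80.GB (two_sol)

variable {t c : ℤ} {η : (Qd t c)ˣ} {Q : ℕ}

lemma mul_star_self_tp (hd : 4 * c < t ^ 2) {z : Qd t c} (hz : tp z) :
    z * star z = ((nm z : ℕ) : Qd t c) := by
  rw [mul_comm]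
  exact star_mul_self_tp hd hz

/-- few elements of the fundamental domain of given norm `D` with `D ∣ z w` -/
theorem mult_card (U : Un t c η) (D : ℕ) (w : Qd t c) {T : ℕ} (hw0 : w.im ≠ 0)
    (hwT : |w.im| ≤ T) (S : Finset (Qd t c))
    (hS : ∀ z ∈ S, fd η z ∧ nm z = D ∧ (D : Qd t c) ∣ z * w) :
    S.card ≤ 2 * (2 * (⌈s1 (η : Qd t c)⌉₊ * T) + 1) := by
  classical
  rcases S.eq_empty_or_nonempty with h | ⟨z₀, hz₀⟩
  · rw [h]; simp
  obtain ⟨h0, h1, h2⟩ := hS z₀ hz₀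
  have hDpos : 0 < D := by rw [← h1]; exact nm_pos U.disc h0.1
  have hDz : (0 : ℤ) < D := by exact_mod_cast hDpos
  have hDR : (0 : ℝ) < D := by exact_mod_cast hDpos
  set L : ℕ := ⌈s1 (η : Qd t c)⌉₊ with hL
  have hLs : s1 (η : Qd t c) ≤ L := Nat.le_ceil _
  have hs1 := U.s1_gt
  -- the determinant with `z₀`
  have hdt : ∀ z ∈ S, ∃ l : ℤ, l ∈ Icc (-((L * T : ℕ) : ℤ)) ((L * T : ℕ) : ℤ) ∧
      w.im * dt z₀ z = D * l := by
    intro z hz
    obtain ⟨g0, g1, g2⟩ := hS z hz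
    rw [natCast_dvd] at h2 g2
    have a1 := h2.2
    have a2 := g2.2
    rw [QuadraticAlgebra.im_mul] at a1 a2
    have a3 : (D : ℤ) ∣ w.im * dt z₀ z := by
      have h3 := dvd_sub (a1.mul_right z.im) (a2.mul_right z₀.im)
      have h4 : (z₀.re * w.im + z₀.im * w.re + t * z₀.im * w.im) * z.im -
          (z.re * w.im + z.im * w.re + t * z.im * w.im) * z₀.im = w.im * dt z₀ z := by
        unfold dt; ring
      rwa [h4] at h3
    obtain ⟨l, hl⟩ := a3
    refine ⟨l, ?_, hl⟩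
    -- the size of the determinant
    have hX0 : (nm z₀ : ℝ) ≤ D := by rw [h1]
    have hX1 : (nm z : ℝ) ≤ D := by rw [g1]
    obtain ⟨b1, b2⟩ := U.s_le h0 hX0
    obtain ⟨b3, b4⟩ := U.s_le g0 hX1
    have hsq : Real.sqrt D * Real.sqrt D = D := Real.mul_self_sqrt hDR.le
    have hs0 := Real.sqrt_nonneg (D : ℝ)
    have p1 := h0.1
    have p2 := g0.1
    have c1 : s2 z₀ * s1 z ≤ L * D := by
      calc s2 z₀ * s1 z ≤ Real.sqrt D * (s1 (η : Qd t c) * Real.sqrt D) :=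
            mul_le_mul b1 b4 p2.1.le hs0
        _ = s1 (η : Qd t c) * D := by rw [← mul_assoc, mul_comm (Real.sqrt D), mul_assoc, hsq]
        _ ≤ L * D := mul_le_mul_of_nonneg_right hLs hDR.le
    have c2 : s1 z₀ * s2 z ≤ L * D := by
      calc s1 z₀ * s2 z ≤ (s1 (η : Qd t c) * Real.sqrt D) * Real.sqrt D :=
            mul_le_mul b2 b3 p2.2.le (by positivity)
        _ = s1 (η : Qd t c) * D := by rw [mul_assoc, hsq]
        _ ≤ L * D := mul_le_mul_of_nonneg_right hLs hDR.le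
    have c3 : 0 < s2 z₀ * s1 z := mul_pos p1.2 p2.1
    have c4 : 0 < s1 z₀ * s2 z := mul_pos p1.1 p2.2
    have h5 : |(dt z₀ z : ℝ)| ≤ L * D := by
      have h6 := dt_eq z₀ z
      have h7 := sd_two U
      have h8 : |Real.sqrt ((t : ℝ) ^ 2 - 4 * c) * (dt z₀ z : ℝ)| ≤ L * D := by
        rw [h6, abs_le]
        constructor <;> linarith
      rw [abs_mul, abs_of_nonneg (Real.sqrt_nonneg _)] at h8
      have h9 : 1 * |(dt z₀ z : ℝ)| ≤ Real.sqrt ((t : ℝ) ^ 2 - 4 * c) * |(dt z₀ z : ℝ)| :=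
        mul_le_mul_of_nonneg_right (by linarith) (abs_nonneg _)
      linarith
    have h7 : |dt z₀ z| ≤ L * D := by
      have : ((|dt z₀ z| : ℤ) : ℝ) ≤ ((L * D : ℤ) : ℝ) := by push_cast; exact h5
      exact_mod_cast this
    have h8 : (D : ℤ) * |l| ≤ D * (L * T) := by
      have h9 : (D : ℤ) * |l| = |w.im| * |dt z₀ z| := by
        rw [← abs_mul, hl, abs_mul, abs_of_pos hDz]
      rw [h9]
      calc |w.im| * |dt z₀ z| ≤ T * (L * D) := mul_le_mul hwT h7 (abs_nonneg _) (Nat.cast_nonneg _)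
        _ = D * (L * T) := by ring
    have h9 := le_of_mul_le_mul_left h8 hDz
    have h10 := abs_le.1 h9
    rw [mem_Icc]
    push_cast
    exact ⟨h10.1, h10.2⟩
  choose! l hl1 hl2 using hdt
  have hfib : ∀ y ∈ Icc (-((L * T : ℕ) : ℤ)) ((L * T : ℕ) : ℤ),
      (S.filter (fun z => l z = y)).card ≤ 2 := by
    intro y _
    rcases (S.filter (fun z => l z = y)).eq_empty_or_nonempty with hE | ⟨z₁, hz₁⟩
    · rw [hE]; simp
    rw [mem_filter] at hz₁
    have hsame : ∀ z ∈ S.filter (fun z => l z = y), dt z₀ z = dt z₀ z₁ := by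
      intro z hz
      rw [mem_filter] at hz
      have e1 := hl2 z hz.1
      have e2 := hl2 z₁ hz₁.1
      rw [hz.2] at e1
      rw [hz₁.2] at e2
      exact mul_left_cancel₀ hw0 (e1.trans e2.symm)
    have hinj : Set.InjOn (fun z => ip z₀ z) (S.filter (fun z => l z = y)) := by
      intro z hz z' hz' hzz
      have e1 := hsame z hz
      have e2 := hsame z' hz'
      have e3 : star z₀ * z = star z₀ * z' := by
        rw [star_mul_eq, star_mul_eq, e1, e2]
        simp only at hzz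
        rw [hzz]
      exact mul_cancel U.nsq (tp_ne_zero (tp_star h0.1)) e3
    rw [← card_image_of_injOn hinj]
    apply two_sol t (dt z₀ z₁) (4 * ((D : ℤ) * D) + (t ^ 2 - 4 * c) * dt z₀ z₁ ^ 2)
    intro x hx
    rw [mem_image] at hx
    obtain ⟨z, hz, rfl⟩ := hx
    have e1 := hsame z hz
    rw [mem_filter] at hz
    have h5 := ip_dt z₀ z U.disc h0.1 (hS z hz.1).1.1
    rw [h1, (hS z hz.1).2.1] at h5
    rw [e1] at h5
    rw [h5]; ring
  have := card_le_mul_card_image_of_maps_to hl1 2 hfib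
  rw [Int.card_Icc] at this
  have e : (((L * T : ℕ) : ℤ) + 1 - -((L * T : ℕ) : ℤ)).toNat = 2 * (L * T) + 1 := by omega
  rw [e] at this
  exact this

/-- fibres -/
lemma fib (U : Un t c η) (D : ℕ) (w : Qd t c) {T : ℕ} (hw0 : w.im ≠ 0)
    (hwT : |w.im| ≤ T) (S : Finset (Qd t c × Qd t c))
    (hS : ∀ p ∈ S, fd η p.1 ∧ nm p.1 = D ∧ star p.1 * p.2 = w) :
    S.card ≤ 2 * (2 * (⌈s1 (η : Qd t c)⌉₊ * T) + 1) := by
  classical
  have hinj : Set.InjOn (fun p : Qd t c × Qd t c => p.1) S := by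
    intro p hp p' hp' hpp
    have h1 := (hS p hp).2.2
    have h2 := (hS p' hp').2.2
    simp only at hpp
    rw [← h2, hpp] at h1
    exact Prod.ext hpp (mul_cancel U.nsq (tp_ne_zero (tp_star (hS p' hp').1.1)) h1)
  rw [← card_image_of_injOn hinj]
  apply mult_card U D w hw0 hwT
  intro z hz
  rw [mem_image] at hz
  obtain ⟨p, hp, rfl⟩ := hz
  obtain ⟨h1, h2, h3⟩ := hS p hp
  refine ⟨h1, h2, p.2, ?_⟩
  rw [← h3, ← mul_assoc, mul_star_self_tp U.disc h1.1, h2]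

/-- few elements on a line -/
lemma line_card (U : Un t c η) {X c₁ : ℝ} (hc : 0 < c₁) (hX : 0 < X) {z : Qd t c}
    (hz : fd η z) (hp : prim z) (hnz : c₁ * X ≤ nm z) (k : ℤ) (S : Finset (Qd t c))
    (hS : ∀ y ∈ S, tp y ∧ (nm y : ℝ) ≤ X ∧ |ang η z - ang η y| ≤ 1 ∧ dt z y = k) :
    S.card ≤ 2 * ⌈s1 (η : Qd t c) ^ 2 / Real.sqrt c₁⌉₊ + 1 := by
  classical
  rcases S.eq_empty_or_nonempty with h | ⟨y₀, hy₀⟩
  · rw [h]; simp
  set L : ℕ := ⌈s1 (η : Qd t c) ^ 2 / Real.sqrt c₁⌉₊ with hL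
  have hs := U.s1_gt
  have hRg := U.rg_pos
  have hpi := Real.pi_gt_three
  have hsc : 0 < Real.sqrt c₁ := Real.sqrt_pos.2 hc
  have hsX : 0 < Real.sqrt X := Real.sqrt_pos.2 hX
  have hb : ∀ y ∈ S, 0 < s1 y ∧ s1 y ≤ s1 (η : Qd t c) ^ 2 * Real.sqrt X := by
    intro y hy
    obtain ⟨h1, h2, h3, -⟩ := hS y hy
    refine ⟨h1.1, ?_⟩
    rw [(U.s1_polar h1).1]
    have h4 : ang η y ≤ 4 * Real.pi := by
      have := (abs_le.1 h3).1
      have := hz.2.2
      linarith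
    have h5 : rg η / (2 * Real.pi) * ang η y ≤ 2 * rg η := by
      have e : 2 * rg η = rg η / (2 * Real.pi) * (4 * Real.pi) := by field_simp; ring
      rw [e]
      exact mul_le_mul_of_nonneg_left h4 (by positivity)
    have h6 : Real.exp (rg η / (2 * Real.pi) * ang η y) ≤ s1 (η : Qd t c) ^ 2 := by
      have e : s1 (η : Qd t c) ^ 2 = Real.exp (2 * rg η) := by
        unfold rg
        rw [show (2 : ℝ) * Real.log (s1 (η : Qd t c)) = Real.log (s1 (η : Qd t c)) +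
          Real.log (s1 (η : Qd t c)) by ring, Real.exp_add, Real.exp_log (by linarith), pow_two]
      rw [e]
      exact Real.exp_le_exp.2 h5
    have h7 : Real.sqrt (nm y) ≤ Real.sqrt X := Real.sqrt_le_sqrt h2
    calc Real.sqrt (nm y) * Real.exp (rg η / (2 * Real.pi) * ang η y)
        ≤ Real.sqrt X * s1 (η : Qd t c) ^ 2 := mul_le_mul h7 h6 (Real.exp_pos _).le hsX.le
      _ = _ := by ring
  have hz1 : Real.sqrt c₁ * Real.sqrt X ≤ s1 z := by
    have h1 := (U.fd_iff hz.1).1 hz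
    have h2 := nm_tp U.disc hz.1
    rw [← Real.sqrt_mul hc.le, Real.sqrt_le_left hz.1.1.le]
    refine hnz.trans ?_
    rw [h2, pow_two]
    exact mul_le_mul_of_nonneg_left h1.1 hz.1.1.le
  have hl : ∀ y ∈ S, ∃ l : ℤ, l ∈ Icc (-(L : ℤ)) L ∧ y - y₀ = (l : Qd t c) * z := by
    intro y hy
    have h1 : dt (y - y₀) z = 0 := by
      have a1 := (hS y hy).2.2.2
      have a2 := (hS y₀ hy₀).2.2.2
      unfold dt at a1 a2 ⊢
      simp only [QuadraticAlgebra.re_sub, QuadraticAlgebra.im_sub]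
      linear_combination a2 - a1
    obtain ⟨l, hl⟩ := par_mult hp h1
    refine ⟨l, ?_, hl⟩
    have h2 : s1 y - s1 y₀ = l * s1 z := by
      have e := congrArg s1 hl
      rw [sub_eq_add_neg, s1_add, s1_neg, s1_mul U.disc] at e
      have e2 : s1 (l : Qd t c) = l := by
        unfold s1
        simp
      rw [e2] at e
      linarith
    have h3 : |(l : ℝ)| * (Real.sqrt c₁ * Real.sqrt X) ≤ s1 (η : Qd t c) ^ 2 * Real.sqrt X := by
      have h4 : |(l : ℝ)| * s1 z ≤ s1 (η : Qd t c) ^ 2 * Real.sqrt X := by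
        have h5 : |(l : ℝ)| * s1 z = |s1 y - s1 y₀| := by
          rw [h2, abs_mul, abs_of_pos hz.1.1]
        rw [h5, abs_le]
        obtain ⟨q1, q2⟩ := hb y hy
        obtain ⟨q3, q4⟩ := hb y₀ hy₀
        constructor <;> linarith
      exact (mul_le_mul_of_nonneg_left hz1 (abs_nonneg _)).trans h4
    have h4 : |(l : ℝ)| ≤ s1 (η : Qd t c) ^ 2 / Real.sqrt c₁ := by
      rw [le_div_iff₀ hsc]
      have h5 : (|(l : ℝ)| * Real.sqrt c₁) * Real.sqrt X ≤ s1 (η : Qd t c) ^ 2 * Real.sqrt X := by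
        calc (|(l : ℝ)| * Real.sqrt c₁) * Real.sqrt X =
            |(l : ℝ)| * (Real.sqrt c₁ * Real.sqrt X) := by ring
          _ ≤ _ := h3
      exact le_of_mul_le_mul_right h5 hsX
    have h5 : ((|l| : ℤ) : ℝ) ≤ ((L : ℤ) : ℝ) := by
      push_cast
      exact h4.trans (Nat.le_ceil _)
    have h6 : |l| ≤ (L : ℤ) := by exact_mod_cast h5
    rw [mem_Icc]
    exact ⟨(abs_le.1 h6).1, (abs_le.1 h6).2⟩
  choose! l hl1 hl2 using hl
  have h := Finset.card_le_card_of_injOn l hl1 (by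
    intro y hy y' hy' hyy
    have e1 := hl2 y hy
    have e2 := hl2 y' hy'
    rw [hyy, ← e2] at e1
    exact sub_left_injective e1)
  rw [Int.card_Icc] at h
  omega

end Pool.Agent.W80.GC
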