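import Pool.Agent.W80.GC.Far
import Mathlib.NumberTheory.LegendreSymbol.JacobiSymbol

/-!
Project GC (helper80): near pairs give pairs of opposite sign with small determinant.
-/

set_option autoImplicit false

namespace Pool.Agent.W80.GC

open Finset Filter
open Pool.Agent.H376R2.MR
open Pool.Agent.W78.GR
open Pool.Agent.W54.GR (rj rd abs_rd_le Fj_rd geom_half geom_quarter pt_bound abs_sinh_le sd_two)

variable {t c : ℤ} {η : (Qd t c)ˣ} {Q : ℕ}

/-- all prime factors of the norm are split -/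
def spl (z : Qd t c) : Prop := ∀ p : ℕ, p.Prime → p ∣ nm z → jacobiSym (t ^ 2 - 4 * c) p = 1

/-- a pair of elements of opposite sign with small determinant -/
structure Pr (η : (Qd t c)ˣ) (Q T : ℕ) (B X : ℝ) (e : Qd t c × Qd t c) : Prop where
  fd1 : fd η e.1
  pr1 : prim e.1
  cl1 : cl Q e.1
  tp2 : tp e.2
  cl2 : cl Q e.2
  sp1 : spl e.1
  sp2 : spl e.2
  n1 : B ≤ nm e.1
  n1' : (nm e.1 : ℝ) ≤ X
  n2 : B ≤ nm e.2
  n2' : (nm e.2 : ℝ) ≤ X
  dt0 : dt e.1 e.2 ≠ 0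
  dt1 : |dt e.1 e.2| ≤ T
  ne : gl e.1 ≠ gl e.2
  an : |ang η e.1 - ang η e.2| ≤ 1

lemma par_mult {v u : Qd t c} (hu : prim u) (h : dt v u = 0) : ∃ l : ℤ, v = (l : Qd t c) * u := by
  unfold prim at hu
  unfold dt at h
  have hb := Int.gcd_eq_gcd_ab u.re u.im
  rw [hu] at hb
  set x := Int.gcdA u.re u.im
  set y := Int.gcdB u.re u.im
  push_cast at hb
  refine ⟨x * v.re + y * v.im, ?_⟩
  apply QuadraticAlgebra.ext
  · simp
    linear_combination v.re * hb + y * h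
  · simp
    linear_combination v.im * hb - x * h

lemma nm_class {z : Qd t c} (hd : 4 * c < t ^ 2) (hz : tp z) (h : cl Q z) :
    (Q : ℤ) ∣ (nm z : ℤ) - 1 := by
  rw [nm_tp_int hd hz]
  rw [cl_iff] at h
  obtain ⟨h1, h2⟩ := h
  have e : z.re ^ 2 + t * z.re * z.im + c * z.im ^ 2 - 1 =
      (z.re - 1) * (z.re + 1) + z.im * (t * z.re + c * z.im) := by ring
  rw [e]
  exact dvd_add (h1.mul_right _) (h2.mul_right _)

/-- the primitive elements of the class have split norms -/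
lemma spl_prim {z : Qd t c} (hd : 4 * c < t ^ 2) (hz : tp z) (hp : prim z) (h : cl Q z)
    (h2 : 2 ∣ Q) (hdQ : (t ^ 2 - 4 * c) ∣ (Q : ℤ)) : spl z := by
  intro p hpp hpz
  haveI : Fact p.Prime := ⟨hpp⟩
  have hc := nm_class hd hz h
  have hpz' : (p : ℤ) ∣ (nm z : ℤ) := Int.natCast_dvd_natCast.2 hpz
  have hpQ : ¬ (p : ℤ) ∣ (Q : ℤ) := by
    intro h3
    have h4 := dvd_sub hpz' (h3.trans hc)
    have e : (nm z : ℤ) - ((nm z : ℤ) - 1) = 1 := by ring
    rw [e] at h4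
    exact (Nat.prime_iff_prime_int.1 hpp).not_isUnit (isUnit_of_dvd_one h4)
  have hp2 : ¬ (p : ℤ) ∣ 2 := fun h3 => hpQ (h3.trans (by exact_mod_cast h2))
  have hpd : ¬ (p : ℤ) ∣ t ^ 2 - 4 * c := fun h3 => hpQ (h3.trans hdQ)
  have hpi := Nat.prime_iff_prime_int.1 hpp
  -- `p` does not divide the imaginary part
  have h4 : (4 : ℤ) * nm z = (2 * z.re + t * z.im) ^ 2 - (t ^ 2 - 4 * c) * z.im ^ 2 := by
    rw [nm_tp_int hd hz]; ring
  have him : ¬ (p : ℤ) ∣ z.im := by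
    intro h3
    have h5 : (p : ℤ) ∣ (2 * z.re + t * z.im) ^ 2 := by
      have e : (2 * z.re + t * z.im) ^ 2 = 4 * nm z + z.im * ((t ^ 2 - 4 * c) * z.im) := by
        rw [h4]; ring
      rw [e]
      exact dvd_add (hpz'.mul_left 4) (h3.mul_right _)
    have h6 := hpi.dvd_of_dvd_pow h5
    have h7 : (p : ℤ) ∣ 2 * z.re := by
      have e : 2 * z.re = (2 * z.re + t * z.im) - z.im * t := by ring
      rw [e]
      exact dvd_sub h6 (h3.mul_right t)
    rcases hpi.dvd_or_dvd h7 with h8 | h8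
    · exact hp2 h8
    · have h9 := Int.dvd_coe_gcd h8 h3
      unfold prim at hp
      rw [hp] at h9
      exact hpi.not_isUnit (isUnit_of_dvd_one (by simpa using h9))
  rw [← jacobiSym.legendreSym.to_jacobiSym]
  have hne : ((t ^ 2 - 4 * c : ℤ) : ZMod p) ≠ 0 := by
    rw [Ne, ZMod.intCast_zmod_eq_zero_iff_dvd]
    exact hpd
  rw [legendreSym.eq_one_iff p hne]
  have hine : ((z.im : ℤ) : ZMod p) ≠ 0 := by
    rw [Ne, ZMod.intCast_zmod_eq_zero_iff_dvd]
    exact him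
  refine ⟨((2 * z.re + t * z.im : ℤ) : ZMod p) * ((z.im : ℤ) : ZMod p)⁻¹, ?_⟩
  have h10 : ((4 * (nm z : ℤ) : ℤ) : ZMod p) = 0 := by
    rw [ZMod.intCast_zmod_eq_zero_iff_dvd]
    exact hpz'.mul_left 4
  rw [h4] at h10
  push_cast at h10 ⊢
  field_simp
  linear_combination -h10

lemma spl_mul {z w : Qd t c} (hz : spl z) (hw : spl w) : spl (z * w) := by
  intro p hp h
  rw [nm_mul] at h
  rcases hp.dvd_mul.1 h with h | h
  · exact hz p hp h
  · exact hw p hp h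

lemma near_map (U : Un t c η) (hη : cl Q (η : Qd t c)) (h2Q : 2 ∣ Q)
    (hdQ : (t ^ 2 - 4 * c) ∣ (Q : ℤ)) {X B δ : ℝ} {z z' u : Qd t c}
    (hz : z ∈ pball η X) (hz' : z' ∈ pball η X) (hu : tp u) (hcu : cl Q u) (hsu : spl u)
    (hcz : cl Q z) (hcz' : cl Q z') (hBz : B ≤ nm z) (hBz' : B ≤ nm z')
    (hgl : gl z ≠ gl (u * z')) (hδ1 : δ ≤ 1) (hδ2 : rg η / (2 * Real.pi) * δ ≤ 1)
    (hr : |rd (ang η z - ang η (u * z'))| ≤ δ) {T : ℕ}
    (hT : 4 * nm u * X * (rg η / (2 * Real.pi) * δ) ≤ T) :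
    Pr η Q T B (nm u * X)
      (z, ((η ^ rj (ang η z - ang η (u * z')) : (Qd t c)ˣ) : Qd t c) * (u * z')) := by
  obtain ⟨hz1, hz2, hz3⟩ := U.mem_pball.1 hz
  obtain ⟨hz1', hz2', hz3'⟩ := U.mem_pball.1 hz'
  have hX0 : 0 ≤ X := (Nat.cast_nonneg _).trans hz3
  have hw : tp (u * z') := tp_mul U.disc hu hz1'.1
  set m : ℤ := rj (ang η z - ang η (u * z')) with hm
  set y : Qd t c := ((η ^ m : (Qd t c)ˣ) : Qd t c) * (u * z') with hy
  have ty : tp y := (U.tp_zpow_mul m).2 hw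
  have ny : nm y = nm u * nm z' := by rw [hy, Un.nm_zpow_mul, nm_mul]
  have ay : ang η y = ang η (u * z') + 2 * Real.pi * m := U.ang_zpow_mul m hw
  have hr' : |ang η z - ang η y| ≤ δ := by
    have : ang η z - ang η y = rd (ang η z - ang η (u * z')) := by
      unfold rd
      rw [ay, ← hm]
      ring
    rw [this]
    exact hr
  have hNu : (1 : ℝ) ≤ nm u := one_le_nmR U.disc hu
  have hNu' : 1 ≤ nm u := nm_pos U.disc hu
  have hsz' := spl_prim U.disc hz1'.1 hz2' hcz' h2Q hdQ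
  have gy : gl y = gl (u * z') := by
    unfold gl
    rw [hy, Un.nm_zpow_mul]
  have hnyR : (nm y : ℝ) = nm u * nm z' := by rw [ny]; push_cast; ring
  have hdt : dt z y ≠ 0 := by
    intro h0
    have h1 : dt y z = 0 := by
      have : dt y z = - dt z y := by unfold dt; ring
      rw [this, h0, neg_zero]
    obtain ⟨l, hl⟩ := par_mult hz2 h1
    apply hgl
    rw [← gy]
    have hl0 : l ≠ 0 := by
      rintro rfl
      rw [Int.cast_zero, zero_mul] at hl
      exact tp_ne_zero ty hl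
    unfold gl
    rw [hl, nm_mul, nm_intCast, lam_sq_mul (Int.natAbs_ne_zero.2 hl0) (nm_pos U.disc hz1.1).ne']
  have hdtb : |(dt z y : ℝ)| ≤ T := by
    have h2 := U.dt_sinh hz1.1 ty
    have hs1 := sd_two U
    have hR : 0 ≤ rg η / (2 * Real.pi) := by
      have := U.rg_pos
      have := Real.pi_pos
      positivity
    have hx : |rg η / (2 * Real.pi) * (ang η y - ang η z)| ≤ rg η / (2 * Real.pi) * δ := by
      rw [abs_mul, abs_of_nonneg hR, abs_sub_comm]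
      exact mul_le_mul_of_nonneg_left hr' hR
    have h3 := abs_sinh_le (hx.trans hδ2)
    have h5 : Real.sqrt ((nm z : ℝ) * nm y) ≤ nm u * X := by
      rw [Real.sqrt_le_left (by positivity), hnyR]
      have h6 : (nm z : ℝ) * (nm u * nm z') ≤ X * (nm u * X) := by gcongr
      have h7 : X * (nm u * X) ≤ (nm u * X) ^ 2 := by
        have : 0 ≤ X * X * nm u := by positivity
        calc X * (nm u * X) = X * X * nm u * 1 := by ring
          _ ≤ X * X * nm u * nm u := mul_le_mul_of_nonneg_left hNu this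
          _ = _ := by ring
      exact h6.trans h7
    have h8 : Real.sqrt ((t : ℝ) ^ 2 - 4 * c) * |(dt z y : ℝ)| ≤
        2 * (nm u * X) * (2 * (rg η / (2 * Real.pi) * δ)) := by
      have e : Real.sqrt ((t : ℝ) ^ 2 - 4 * c) * |(dt z y : ℝ)| =
          |Real.sqrt ((t : ℝ) ^ 2 - 4 * c) * (dt z y : ℝ)| := by
        rw [abs_mul, abs_of_nonneg (Real.sqrt_nonneg _)]
      rw [e, h2, abs_mul, abs_of_nonneg (by positivity)]
      apply mul_le_mul (by linarith) (h3.trans (by linarith)) (abs_nonneg _) (by positivity)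
    have h9 : 1 * |(dt z y : ℝ)| ≤ Real.sqrt ((t : ℝ) ^ 2 - 4 * c) * |(dt z y : ℝ)| :=
      mul_le_mul_of_nonneg_right (by linarith) (abs_nonneg _)
    linarith
  have hdtb' : |dt z y| ≤ (T : ℤ) := by
    have : ((|dt z y| : ℤ) : ℝ) ≤ ((T : ℤ) : ℝ) := by push_cast; exact hdtb
    exact_mod_cast this
  have hnz'0 : (1 : ℝ) ≤ nm z' := one_le_nmR U.disc hz1'.1
  refine ⟨hz1, hz2, hcz, ty, cl_mul (cl_zpow hη m) (cl_mul hcu hcz'),
    spl_prim U.disc hz1.1 hz2 hcz h2Q hdQ, ?_, hBz, ?_, ?_, ?_, hdt, hdtb', ?_, hr'.trans hδ1⟩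
  · intro p hp h
    simp only at h
    rw [ny] at h
    rcases hp.dvd_mul.1 h with h | h
    · exact hsu p hp h
    · exact hsz' p hp h
  · exact hz3.trans (le_mul_of_one_le_left hX0 hNu)
  · simp only
    rw [hnyR]
    exact hBz'.trans (le_mul_of_one_le_left (by linarith) hNu)
  · simp only
    rw [hnyR]
    exact mul_le_mul_of_nonneg_left hz3' (by linarith)
  · simp only
    rw [gy]
    exact hgl

theorem near_card (U : Un t c η) (hη : cl Q (η : Qd t c)) (h2Q : 2 ∣ Q)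
    (hdQ : (t ^ 2 - 4 * c) ∣ (Q : ℤ)) {X B δ : ℝ} {u : Qd t c}
    (hu : tp u) (hcu : cl Q u) (hsu : spl u) (hδ1 : δ ≤ 1)
    (hδ2 : rg η / (2 * Real.pi) * δ ≤ 1) {T : ℕ}
    (hT : 4 * nm u * X * (rg η / (2 * Real.pi) * δ) ≤ T)
    (S : Finset (Qd t c × Qd t c))
    (hS : ∀ e ∈ S, e.1 ∈ pball η X ∧ e.2 ∈ pball η X ∧ cl Q e.1 ∧ cl Q e.2 ∧
      B ≤ nm e.1 ∧ B ≤ nm e.2 ∧ gl e.1 ≠ gl (u * e.2) ∧
      |rd (ang η e.1 - ang η (u * e.2))| ≤ δ) :
    ∃ S' : Finset (Qd t c × Qd t c), S'.card = S.card ∧ ∀ e ∈ S', Pr η Q T B (nm u * X) e := by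
  classical
  refine ⟨S.image (fun e => (e.1, ((η ^ rj (ang η e.1 - ang η (u * e.2)) : (Qd t c)ˣ) : Qd t c) *
    (u * e.2))), ?_, ?_⟩
  · apply card_image_of_injOn
    intro e he e' he' hee
    simp only [Prod.mk.injEq] at hee
    obtain ⟨h1, h2⟩ := hee
    obtain ⟨-, g2, -⟩ := hS e he
    obtain ⟨-, g2', -⟩ := hS e' he'
    set m := rj (ang η e.1 - ang η (u * e.2))
    set m' := rj (ang η e'.1 - ang η (u * e'.2))
    have h3 : e.2 = ((η ^ (m' - m) : (Qd t c)ˣ) : Qd t c) * e'.2 := by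
      have h4 : u * e.2 = u * (((η ^ (m' - m) : (Qd t c)ˣ) : Qd t c) * e'.2) := by
        have h5 : ((η ^ (-m) : (Qd t c)ˣ) : Qd t c) *
            (((η ^ m : (Qd t c)ˣ) : Qd t c) * (u * e.2)) = u * e.2 := by
          rw [← mul_assoc, ← Units.val_mul, ← zpow_add, neg_add_cancel, zpow_zero, Units.val_one,
            one_mul]
        rw [← h5, h2, ← mul_assoc, ← Units.val_mul, ← zpow_add]
        have e1 : -m + m' = m' - m := by ring
        rw [e1]
        ring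
      exact mul_cancel U.nsq (tp_ne_zero hu) h4
    have h4 := U.eq_of_zpow_mul (U.mem_pball.1 g2').1 (U.mem_pball.1 g2).1 h3
    exact Prod.ext h1 h4
  · intro e he
    rw [mem_image] at he
    obtain ⟨e₀, he₀, rfl⟩ := he
    obtain ⟨h1, h2, h3, h4, h5, h6, h7, h8⟩ := hS e₀ he₀
    exact near_map U hη h2Q hdQ h1 h2 hu hcu hsu h3 h4 h5 h6 h7 hδ1 hδ2 h8 hT

end Pool.Agent.W80.GC
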