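import Pool.Agent.W80.GC.U0
import Pool.Agent.H98R3.OM.A1

/-!
Project GC (helper80): for all but `δ X` elements `z` of the ball, the norm of `z` has a small
prime factor in every split residue class modulo `A`.
-/

set_option autoImplicit false

namespace Pool.Agent.W80.GC

open Finset Filter
open Pool.Agent.H376R2.MR
open Pool.Agent.W78.GR

variable {t c : ℤ} {η : (Qd t c)ˣ}

lemma lat_one' (z : Qd t c) : lat 1 0 z := by
  unfold lat
  simp

/-- pairs of coprime moduli -/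
theorem two_lat' {p q : ℕ} (hpq : Nat.Coprime p q) (r s : ℤ) : ∃ u : ℤ, ∀ z : Qd t c,
    lat p r z → lat q s z → lat (p * q) u z := by
  have h := Nat.isCoprime_iff_coprime.2 hpq
  obtain ⟨a, b, hab⟩ := h
  refine ⟨r * (b * q) + s * (a * p), fun z h1 h2 => ?_⟩
  unfold lat at *
  push_cast
  apply IsCoprime.mul_dvd ⟨a, b, hab⟩
  · have e : z.re + (r * (b * q) + s * (a * p)) * z.im =
      (z.re + r * z.im) + p * (a * (s - r) * z.im) := by
      have : b * (q : ℤ) = 1 - a * p := by linarith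
      rw [this]; ring
    rw [e]
    exact dvd_add h1 (dvd_mul_right _ _)
  · have e : z.re + (r * (b * q) + s * (a * p)) * z.im =
      (z.re + s * z.im) + q * (b * (r - s) * z.im) := by
      have : a * (p : ℤ) = 1 - b * q := by linarith
      rw [this]; ring
    rw [e]
    exact dvd_add h2 (dvd_mul_right _ _)

/-- the second moment, one row -/
theorem row_le' {C X : ℝ} (U : Un t c η) (hX : 1 ≤ X) (hC : 0 < C)
    (hball : ∀ (d : ℕ) (r : ℤ), 1 ≤ d →
      |(((ball η X).filter (lat d r)).card : ℝ) - kap η * X / d| ≤ C * Real.sqrt X)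
    (T : Finset ℕ) (hT : ∀ q ∈ T, q.Prime) (ρ : ℕ → ℤ) (p : ℕ) (hp : p ∈ T) :
    ∑ q ∈ T, (((ball η X).filter (fun z => lat p (ρ p) z ∧ lat q (ρ q) z)).card : ℝ) ≤
      kap η * X / p * (∑ q ∈ T, 1 / (q : ℝ)) + T.card * (C * Real.sqrt X) +
      (((ball η X).filter (lat p (ρ p))).card : ℝ) := by
  have hk := Pool.Agent.W54.GR.kap_pos U
  have hE : 0 ≤ C * Real.sqrt X := by positivity
  have hpp := hT p hp
  have hp0 : (0 : ℝ) < p := by exact_mod_cast hpp.pos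
  have h1 : ∀ q ∈ T,
      (((ball η X).filter (fun z => lat p (ρ p) z ∧ lat q (ρ q) z)).card : ℝ) ≤
      (kap η * X / p * (1 / (q : ℝ)) + C * Real.sqrt X) +
      (if q = p then (((ball η X).filter (lat p (ρ p))).card : ℝ) else 0) := by
    intro q hq
    have hqp := hT q hq
    have hq0 : (0 : ℝ) < q := by exact_mod_cast hqp.pos
    by_cases h : q = p
    · rw [if_pos h]
      have h2 : (((ball η X).filter (fun z => lat p (ρ p) z ∧ lat q (ρ q) z)).card : ℝ) ≤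
        (((ball η X).filter (lat p (ρ p))).card : ℝ) := by
        exact_mod_cast card_le_card (fun z hz => by
          rw [mem_filter] at hz ⊢
          exact ⟨hz.1, hz.2.1⟩)
      have h3 : 0 ≤ kap η * X / p * (1 / (q : ℝ)) := by positivity
      linarith
    · rw [if_neg h, add_zero]
      obtain ⟨u, hu⟩ := two_lat' (t := t) (c := c)
        ((Nat.coprime_primes hpp hqp).2 (fun h5 => h h5.symm)) (ρ p) (ρ q)
      have h2 : (((ball η X).filter (fun z => lat p (ρ p) z ∧ lat q (ρ q) z)).card : ℝ) ≤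
        (((ball η X).filter (lat (p * q) u)).card : ℝ) := by
        exact_mod_cast card_le_card (fun z hz => by
          rw [mem_filter] at hz ⊢
          exact ⟨hz.1, hu z hz.2.1 hz.2.2⟩)
      have h3 := (abs_le.1 (hball (p * q) u (Nat.mul_pos hpp.pos hqp.pos))).2
      have h4 : kap η * X / ((p * q : ℕ) : ℝ) = kap η * X / p * (1 / (q : ℝ)) := by
        push_cast
        field_simp
      rw [h4] at h3
      linarith
  refine (sum_le_sum h1).trans ?_
  rw [sum_add_distrib, sum_add_distrib, ← mul_sum, sum_const, nsmul_eq_mul, ← sum_filter,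
    sum_const, nsmul_eq_mul]
  have h2 : ((T.filter (fun q => q = p)).card : ℝ) ≤ 1 := by
    have : (T.filter (fun q => q = p)) ⊆ {p} := by
      intro q hq
      rw [mem_filter] at hq
      rw [mem_singleton]
      exact hq.2
    exact_mod_cast (card_le_card this).trans (by simp)
  have h3 : (0 : ℝ) ≤ (((ball η X).filter (lat p (ρ p))).card : ℝ) := by positivity
  have h4 := mul_le_mul_of_nonneg_right h2 h3
  linarith

theorem var_le' {C X : ℝ} (U : Un t c η) (hX : 1 ≤ X) (hC : 0 < C)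
    (hball : ∀ (d : ℕ) (r : ℤ), 1 ≤ d →
      |(((ball η X).filter (lat d r)).card : ℝ) - kap η * X / d| ≤ C * Real.sqrt X)
    (T : Finset ℕ) (hT : ∀ q ∈ T, q.Prime) (ρ : ℕ → ℤ) :
    ∑ z ∈ ball η X, (((T.filter (fun q => lat q (ρ q) z)).card : ℝ) -
      ∑ q ∈ T, 1 / (q : ℝ)) ^ 2 ≤
      kap η * X * (∑ q ∈ T, 1 / (q : ℝ)) +
        4 * (C * Real.sqrt X) * ((T.card : ℝ) + 1) ^ 2 := by
  classical
  have hk := Pool.Agent.W54.GR.kap_pos U
  set W : ℝ := ∑ q ∈ T, 1 / (q : ℝ) with hW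
  set E : ℝ := C * Real.sqrt X with hEdef
  have hE : 0 ≤ E := by rw [hEdef]; positivity
  set n : ℝ := (T.card : ℝ) with hn
  have hn0 : 0 ≤ n := by rw [hn]; positivity
  have hW0 : 0 ≤ W := sum_nonneg fun e _ => by positivity
  have hWn : W ≤ n := by
    rw [hW, hn, Finset.card_eq_sum_ones]
    push_cast
    refine sum_le_sum fun e he => ?_
    have h1 : (1 : ℝ) ≤ e := by exact_mod_cast (hT e he).pos
    rw [div_le_one (by linarith)]
    exact h1
  set f : Qd t c → ℝ := fun z => ((T.filter (fun q => lat q (ρ q) z)).card : ℝ) with hf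
  -- the number of points
  have hN : ((ball η X).card : ℝ) ≤ kap η * X + E := by
    have h1 := (abs_le.1 (hball 1 0 le_rfl)).2
    have h2 : (ball η X).filter (lat 1 0) = ball η X := by
      apply filter_true_of_mem
      intro z _
      exact lat_one' z
    rw [h2] at h1
    push_cast at h1
    rw [div_one] at h1
    linarith
  have hf1 : ∀ z, f z = ∑ q ∈ T, (if lat q (ρ q) z then (1 : ℝ) else 0) := by
    intro z
    rw [hf]
    simp only [card_filter]
    push_cast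
    rfl
  -- first moment
  have hS1 : ∑ z ∈ ball η X, f z = ∑ q ∈ T, (((ball η X).filter (lat q (ρ q))).card : ℝ) := by
    simp_rw [hf1]
    rw [sum_comm]
    refine sum_congr rfl fun q _ => ?_
    rw [card_filter]
    push_cast
    rfl
  have hL : ∑ q ∈ T, kap η * X / (q : ℝ) = kap η * X * W := by
    rw [hW, mul_sum]
    refine sum_congr rfl fun e _ => ?_
    ring
  have hS1lo : kap η * X * W - n * E ≤ ∑ z ∈ ball η X, f z := by
    rw [hS1]
    have h1 : ∑ q ∈ T, (kap η * X / (q : ℝ) - E) ≤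
        ∑ q ∈ T, (((ball η X).filter (lat q (ρ q))).card : ℝ) := by
      refine sum_le_sum fun e he => ?_
      have := (abs_le.1 (hball e (ρ e) (hT e he).pos)).1
      linarith
    rw [sum_sub_distrib, hL, sum_const, nsmul_eq_mul] at h1
    exact h1
  have hS1up : ∑ q ∈ T, (((ball η X).filter (lat q (ρ q))).card : ℝ) ≤
      kap η * X * W + n * E := by
    have h1 : ∑ q ∈ T, (((ball η X).filter (lat q (ρ q))).card : ℝ) ≤
        ∑ q ∈ T, (kap η * X / (q : ℝ) + E) := by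
      refine sum_le_sum fun e he => ?_
      have := (abs_le.1 (hball e (ρ e) (hT e he).pos)).2
      linarith
    rw [sum_add_distrib, hL, sum_const, nsmul_eq_mul] at h1
    exact h1
  -- second moment
  have hS2 : ∑ z ∈ ball η X, f z ^ 2 ≤
      kap η * X * W ^ 2 + n ^ 2 * E + (kap η * X * W + n * E) := by
    have h1 : ∑ z ∈ ball η X, f z ^ 2 = ∑ p ∈ T, ∑ q ∈ T,
        (((ball η X).filter (fun z => lat p (ρ p) z ∧ lat q (ρ q) z)).card : ℝ) := by
      have h2 : ∀ z, f z ^ 2 = ∑ p ∈ T, ∑ q ∈ T,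
          (if lat p (ρ p) z ∧ lat q (ρ q) z then (1 : ℝ) else 0) := by
        intro z
        rw [sq, hf1 z, sum_mul_sum]
        refine sum_congr rfl fun p _ => sum_congr rfl fun q _ => ?_
        by_cases ha : lat p (ρ p) z <;> by_cases hb : lat q (ρ q) z <;> simp [ha, hb]
      simp_rw [h2]
      rw [sum_comm]
      refine sum_congr rfl fun e _ => ?_
      rw [sum_comm]
      refine sum_congr rfl fun e' _ => ?_
      rw [card_filter]
      push_cast
      rfl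
    rw [h1]
    refine (sum_le_sum fun e he => row_le' U hX hC hball T hT ρ e he).trans ?_
    rw [sum_add_distrib, sum_add_distrib, ← sum_mul, sum_const, nsmul_eq_mul]
    change (∑ e ∈ T, kap η * X / (e : ℝ)) * W + n * (n * E) +
      ∑ e ∈ T, (((ball η X).filter (lat e (ρ e))).card : ℝ) ≤ _
    rw [hL]
    nlinarith [hS1up]
  have h1 : ∑ z ∈ ball η X, (f z - W) ^ 2 = ∑ z ∈ ball η X, f z ^ 2 -
      2 * W * ∑ z ∈ ball η X, f z + W ^ 2 * ((ball η X).card : ℝ) := by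
    have : ∀ z, (f z - W) ^ 2 = f z ^ 2 - 2 * W * f z + W ^ 2 := fun z => by ring
    simp_rw [this]
    rw [sum_add_distrib, sum_sub_distrib, ← mul_sum, sum_const, nsmul_eq_mul]
    ring
  change ∑ z ∈ ball η X, (f z - W) ^ 2 ≤ kap η * X * W + 4 * E * (n + 1) ^ 2
  rw [h1]
  have h2 : 2 * W * (kap η * X * W - n * E) ≤ 2 * W * ∑ z ∈ ball η X, f z :=
    mul_le_mul_of_nonneg_left hS1lo (by positivity)
  have h3 : W ^ 2 * ((ball η X).card : ℝ) ≤ W ^ 2 * (kap η * X + E) :=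
    mul_le_mul_of_nonneg_left hN (by positivity)
  have h4 : W * (n * E) ≤ n * (n * E) := mul_le_mul_of_nonneg_right hWn (by positivity)
  have h5 : W ^ 2 * E ≤ n ^ 2 * E :=
    mul_le_mul_of_nonneg_right (pow_le_pow_left₀ hW0 hWn 2) hE
  nlinarith [mul_nonneg hn0 hE]

/-- few elements of the ball avoid all the lattices `lat q (ρ q)`, `q ∈ T` -/
theorem avoid_le {C X : ℝ} (U : Un t c η) (hX : 1 ≤ X) (hC : 0 < C)
    (hball : ∀ (d : ℕ) (r : ℤ), 1 ≤ d →
      |(((ball η X).filter (lat d r)).card : ℝ) - kap η * X / d| ≤ C * Real.sqrt X)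
    (T : Finset ℕ) (hT : ∀ q ∈ T, q.Prime) (ρ : ℕ → ℤ) :
    (open scoped Classical in
      (((ball η X).filter (fun z => ∀ q ∈ T, ¬ lat q (ρ q) z)).card : ℝ)) *
      (∑ q ∈ T, 1 / (q : ℝ)) ^ 2 ≤
      kap η * X * (∑ q ∈ T, 1 / (q : ℝ)) +
        4 * (C * Real.sqrt X) * ((T.card : ℝ) + 1) ^ 2 := by
  classical
  refine le_trans ?_ (var_le' U hX hC hball T hT ρ)
  rw [← nsmul_eq_mul, ← sum_const]
  refine (sum_le_sum fun z hz => ?_).trans (sum_le_sum_of_subset_of_nonneg (filter_subset _ _)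
    fun _ _ _ => sq_nonneg _)
  rw [mem_filter] at hz
  have : T.filter (fun q => lat q (ρ q) z) = ∅ := by
    rw [filter_eq_empty_iff]
    exact hz.2
  rw [this, card_empty]
  push_cast
  rw [zero_sub, neg_sq]

theorem split_root {q : ℕ} (hq : q.Prime) (hq2 : Odd q)
    (hJ : jacobiSym (t ^ 2 - 4 * c) q = 1) : ∃ ρ : ℤ, (q : ℤ) ∣ ρ ^ 2 - t * ρ + c := by
  haveI : Fact q.Prime := ⟨hq⟩
  rw [← jacobiSym.legendreSym.to_jacobiSym] at hJ
  have h0 : ((t ^ 2 - 4 * c : ℤ) : ZMod q) ≠ 0 := by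
    intro h
    rw [(legendreSym.eq_zero_iff q _).2 h] at hJ
    norm_num at hJ
  obtain ⟨y, hy⟩ := (legendreSym.eq_one_iff q h0).1 hJ
  obtain ⟨k, hk⟩ := hq2
  have h1 : (q : ℤ) ∣ (y.val : ℤ) ^ 2 - (t ^ 2 - 4 * c) := by
    rw [← ZMod.intCast_zmod_eq_zero_iff_dvd _ q]
    push_cast
    rw [ZMod.natCast_val, ZMod.cast_id]
    push_cast at hy
    have : (y : ZMod q) ^ 2 = y * y := sq y
    rw [this, ← hy]
    ring
  refine ⟨((y.val : ℤ) + t) * (k + 1), ?_⟩
  have hk' : (q : ℤ) = 2 * k + 1 := by exact_mod_cast hk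
  have hcop : IsCoprime (q : ℤ) 4 := by
    rw [hk']
    exact ⟨(2 * k + 1), -(k ^ 2 + k), by ring⟩
  apply hcop.dvd_of_dvd_mul_left
  have e : 4 * ((((y.val : ℤ) + t) * (k + 1)) ^ 2 - t * (((y.val : ℤ) + t) * (k + 1)) + c) =
      ((y.val : ℤ) ^ 2 - (t ^ 2 - 4 * c)) + (q : ℤ) * (((y.val : ℤ) + t) ^ 2 * (2 * k + 3) -
        2 * t * ((y.val : ℤ) + t)) := by
    rw [hk']
    ring
  rw [e]
  exact dvd_add h1 (dvd_mul_right _ _)

lemma jac_congr {D : ℤ} {A q r : ℕ} (hA : 4 * D ∣ (A : ℤ)) (hA0 : A ≠ 0)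
    (hr : Nat.Coprime r A) (h : (A : ℤ) ∣ (q : ℤ) - r) : jacobiSym D q = jacobiSym D r := by
  have h2A : (2 : ℤ) ∣ A := ((by norm_num : (2 : ℤ) ∣ 4).trans (Dvd.intro _ rfl)).trans hA
  have hrodd : Odd r := by
    rw [← Nat.coprime_two_right]
    exact Nat.Coprime.coprime_dvd_right (by exact_mod_cast h2A) hr
  have hqodd : Odd q := by
    have h1 := h2A.trans h
    rw [Nat.odd_iff] at hrodd ⊢
    omega
  rw [jacobiSym.mod_right _ hqodd, jacobiSym.mod_right _ hrodd]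
  have h6 : ((4 * D.natAbs : ℕ) : ℤ) ∣ (q : ℤ) - r := by
    push_cast
    have : |4 * D| ∣ (q : ℤ) - r := (abs_dvd _ _).2 (hA.trans h)
    rwa [abs_mul, abs_of_pos (by norm_num : (0 : ℤ) < 4)] at this
  have h7 : r ≡ q [MOD (4 * D.natAbs)] := by
    rw [Nat.modEq_iff_dvd]
    exact_mod_cast h6
  rw [h7.symm]

/-- the norm of `z` has a prime factor `P₀ < q ≤ P` in every split residue class modulo `A` -/
def Rich (A P₀ P : ℕ) (z : Qd t c) : Prop := ∀ r : ℕ, Nat.Coprime r A →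
  jacobiSym (t ^ 2 - 4 * c) r = 1 →
  ∃ q : ℕ, q.Prime ∧ P₀ < q ∧ q ≤ P ∧ q ∣ nm z ∧ (A : ℤ) ∣ (q : ℤ) - r

lemma class_primes {A : ℕ} (hA : 4 * (t ^ 2 - 4 * c) ∣ (A : ℤ)) (hA0 : A ≠ 0) {r : ℕ}
    (hr : Nat.Coprime r A) (hJ : jacobiSym (t ^ 2 - 4 * c) r = 1) (P₀ : ℕ) (W₀ : ℝ) :
    ∃ (T : Finset ℕ) (ρ : ℕ → ℤ),
      (∀ q ∈ T, q.Prime ∧ P₀ < q ∧ (A : ℤ) ∣ (q : ℤ) - r ∧ (q : ℤ) ∣ ρ q ^ 2 - t * ρ q + c) ∧
      W₀ ≤ ∑ q ∈ T, 1 / (q : ℝ) := by
  classical
  have : NeZero A := ⟨hA0⟩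
  have hunit : IsUnit (r : ZMod A) := (ZMod.unitOfCoprime r hr).isUnit
  have hns := Pool.Agent.H98R3.OM.not_summable_class hunit
  rw [not_summable_iff_tendsto_nat_atTop_of_nonneg (fun n => by split_ifs <;> positivity)] at hns
  obtain ⟨n, hn⟩ := (hns.eventually_ge_atTop (W₀ + ∑ q ∈ range (P₀ + 1), 1 / (q : ℝ))).exists
  have hroot : ∀ q : ℕ, q.Prime → (A : ℤ) ∣ (q : ℤ) - r →
      ∃ ρ : ℤ, (q : ℤ) ∣ ρ ^ 2 - t * ρ + c := by
    intro q hq hqr
    have h1 := jac_congr hA hA0 hr hqr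
    rw [hJ] at h1
    apply split_root hq ?_ h1
    have h2A : (2 : ℤ) ∣ A := ((by norm_num : (2 : ℤ) ∣ 4).trans (Dvd.intro _ rfl)).trans hA
    have hrodd : Odd r := by
      rw [← Nat.coprime_two_right]
      exact Nat.Coprime.coprime_dvd_right (by exact_mod_cast h2A) hr
    have h1 := h2A.trans hqr
    rw [Nat.odd_iff] at hrodd ⊢
    omega
  have hcls : ∀ q : ℕ, (q : ZMod A) = ((r : ℕ) : ZMod A) → (A : ℤ) ∣ (q : ℤ) - r := by
    intro q hq
    rw [← ZMod.intCast_zmod_eq_zero_iff_dvd _ A]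
    push_cast at hq ⊢
    rw [hq, sub_self]
  choose! ρ hρ using hroot
  refine ⟨(range n).filter (fun q : ℕ => (q.Prime ∧ (q : ZMod A) = ((r : ℕ) : ZMod A)) ∧ P₀ < q), ρ,
    ?_, ?_⟩
  · intro q hq
    rw [mem_filter] at hq
    exact ⟨hq.2.1.1, hq.2.2, hcls q hq.2.1.2, hρ q hq.2.1.1 (hcls q hq.2.1.2)⟩
  · have h1 : ∑ q ∈ (range n).filter (fun q : ℕ => q.Prime ∧ (q : ZMod A) = ((r : ℕ) : ZMod A)),
        1 / (q : ℝ) ≤ ∑ q ∈ (range n).filter (fun q : ℕ => (q.Prime ∧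
          (q : ZMod A) = ((r : ℕ) : ZMod A)) ∧ P₀ < q), 1 / (q : ℝ) +
          ∑ q ∈ range (P₀ + 1), 1 / (q : ℝ) := by
      rw [← sum_filter_add_sum_filter_not ((range n).filter (fun q : ℕ => q.Prime ∧
        (q : ZMod A) = ((r : ℕ) : ZMod A))) (fun q : ℕ => P₀ < q), filter_filter]
      apply add_le_add le_rfl
      apply sum_le_sum_of_subset_of_nonneg
      · intro q hq
        rw [mem_filter] at hq
        rw [mem_range]
        have := hq.2
        omega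
      · intro _ _ _
        positivity
    rw [sum_filter] at h1
    linarith

lemma avoid_small (U : Un t c η) (hlat : S_LAT t c η) {δ : ℝ} (hδ : 0 < δ) (T : Finset ℕ)
    (hT : ∀ q ∈ T, q.Prime) (ρ : ℕ → ℤ) (hW : 2 * kap η / δ + 1 ≤ ∑ q ∈ T, 1 / (q : ℝ)) :
    ∃ X₀ : ℝ, ∀ X : ℝ, X₀ ≤ X → (open scoped Classical in
      (((ball η X).filter (fun z => ∀ q ∈ T, ¬ lat q (ρ q) z)).card : ℝ)) ≤ δ * X := by
  classical
  obtain ⟨C, hC, hball, -⟩ := hlat
  have hk := Pool.Agent.W54.GR.kap_pos U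
  set W : ℝ := ∑ q ∈ T, 1 / (q : ℝ) with hWdef
  have hW1 : 1 ≤ W := by
    have : 0 ≤ 2 * kap η / δ := by positivity
    linarith
  set B : ℝ := 4 * C * ((T.card : ℝ) + 1) ^ 2 with hB
  have hB0 : 0 ≤ B := by positivity
  refine ⟨max 1 ((2 * B / δ) ^ 2), fun X hX => ?_⟩
  have hX1 : 1 ≤ X := (le_max_left _ _).trans hX
  have hX2 : (2 * B / δ) ^ 2 ≤ X := (le_max_right _ _).trans hX
  have hX0 : 0 < X := by linarith
  have h1 := avoid_le U hX1 hC (fun d r hd => hball X d r hX1 hd) T hT ρ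
  rw [← hWdef] at h1
  set N : ℝ := (((ball η X).filter (fun z => ∀ q ∈ T, ¬ lat q (ρ q) z)).card : ℝ) with hN
  have hN0 : 0 ≤ N := by rw [hN]; positivity
  have hs : 2 * B / δ ≤ Real.sqrt X := Real.le_sqrt_of_sq_le hX2
  have hsX : Real.sqrt X * Real.sqrt X = X := Real.mul_self_sqrt hX0.le
  have h2 : B * Real.sqrt X ≤ δ / 2 * X := by
    rw [div_le_iff₀ hδ] at hs
    have : 0 ≤ Real.sqrt X := Real.sqrt_nonneg _
    nlinarith
  have h3 : kap η * X ≤ δ / 2 * X * W := by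
    have h4 : 2 * kap η ≤ δ * W := by
      have : 2 * kap η / δ ≤ W := by linarith
      rw [div_le_iff₀ hδ] at this
      linarith
    nlinarith
  have h5 : N * W ^ 2 ≤ δ / 2 * X * W ^ 2 + δ / 2 * X := by
    calc N * W ^ 2 ≤ kap η * X * W + 4 * (C * Real.sqrt X) * ((T.card : ℝ) + 1) ^ 2 := h1
      _ = kap η * X * W + B * Real.sqrt X := by rw [hB]; ring
      _ ≤ δ / 2 * X * W * W + δ / 2 * X := by
          apply add_le_add _ h2
          exact mul_le_mul_of_nonneg_right h3 (by linarith)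
      _ = _ := by ring
  have h6 : N * W ^ 2 ≤ (δ * X) * W ^ 2 := by
    have h7 : (1 : ℝ) ≤ W ^ 2 := one_le_pow₀ hW1
    have h8 : 0 ≤ δ / 2 * X := by positivity
    nlinarith
  exact le_of_mul_le_mul_right h6 (by positivity)

theorem rich_all (U : Un t c η) (hlat : S_LAT t c η) {A : ℕ}
    (hA : 4 * (t ^ 2 - 4 * c) ∣ (A : ℤ)) (hA0 : 0 < A) (P₀ : ℕ) {δ : ℝ} (hδ : 0 < δ) :
    ∃ (P : ℕ) (X₀ : ℝ), ∀ X : ℝ, X₀ ≤ X → (open scoped Classical in
      (((ball η X).filter (fun z => ¬ Rich A P₀ P z)).card : ℝ)) ≤ δ * X := by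
  classical
  have hAR : (0 : ℝ) < A := by exact_mod_cast hA0
  -- one class
  have hone : ∀ b : ℕ, ∃ (P : ℕ) (X₀ : ℝ), Nat.Coprime b A →
      jacobiSym (t ^ 2 - 4 * c) b = 1 → ∀ X : ℝ, X₀ ≤ X →
      (((ball η X).filter (fun z => ¬ ∃ q : ℕ, q.Prime ∧ P₀ < q ∧ q ≤ P ∧ q ∣ nm z ∧
        (A : ℤ) ∣ (q : ℤ) - b)).card : ℝ) ≤ δ / A * X := by
    intro b
    by_cases hb : Nat.Coprime b A ∧ jacobiSym (t ^ 2 - 4 * c) b = 1
    · obtain ⟨T, ρ, hT, hW⟩ := class_primes hA hA0.ne' hb.1 hb.2 P₀ (2 * kap η / (δ / A) + 1)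
      obtain ⟨X₀, hX₀⟩ := avoid_small U hlat (by positivity : 0 < δ / A) T
        (fun q hq => (hT q hq).1) ρ hW
      refine ⟨T.sup id, X₀, fun _ _ X hX => ?_⟩
      refine le_trans ?_ (hX₀ X hX)
      have : ((ball η X).filter (fun z => ¬ ∃ q : ℕ, q.Prime ∧ P₀ < q ∧ q ≤ T.sup id ∧
        q ∣ nm z ∧ (A : ℤ) ∣ (q : ℤ) - b)) ⊆
        (ball η X).filter (fun z => ∀ q ∈ T, ¬ lat q (ρ q) z) := by
        intro z hz
        rw [mem_filter] at hz ⊢
        refine ⟨hz.1, fun q hq hl => hz.2 ⟨q, (hT q hq).1, (hT q hq).2.1,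
          Finset.le_sup (f := id) hq, ?_, (hT q hq).2.2.1⟩⟩
        exact Pool.Agent.W29.GR.nm_mod_lat (hT q hq).2.2.2 hl
      exact_mod_cast card_le_card this
    · exact ⟨0, 0, fun h1 h2 => absurd ⟨h1, h2⟩ hb⟩
  choose P X₀ hP using hone
  refine ⟨(range A).sup P, ∑ b ∈ range A, |X₀ b|, fun X hX => ?_⟩
  have hsub : (ball η X).filter (fun z => ¬ Rich A P₀ ((range A).sup P) z) ⊆
      ((range A).filter (fun b : ℕ => Nat.Coprime b A ∧
        jacobiSym (t ^ 2 - 4 * c) b = 1)).biUnion (fun b : ℕ =>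
        (ball η X).filter (fun z => ¬ ∃ q : ℕ, q.Prime ∧ P₀ < q ∧ q ≤ P b ∧ q ∣ nm z ∧
          (A : ℤ) ∣ (q : ℤ) - b)) := by
    intro z hz
    rw [mem_filter] at hz
    obtain ⟨hz1, hz2⟩ := hz
    unfold Rich at hz2
    push Not at hz2
    obtain ⟨r, hr, hrJ, h⟩ := hz2
    have hbr : (A : ℤ) ∣ (r : ℤ) - ((r % A : ℕ) : ℤ) := by
      push_cast
      exact Int.dvd_self_sub_emod
    have hblt : r % A < A := Nat.mod_lt _ hA0
    have hbc : Nat.Coprime (r % A) A := by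
      rw [Nat.coprime_comm, Nat.coprime_iff_gcd_eq_one, Nat.gcd_comm, ← Nat.gcd_rec, Nat.gcd_comm]
      exact hr
    have hbJ : jacobiSym (t ^ 2 - 4 * c) (r % A : ℕ) = 1 := by
      rw [← jac_congr hA hA0.ne' hbc hbr]
      exact hrJ
    rw [mem_biUnion]
    refine ⟨r % A, by rw [mem_filter, mem_range]; exact ⟨hblt, hbc, hbJ⟩, ?_⟩
    rw [mem_filter]
    refine ⟨hz1, ?_⟩
    rintro ⟨q, hq, hq0, hqP, hqn, hqb⟩
    refine h q hq hq0 (hqP.trans (Finset.le_sup (mem_range.2 hblt))) hqn ?_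
    have e : (q : ℤ) - r = (q - ((r % A : ℕ) : ℤ)) - (r - ((r % A : ℕ) : ℤ)) := by ring
    rw [e]
    exact dvd_sub hqb hbr
  calc (((ball η X).filter (fun z => ¬ Rich A P₀ ((range A).sup P) z)).card : ℝ)
      ≤ ((((range A).filter (fun b : ℕ => Nat.Coprime b A ∧
        jacobiSym (t ^ 2 - 4 * c) b = 1)).biUnion (fun b : ℕ =>
        (ball η X).filter (fun z => ¬ ∃ q : ℕ, q.Prime ∧ P₀ < q ∧ q ≤ P b ∧ q ∣ nm z ∧
          (A : ℤ) ∣ (q : ℤ) - b))).card : ℝ) := by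
        exact_mod_cast card_le_card hsub
    _ ≤ ∑ b ∈ (range A).filter (fun b : ℕ => Nat.Coprime b A ∧
        jacobiSym (t ^ 2 - 4 * c) b = 1),
        (((ball η X).filter (fun z => ¬ ∃ q : ℕ, q.Prime ∧ P₀ < q ∧ q ≤ P b ∧ q ∣ nm z ∧
          (A : ℤ) ∣ (q : ℤ) - b)).card : ℝ) := by
        exact_mod_cast card_biUnion_le
    _ ≤ ∑ b ∈ (range A).filter (fun b : ℕ => Nat.Coprime b A ∧
        jacobiSym (t ^ 2 - 4 * c) b = 1), δ / A * X := by
        refine sum_le_sum fun b hb => ?_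
        rw [mem_filter, mem_range] at hb
        apply hP b hb.2.1 hb.2.2 X
        refine le_trans ?_ hX
        refine (le_abs_self _).trans ?_
        exact single_le_sum (f := fun b => |X₀ b|) (fun _ _ => abs_nonneg _) (mem_range.2 hb.1)
    _ ≤ ∑ _b ∈ range A, δ / A * X := by
        apply sum_le_sum_of_subset_of_nonneg (filter_subset _ _)
        intro b _ _
        have : 0 ≤ X := le_trans (sum_nonneg fun _ _ => abs_nonneg _) hX
        positivity
    _ = δ * X := by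
        rw [sum_const, card_range, nsmul_eq_mul]
        field_simp

end Pool.Agent.W80.GC
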