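import Pool.Agent.W80.GC.Near
import Pool.Agent.W78.GR.SC

/-!
Project GC (helper80): a positive proportion of pairs of opposite sign with small determinant
(after W78/GR/SC).
-/

set_option autoImplicit false

namespace Pool.Agent.W80.GC

open Finset Filter
open Pool.Agent.H376R2.MR
open Pool.Agent.W78.GR
open Pool.Agent.W78.GA (bg_nonneg bg_le)
open Pool.Agent.W54.GR (rj rd abs_rd_le Fj_rd geom_half geom_quarter pt_bound)

variable {t c : ℤ} {η : (Qd t c)ˣ} {Q : ℕ}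

open scoped Classical in
/-- the indicator of the class -/
noncomputable def cq (Q : ℕ) (z : Qd t c) : ℤ := if cl Q z then 1 else 0

/-- A0 for the class -/
def S_A0c (η : (Qd t c)ˣ) (Q : ℕ) : Prop := ∃ c₀ : ℝ, 0 < c₀ ∧ ∃ Y₀ : ℝ, ∀ Y : ℝ, Y₀ ≤ Y →
  c₀ ≤ ∑ z ∈ pball η (Real.exp 1 * Y), (cq Q z : ℝ) * bg Y z

/-- U0 for the class -/
def S_U0c (t c : ℤ) (Q : ℕ) : Prop := ∃ u : Qd t c, tp u ∧ gl u = -1 ∧ cl Q u ∧ spl u

/-- many pairs of opposite sign with small determinant -/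
def S_SCP (η : (Qd t c)ˣ) (Q : ℕ) : Prop := ∃ (T : ℕ) (c₁ ε : ℝ), 0 < c₁ ∧ 0 < ε ∧ ∃ X₀ : ℝ,
  ∀ X : ℝ, X₀ ≤ X → ∃ S : Finset (Qd t c × Qd t c), ε * X ≤ (S.card : ℝ) ∧
    ∀ e ∈ S, Pr η Q T (c₁ * X) X e

lemma cq_mul_gl (z : Qd t c) : (cq Q z : ℝ) * (gl z : ℝ) = (gq Q z : ℝ) := by
  unfold cq gq
  split_ifs <;> simp

lemma rsum_eq' (U : Un t c η) (Y : ℝ) {u : Qd t c} (hu : tp u) (K : ℕ) :
    ∑ z ∈ pball η (Real.exp 1 * Y), ∑ z' ∈ pball η (Real.exp 1 * Y),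
      ((cq Q z : ℝ) * bg Y z) * ((cq Q z' : ℝ) * bg Y z') *
        (1 - (gl z : ℝ) * (gl (u * z') : ℝ)) * Fj K (ang η z - ang η (u * z')) =
    ∑ k ∈ FK K, (1 - |(k : ℝ)| / K) * ((ps η k u).re *
      (‖GGg η (cq Q : Qd t c → ℤ) Y k‖ ^ 2 -
        (gl u : ℝ) * ‖GGg η (gq Q : Qd t c → ℤ) Y k‖ ^ 2)) := by
  set s := pball η (Real.exp 1 * Y) with hs
  have hs0 : ∀ z ∈ s, tp z := fun z hz => pball_tp U hz
  have h1 := dsum_eq U s hs0 (fun z => (cq Q z : ℝ) * bg Y z) (fun z => (cq Q z : ℝ) * bg Y z) hu K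
  have h2 := dsum_eq U s hs0 (fun z => (gq Q z : ℝ) * bg Y z) (fun z => (gq Q z : ℝ) * bg Y z) hu K
  have h3 : ∑ z ∈ s, ∑ z' ∈ s,
      ((cq Q z : ℝ) * bg Y z) * ((cq Q z' : ℝ) * bg Y z') *
        (1 - (gl z : ℝ) * (gl (u * z') : ℝ)) * Fj K (ang η z - ang η (u * z')) =
      ∑ z ∈ s, ∑ z' ∈ s, ((cq Q z : ℝ) * bg Y z) * ((cq Q z' : ℝ) * bg Y z') *
        Fj K (ang η z - ang η (u * z')) -
      (gl u : ℝ) * ∑ z ∈ s, ∑ z' ∈ s, ((gq Q z : ℝ) * bg Y z) * ((gq Q z' : ℝ) * bg Y z') *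
        Fj K (ang η z - ang η (u * z')) := by
    rw [mul_sum, ← sum_sub_distrib]
    refine sum_congr rfl fun z hz => ?_
    rw [mul_sum, ← sum_sub_distrib]
    refine sum_congr rfl fun z' hz' => ?_
    rw [gl_mul U.nsq (tp_ne_zero hu) (tp_ne_zero (hs0 z' hz')), ← cq_mul_gl z, ← cq_mul_gl z']
    push_cast
    ring
  rw [h3, h1, h2, mul_sum, ← sum_sub_distrib]
  refine sum_congr rfl fun k _ => ?_
  have h4 : ∀ D : ℂ, (D * (starRingEnd ℂ) D * (starRingEnd ℂ) (ps η k u)).re =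
      (ps η k u).re * ‖D‖ ^ 2 := by
    intro D
    rw [Complex.mul_conj, Complex.normSq_eq_norm_sq, Complex.re_ofReal_mul, Complex.conj_re]
    ring
  have h5 : DPG η s (fun z => (((gq Q z : ℝ) * bg Y z : ℝ) : ℂ)) k =
      GGg η (gq Q : Qd t c → ℤ) Y k := by
    unfold GGg
    congr 1
    funext z
    push_cast
    rfl
  have h6 : DPG η s (fun z => (((cq Q z : ℝ) * bg Y z : ℝ) : ℂ)) k =
      GGg η (cq Q : Qd t c → ℤ) Y k := by
    unfold GGg
    congr 1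
    funext z
    push_cast
    rfl
  rw [h4, h4, h5, h6]
  ring

/-- the condition on the pairs -/
def cnd (Q : ℕ) (B : ℝ) (u z z' : Qd t c) : Prop := cl Q z ∧ cl Q z' ∧
  B ≤ nm z ∧ B ≤ nm z' ∧ gl z ≠ gl (u * z')

lemma rsum_le' (U : Un t c η) {Y : ℝ} (hY : 0 < Y) (u : Qd t c) (K : ℕ) :
    ∑ z ∈ pball η (Real.exp 1 * Y), ∑ z' ∈ pball η (Real.exp 1 * Y),
      ((cq Q z : ℝ) * bg Y z) * ((cq Q z' : ℝ) * bg Y z') *
        (1 - (gl z : ℝ) * (gl (u * z') : ℝ)) * Fj K (ang η z - ang η (u * z')) ≤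
    2 * (Real.exp 1 / Y) ^ 2 * (open scoped Classical in
    ∑ z ∈ pball η (Real.exp 1 * Y), ∑ z' ∈ pball η (Real.exp 1 * Y),
      (if cnd Q (Y / Real.exp 1) u z z' then Fj K (ang η z - ang η (u * z')) else 0)) := by
  classical
  rw [mul_sum]
  refine sum_le_sum fun z hz => ?_
  rw [mul_sum]
  refine sum_le_sum fun z' hz' => ?_
  have hF := Fj_nonneg K (ang η z - ang η (u * z'))
  have ha := bg_le' U.disc hY (pball_tp U hz)
  have hb := bg_le' U.disc hY (pball_tp U hz')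
  have ha0 := bg_nonneg Y z
  have hb0 := bg_nonneg Y z'
  have hab : bg Y z * bg Y z' ≤ (Real.exp 1 / Y) ^ 2 := by
    rw [pow_two]
    exact mul_le_mul ha hb hb0 (ha0.trans ha)
  have hab0 : 0 ≤ bg Y z * bg Y z' := mul_nonneg ha0 hb0
  have hg : gl z = 1 ∨ gl z = -1 := lam_eq _
  have hg' : gl (u * z') = 1 ∨ gl (u * z') = -1 := lam_eq _
  have hsame : gl z = gl (u * z') → (1 - (gl z : ℝ) * (gl (u * z') : ℝ)) = 0 := by
    intro h
    rw [h]
    have : (gl (u * z') : ℝ) * (gl (u * z') : ℝ) = 1 := by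
      rcases hg' with h | h <;> rw [h] <;> norm_num
    rw [this]; ring
  by_cases h : cnd Q (Y / Real.exp 1) u z z'
  · rw [if_pos h]
    obtain ⟨h1, h2, h3, h4, h5⟩ := h
    have e1 : (cq Q z : ℝ) = 1 := by unfold cq; rw [if_pos h1]; norm_num
    have e2 : (cq Q z' : ℝ) = 1 := by unfold cq; rw [if_pos h2]; norm_num
    have : (gl z : ℝ) * (gl (u * z') : ℝ) = -1 := by
      rcases hg with h1 | h1 <;> rcases hg' with h2 | h2
      · exact absurd (h1.trans h2.symm) h5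
      · rw [h1, h2]; norm_num
      · rw [h1, h2]; norm_num
      · exact absurd (h1.trans h2.symm) h5
    rw [this, e1, e2, one_mul, one_mul]
    have := mul_le_mul_of_nonneg_right hab hF
    nlinarith
  · rw [if_neg h, mul_zero]
    apply le_of_eq
    by_cases h1 : cl Q z
    · by_cases h2 : cl Q z'
      · by_cases h3 : Y / Real.exp 1 ≤ (nm z : ℝ)
        · by_cases h4 : Y / Real.exp 1 ≤ (nm z' : ℝ)
          · have h5 : gl z = gl (u * z') := by
              by_contra hcon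
              exact h ⟨h1, h2, h3, h4, hcon⟩
            rw [hsame h5]; ring
          · have : bg Y z' = 0 := by
              by_contra hcon
              exact h4 (bg_ne U.disc hY (pball_tp U hz') hcon).1
            rw [this]; ring
        · have : bg Y z = 0 := by
            by_contra hcon
            exact h3 (bg_ne U.disc hY (pball_tp U hz) hcon).1
          rw [this]; ring
      · have e2 : (cq Q z' : ℝ) = 0 := by unfold cq; rw [if_neg h2]; norm_num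
        rw [e2]; ring
    · have e2 : (cq Q z : ℝ) = 0 := by unfold cq; rw [if_neg h1]; norm_num
      rw [e2]; ring

lemma low_bound' (A G : ℤ → ℂ) {u₀ : Qd t c} (hgu : gl u₀ = -1) {K : ℕ} (hKpos : (0 : ℝ) < K) :
    2 * ‖A 0‖ ^ 2 ≤ ∑ k ∈ FK K, (1 - |(k : ℝ)| / K) * ((ps η k (1 : Qd t c)).re *
      (‖A k‖ ^ 2 - (gl (1 : Qd t c) : ℝ) * ‖G k‖ ^ 2)) +
      ∑ k ∈ FK K, (1 - |(k : ℝ)| / K) * ((ps η k u₀).re *
      (‖A k‖ ^ 2 - (gl u₀ : ℝ) * ‖G k‖ ^ 2)) +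
      2 * ∑ k ∈ (FK K).erase 0, ‖G k‖ ^ 2 := by
  have hKn : 1 ≤ K := by exact_mod_cast hKpos
  rw [← sum_add_distrib]
  have h0 : (0 : ℤ) ∈ FK K := by
    rw [FK, Finset.mem_Ioo]
    omega
  rw [← Finset.add_sum_erase _ _ h0, mul_sum, add_assoc, ← sum_add_distrib]
  have h1 : (1 - |((0 : ℤ) : ℝ)| / K) * ((ps η 0 (1 : Qd t c)).re *
    (‖A 0‖ ^ 2 - (gl (1 : Qd t c) : ℝ) * ‖G 0‖ ^ 2)) +
    (1 - |((0 : ℤ) : ℝ)| / K) * ((ps η 0 u₀).re *
    (‖A 0‖ ^ 2 - (gl u₀ : ℝ) * ‖G 0‖ ^ 2)) = 2 * ‖A 0‖ ^ 2 := by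
    rw [gl_one, hgu, ps_zero, ps_zero]
    simp
    ring
  rw [h1]
  refine le_add_of_nonneg_right (sum_nonneg fun k hk => ?_)
  rw [mem_erase, FK, Finset.mem_Ioo] at hk
  have hw0 : 0 ≤ 1 - |(k : ℝ)| / K := by
    rw [sub_nonneg, div_le_one hKpos]
    rw [abs_le]
    constructor
    · have : ((-(K : ℤ) : ℤ) : ℝ) < (k : ℝ) := by exact_mod_cast hk.2.1
      push_cast at this
      linarith
    · have : (k : ℝ) < ((K : ℤ) : ℝ) := by exact_mod_cast hk.2.2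
      push_cast at this
      linarith
  have hw1 : 1 - |(k : ℝ)| / K ≤ 1 := by
    have : 0 ≤ |(k : ℝ)| / K := by positivity
    linarith
  have hps1 : ps η k (1 : Qd t c) = 1 := ps_one k
  have hc1 : (ps η k u₀).re ≤ 1 := by
    have := (Complex.abs_re_le_norm (ps η k u₀)).trans (norm_ps k _).le
    exact (abs_le.1 this).2
  have hc2 : -1 ≤ (ps η k u₀).re := by
    have := (Complex.abs_re_le_norm (ps η k u₀)).trans (norm_ps k _).le
    exact (abs_le.1 this).1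
  rw [gl_one, hgu, hps1]
  push_cast
  rw [Complex.one_re]
  set γ := (ps η k u₀).re
  set W := 1 - |(k : ℝ)| / K
  have hA : 0 ≤ ‖A k‖ ^ 2 := by positivity
  have hB : 0 ≤ ‖G k‖ ^ 2 := by positivity
  have e : W * (1 * (‖A k‖ ^ 2 - 1 * ‖G k‖ ^ 2)) +
      W * (γ * (‖A k‖ ^ 2 - -1 * ‖G k‖ ^ 2)) + 2 * ‖G k‖ ^ 2 =
      W * (1 + γ) * ‖A k‖ ^ 2 + (W * (1 + γ) + 2 * (1 - W)) * ‖G k‖ ^ 2 := by
    ring
  rw [e]
  have : 0 ≤ W * (1 + γ) := mul_nonneg hw0 (by linarith)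
  have : 0 ≤ W * (1 + γ) + 2 * (1 - W) := by linarith
  positivity

/-- the sum over the pairs is at most the near pairs plus a small contribution -/
lemma pairs_le (U : Un t c η) (hη : cl Q (η : Qd t c)) (h2Q : 2 ∣ Q)
    (hdQ : (t ^ 2 - 4 * c) ∣ (Q : ℤ)) : ∃ C : ℝ, 0 < C ∧
    ∀ (B X T : ℝ) (K : ℕ) (u : Qd t c), 1 ≤ X → 1 ≤ T → 1 ≤ K → tp u → cl Q u → spl u →
    T / K ≤ 1 → rg η / (2 * Real.pi) * (T / K) ≤ 1 → ∀ T' : ℕ,
    4 * nm u * X * (rg η / (2 * Real.pi) * (T / K)) ≤ T' →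
    ∃ S : Finset (Qd t c × Qd t c), (∀ e ∈ S, Pr η Q T' B (nm u * X) e) ∧
    (open scoped Classical in
    ∑ z ∈ pball η X, ∑ z' ∈ pball η X,
      (if cnd Q B u z z' then Fj K (ang η z - ang η (u * z')) else 0)) ≤
    K * (S.card : ℝ) + C * (X ^ 2 / T + X * K / T ^ 2) := by
  classical
  obtain ⟨C, hC, hfar⟩ := far_le U (Pool.Agent.W54.GR.sect U) (lat_all U)
  refine ⟨C, hC, ?_⟩
  intro B X T K u hX hT hK hu hcu hsu hTK hRT T' hT'
  have hT0 : 0 < T := by linarith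
  have hpt : ∀ z ∈ pball η X, ∀ z' ∈ pball η X,
      (if cnd Q B u z z' then Fj K (ang η z - ang η (u * z')) else 0) ≤
      (if cnd Q B u z z' ∧ |rd (ang η z - ang η (u * z'))| ≤ T / K then (K : ℝ) else 0) +
      ∑ j ∈ range (K + 2), (if |rd (ang η z - ang η (u * z'))| ≤ 2 ^ (j + 1) * T / K then
        Real.pi ^ 2 * K / (T ^ 2) * (1 / 4) ^ j else 0) := by
    intro z _ z' _
    have h1 := pt_bound hK hT (abs_rd_le (ang η z - ang η (u * z')))
    have h2 : 0 ≤ ∑ j ∈ range (K + 2), (if |rd (ang η z - ang η (u * z'))| ≤ 2 ^ (j + 1) * T / K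
        then Real.pi ^ 2 * K / (T ^ 2) * (1 / 4) ^ j else 0) := by
      apply Finset.sum_nonneg
      intro j _
      split_ifs
      · positivity
      · exact le_rfl
    by_cases hg : cnd Q B u z z'
    · rw [if_pos hg, Fj_rd]
      refine h1.trans ?_
      apply add_le_add _ le_rfl
      by_cases hn : |rd (ang η z - ang η (u * z'))| ≤ T / K
      · rw [if_pos hn, if_pos ⟨hg, hn⟩]
      · rw [if_neg hn]
        split_ifs
        · positivity
        · exact le_rfl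
    · rw [if_neg hg]
      have : 0 ≤ (if cnd Q B u z z' ∧ |rd (ang η z - ang η (u * z'))| ≤ T / K
          then (K : ℝ) else 0) := by
        split_ifs
        · positivity
        · exact le_rfl
      linarith
  obtain ⟨S, hScard, hSp⟩ := near_card U hη h2Q hdQ (B := B) hu hcu hsu hTK hRT hT'
    ((pball η X ×ˢ pball η X).filter
        (fun p : Qd t c × Qd t c => cnd Q B u p.1 p.2 ∧
          |rd (ang η p.1 - ang η (u * p.2))| ≤ T / K)) (by
      intro e he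
      rw [mem_filter, mem_product] at he
      obtain ⟨⟨h1, h2⟩, ⟨h3, h4, h5, h6, h7⟩, h8⟩ := he
      exact ⟨h1, h2, h3, h4, h5, h6, h7, h8⟩)
  refine ⟨S, hSp, ?_⟩
  have hnear : ∑ z ∈ pball η X, ∑ z' ∈ pball η X,
      (if cnd Q B u z z' ∧ |rd (ang η z - ang η (u * z'))| ≤ T / K then (K : ℝ) else 0) =
      K * (S.card : ℝ) := by
    rw [← Finset.sum_product', ← Finset.sum_filter, Finset.sum_const, nsmul_eq_mul, mul_comm,
      hScard]
  refine (Finset.sum_le_sum fun z hz => Finset.sum_le_sum fun z' hz' => hpt z hz z' hz').trans ?_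
  have h := hfar X T K u hX hT hK hu
  simp only [Finset.sum_add_distrib] at hnear h ⊢
  linarith

lemma Pr.mono {T : ℕ} {B B' X X' : ℝ} (hB : B' ≤ B) (hX : X ≤ X') {e : Qd t c × Qd t c}
    (h : Pr η Q T B X e) : Pr η Q T B' X' e :=
  { fd1 := h.fd1, pr1 := h.pr1, cl1 := h.cl1, tp2 := h.tp2, cl2 := h.cl2, sp1 := h.sp1,
    sp2 := h.sp2, n1 := hB.trans h.n1, n1' := h.n1'.trans hX, n2 := hB.trans h.n2,
    n2' := h.n2'.trans hX, dt0 := h.dt0, dt1 := h.dt1, ne := h.ne, an := h.an }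

lemma spl_one : spl (1 : Qd t c) := by
  intro p hp h
  rw [nm_one] at h
  exact absurd (Nat.dvd_one.1 h) hp.one_lt.ne'

theorem scp_of (U : Un t c η) (hQ : 1 ≤ Q) (hη : cl Q (η : Qd t c)) (h2Q : 2 ∣ Q)
    (hdQ : (t ^ 2 - 4 * c) ∣ (Q : ℤ)) (hA0 : S_A0c η Q) (hu0 : S_U0c t c Q) : S_SCP η Q := by
  classical
  have hmr := mr_all U hQ hη
  obtain ⟨u₀, hu₀, hgu, hcu, hsu⟩ := hu0
  set V : ℝ := (nm u₀ : ℝ) with hV
  have hV1 : 1 ≤ V := one_le_nmR U.disc hu₀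
  have hRg := U.rg_pos
  have hpi := Real.pi_pos
  set R : ℝ := rg η / (2 * Real.pi) with hR
  have hR0 : 0 < R := by positivity
  obtain ⟨C, hC, hpair⟩ := pairs_le U hη h2Q hdQ
  obtain ⟨c₀, hc₀, YA, hA0⟩ := hA0
  obtain ⟨h, hh, YM, hmr⟩ := hmr (c₀ ^ 2 / 4) (by positivity)
  set T : ℝ := 16 * Real.exp 4 * C / c₀ ^ 2 + 1 with hT
  have hT1 : 1 ≤ T := by
    rw [hT]
    have : 0 ≤ 16 * Real.exp 4 * C / c₀ ^ 2 := by positivity
    linarith
  have he1 : (0 : ℝ) < Real.exp 1 := Real.exp_pos 1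
  have hhp : 0 < h := by linarith
  have hVp : 0 < V := by linarith
  set T' : ℕ := ⌈8 * V * Real.exp 1 * T * h * R⌉₊ with hT'
  have hT'1 : 8 * V * Real.exp 1 * T * h * R ≤ T' := Nat.le_ceil _
  refine ⟨T', 1 / (V * Real.exp 1 ^ 2), c₀ ^ 2 / (8 * Real.exp 1 ^ 3 * V),
    by positivity, by positivity,
    V * Real.exp 1 * (|YA| + |YM| + 4 * h * T * (1 + R) + 2), fun X' hX' => ?_⟩
  set Y : ℝ := X' / (V * Real.exp 1) with hYdef
  have hYbig : |YA| + |YM| + 4 * h * T * (1 + R) + 2 ≤ Y := by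
    rw [hYdef, le_div_iff₀ (by positivity)]
    linarith
  have hTp : 0 < T := by linarith
  have hhTR : 0 < 4 * h * T * (1 + R) := by positivity
  have hYA : YA ≤ Y := by
    have := le_abs_self YA
    have := abs_nonneg YM
    linarith
  have hYM : YM ≤ Y := by
    have := le_abs_self YM
    have := abs_nonneg YA
    linarith
  have hY4 : 4 * h * T * (1 + R) ≤ Y := by
    have := abs_nonneg YM
    have := abs_nonneg YA
    linarith
  have hYpos : 0 < Y := by linarith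
  set K : ℕ := ⌊Y / h⌋₊ with hK
  have hYh : 4 * T * (1 + R) ≤ Y / h := by
    rw [le_div_iff₀ hhp]
    calc 4 * T * (1 + R) * h = 4 * h * T * (1 + R) := by ring
      _ ≤ Y := hY4
  have hTR : T ≤ T * (1 + R) := le_mul_of_one_le_right hTp.le (by linarith)
  have hK1 : (K : ℝ) ≤ Y / h := Nat.floor_le (by positivity)
  have hK2 : Y / h - 1 < K := Nat.sub_one_lt_floor _
  have hK3 : Y / (2 * h) ≤ K := by
    have : Y / (2 * h) = (Y / h) / 2 := by field_simp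
    rw [this]
    linarith
  have hK4 : T * (1 + R) ≤ K := by linarith
  have hKpos : (0 : ℝ) < K := by linarith
  have hKn : 1 ≤ K := by exact_mod_cast hKpos
  have hKY : (K : ℝ) ≤ Y := hK1.trans (div_le_self hYpos.le hh)
  have hTK : T / K ≤ 1 := by
    rw [div_le_one hKpos]; linarith
  have hRTK : R * (T / K) ≤ 1 := by
    rw [← mul_div_assoc, div_le_one hKpos]
    linarith
  set X : ℝ := Real.exp 1 * Y with hXdef
  have he : 1 ≤ Real.exp 1 := Real.one_le_exp (by norm_num)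
  have hYX : Y ≤ X := by rw [hXdef]; exact le_mul_of_one_le_left hYpos.le he
  have hX1 : 1 ≤ X := by linarith
  have h2X : V * X = X' := by
    rw [hXdef, hYdef]; field_simp
  have hBB : 1 / (V * Real.exp 1 ^ 2) * X' = Y / Real.exp 1 := by
    rw [← h2X, hXdef]; field_simp
  -- the two inequalities
  have hRu : ∀ u : Qd t c, (u = 1 ∨ u = u₀) → ∃ S : Finset (Qd t c × Qd t c),
      (∀ e ∈ S, Pr η Q T' (1 / (V * Real.exp 1 ^ 2) * X') X' e) ∧
      ∑ k ∈ FK K, (1 - |(k : ℝ)| / K) * ((ps η k u).re *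
      (‖GGg η (cq Q : Qd t c → ℤ) Y k‖ ^ 2 -
        (gl u : ℝ) * ‖GGg η (gq Q : Qd t c → ℤ) Y k‖ ^ 2)) ≤
      2 * Real.exp 1 ^ 2 * (S.card : ℝ) / Y + 4 * Real.exp 4 * C / T := by
    intro u hu
    have hu0 : tp u ∧ (nm u : ℝ) ≤ V ∧ cl Q u ∧ spl u := by
      rcases hu with rfl | rfl
      · refine ⟨tp_one, by rw [nm_one]; exact_mod_cast hV1, cl_one, spl_one⟩
      · exact ⟨hu₀, le_rfl, hcu, hsu⟩
    obtain ⟨hut, huV, hucl, husp⟩ := hu0
    have hnu1 : (1 : ℝ) ≤ nm u := one_le_nmR U.disc hut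
    have hTT : 4 * nm u * X * (R * (T / K)) ≤ T' := by
      refine le_trans ?_ hT'1
      have h1 : T / K ≤ T / (Y / (2 * h)) := div_le_div_of_nonneg_left (by linarith) (by positivity) hK3
      have h2 : T / (Y / (2 * h)) = 2 * h * T / Y := by field_simp
      rw [h2] at h1
      calc 4 * nm u * X * (R * (T / K)) ≤ 4 * V * X * (R * (2 * h * T / Y)) := by gcongr
        _ = 8 * V * Real.exp 1 * T * h * R := by rw [hXdef]; field_simp; ring
    obtain ⟨S, hS, hle⟩ := hpair (Y / Real.exp 1) X T K u hX1 hT1 hKn hut hucl husp hTK hRTK T' hTT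
    refine ⟨S, ?_, ?_⟩
    · intro e he
      rw [hBB]
      refine (hS e he).mono le_rfl ?_
      rw [← h2X]
      exact mul_le_mul_of_nonneg_right huV (by linarith)
    rw [← rsum_eq' U Y hut K]
    refine (rsum_le' U hYpos u K).trans ?_
    have h2 : 0 ≤ 2 * (Real.exp 1 / Y) ^ 2 := by positivity
    refine (mul_le_mul_of_nonneg_left hle h2).trans ?_
    have hs : (0 : ℝ) ≤ S.card := Nat.cast_nonneg _
    have e4 : Real.exp 4 = Real.exp 1 ^ 4 := by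
      rw [← Real.exp_nat_mul]; norm_num
    have a1 : 2 * (Real.exp 1 / Y) ^ 2 * (K * (S.card : ℝ)) ≤
        2 * Real.exp 1 ^ 2 * (S.card : ℝ) / Y := by
      calc 2 * (Real.exp 1 / Y) ^ 2 * (K * (S.card : ℝ)) ≤
            2 * (Real.exp 1 / Y) ^ 2 * (Y * (S.card : ℝ)) := by gcongr
        _ = 2 * Real.exp 1 ^ 2 * (S.card : ℝ) / Y := by field_simp
    have a2 : X * K / T ^ 2 ≤ X ^ 2 / T := by
      rw [div_le_div_iff₀ (by positivity) (by positivity)]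
      have h9 : (K : ℝ) ≤ X := hKY.trans hYX
      have hX0 : 0 ≤ X := by linarith
      calc X * K * T ≤ X * X * T := by gcongr
        _ ≤ X * X * T ^ 2 := by
            apply mul_le_mul_of_nonneg_left _ (by positivity)
            rw [pow_two]
            exact le_mul_of_one_le_left hTp.le hT1
        _ = X ^ 2 * T ^ 2 := by ring
    have a3 : 2 * (Real.exp 1 / Y) ^ 2 * (C * (X ^ 2 / T + X * K / T ^ 2)) ≤
        4 * Real.exp 4 * C / T := by
      calc 2 * (Real.exp 1 / Y) ^ 2 * (C * (X ^ 2 / T + X * K / T ^ 2)) ≤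
            2 * (Real.exp 1 / Y) ^ 2 * (C * (X ^ 2 / T + X ^ 2 / T)) := by gcongr
        _ = 4 * Real.exp 4 * C / T := by rw [e4, hXdef]; field_simp; ring
    rw [mul_add]
    exact add_le_add a1 a3
  obtain ⟨S₁, hS₁, hR1⟩ := hRu 1 (Or.inl rfl)
  obtain ⟨S₂, hS₂, hR2⟩ := hRu u₀ (Or.inr rfl)
  have hG := hmr Y hYM
  rw [← hK] at hG
  have hlow := low_bound' (η := η) (GGg η (cq Q : Qd t c → ℤ) Y) (GGg η (gq Q : Qd t c → ℤ) Y)
    hgu hKpos
  have hA1 : c₀ ^ 2 ≤ ‖GGg η (cq Q : Qd t c → ℤ) Y 0‖ ^ 2 := by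
    have h1 : GGg η (cq Q : Qd t c → ℤ) Y 0 =
        ((∑ z ∈ pball η (Real.exp 1 * Y), (cq Q z : ℝ) * bg Y z : ℝ) : ℂ) := by
      unfold GGg DPG
      simp
    have h2 := hA0 Y hYA
    rw [h1, Complex.norm_real, Real.norm_of_nonneg (by linarith)]
    exact pow_le_pow_left₀ hc₀.le h2 2
  have hT2 : 4 * Real.exp 4 * C / T ≤ c₀ ^ 2 / 4 := by
    rw [div_le_div_iff₀ (by linarith) (by norm_num)]
    have : c₀ ^ 2 * T = 16 * Real.exp 4 * C + c₀ ^ 2 := by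
      rw [hT]; field_simp
    nlinarith [sq_nonneg c₀]
  have hfin : c₀ ^ 2 * Y ≤ 2 * Real.exp 1 ^ 2 * ((S₁.card : ℝ) + S₂.card) := by
    have h3 : c₀ ^ 2 ≤ 2 * Real.exp 1 ^ 2 * (S₁.card : ℝ) / Y +
        2 * Real.exp 1 ^ 2 * (S₂.card : ℝ) / Y := by linarith
    have h4 : 2 * Real.exp 1 ^ 2 * (S₁.card : ℝ) / Y + 2 * Real.exp 1 ^ 2 * (S₂.card : ℝ) / Y =
        2 * Real.exp 1 ^ 2 * ((S₁.card : ℝ) + S₂.card) / Y := by ring
    rw [h4, le_div_iff₀ hYpos] at h3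
    exact h3
  have hXY : X' = V * Real.exp 1 * Y := by
    rw [hYdef]; field_simp
  have hgoal : ∀ S : Finset (Qd t c × Qd t c), (S₁.card : ℝ) + S₂.card ≤ 2 * S.card →
      c₀ ^ 2 / (8 * Real.exp 1 ^ 3 * V) * X' ≤ S.card := by
    intro S hS
    rw [hXY, div_mul_eq_mul_div, div_le_iff₀ (by positivity)]
    have e0 : 0 < V * Real.exp 1 := by positivity
    have h5 : 0 ≤ (S.card : ℝ) * (Real.exp 1 ^ 3 * V) :=
      mul_nonneg (Nat.cast_nonneg _) (by positivity)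
    calc c₀ ^ 2 * (V * Real.exp 1 * Y) = V * Real.exp 1 * (c₀ ^ 2 * Y) := by ring
      _ ≤ V * Real.exp 1 * (2 * Real.exp 1 ^ 2 * ((S₁.card : ℝ) + S₂.card)) :=
          mul_le_mul_of_nonneg_left hfin e0.le
      _ ≤ V * Real.exp 1 * (2 * Real.exp 1 ^ 2 * (2 * S.card)) := by
          apply mul_le_mul_of_nonneg_left _ e0.le
          exact mul_le_mul_of_nonneg_left hS (by positivity)
      _ = 4 * ((S.card : ℝ) * (Real.exp 1 ^ 3 * V)) := by ring
      _ ≤ 8 * ((S.card : ℝ) * (Real.exp 1 ^ 3 * V)) := by linarith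
      _ = (S.card : ℝ) * (8 * Real.exp 1 ^ 3 * V) := by ring
  rcases le_total (S₁.card : ℝ) S₂.card with hle | hle
  · exact ⟨S₂, hgoal S₂ (by linarith), hS₂⟩
  · exact ⟨S₁, hgoal S₁ (by linarith), hS₁⟩

end Pool.Agent.W80.GC
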